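import Pool.Agent.H2.LP.Egg

/-!
[H2 LP MID]  Monotone functions with a bounded first moment are bounded in the middle.

`Mc X M`: monotone, antitone or of variation `≤ X^(2/3)` on `[X, 2X]`.
Proof.  `A = X + X/4`, `B = X + 3 (X/4)`, `H ≤ X^(1/20)` (`ek_le`).  Claim: `|M n| ≤ 20 H + 2 X^(2/3)` for `n ∈ Icc A B`.
Monotone: `M n ≤ M j` for `n ≤ j ≤ 2X`, the number of these `j` in `Ioc X (2X)` is `2X - n + 1 ≥ X/4`, so
`(X/4) M n ≤ ∑ |M j| ≤ 2 X H` if `M n ≥ 0`; and `M n ≥ M j` for the `n - X ≥ X/4 - 1 ≥ X/8` numbers `j ∈ (X, n]`: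
`-M n X/8 ≤ 2 X H`.  Antitone: apply this to `-M`.  Bounded variation `T = X^(2/3)`: `|M n - M j| ≤ T` for
`n, j ∈ [X,2X]`, average over `j ∈ (X,2X]`: `|M n| ≤ T + 2H`.
`f n = log n * M n`: `|f n| ≤ log(2X) (20 H + 2 X^(2/3)) ≤ X^(7/10)` for large `X`.  Variation on `[A,B]`:
`|f(n+1) - f n| ≤ log(2X) |M(n+1) - M n| + |M n| (log(n+1) - log n)`; the variation of `M` on `[A,B]` is
`≤ 2 (20 H + 2 X^(2/3))` (monotone, telescoping) or `≤ X^(2/3)`, and `∑ (log(n+1) - log n) ≤ log 2`.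
Total `≤ X^(7/10)` for large `X`.
-/

namespace Pool.Agent.H2.LP

open Finset Pool.Agent.H67.VS Pool.Agent.H48.OM

/-- the class of main terms -/
def Mc (X : ℕ) (M : ℕ → ℝ) : Prop :=
  MonotoneOn M (Set.Icc X (2 * X)) ∨ AntitoneOn M (Set.Icc X (2 * X)) ∨
    ∑ n ∈ Ico X (2 * X), |M (n + 1) - M n| ≤ (X : ℝ) ^ (2 / 3 : ℝ)

/-- the monotone case -/
theorem mid_mono {X : ℕ} {S : ℝ} (hX : 8 ≤ X) (M : ℕ → ℝ)
    (hM : MonotoneOn M (Set.Icc X (2 * X)))
    (h : ∑ n ∈ Ioc X (2 * X), |M n| ≤ 2 * X * S) (hS : 0 ≤ S) :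
    (∀ n ∈ Icc (Aw X) (Bw X), |M n| ≤ 20 * S) ∧
      ∑ n ∈ Ico (Aw X) (Bw X), |M (n + 1) - M n| ≤ 40 * S := by
  have hXr : (8 : ℝ) ≤ X := by exact_mod_cast hX
  have hb : ∀ n ∈ Icc (Aw X) (Bw X), |M n| ≤ 20 * S := by
    intro n hn
    rw [mem_Icc] at hn
    unfold Aw Bw at hn
    have hup : M n * (X / 8) ≤ 2 * X * S := by
      rcases le_or_gt (M n) 0 with h0 | h0
      · have : M n * (X / 8) ≤ 0 := mul_nonpos_of_nonpos_of_nonneg h0 (by positivity)
        have : (0 : ℝ) ≤ 2 * X * S := by positivity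
        linarith
      · have h1 : ∑ j ∈ Icc n (2 * X), M n ≤ ∑ j ∈ Icc n (2 * X), |M j| := by
          refine sum_le_sum fun j hj => ?_
          rw [mem_Icc] at hj
          refine (hM ⟨by omega, by omega⟩ ⟨by omega, hj.2⟩ hj.1).trans (le_abs_self _)
        have h2 : ∑ j ∈ Icc n (2 * X), |M j| ≤ ∑ j ∈ Ioc X (2 * X), |M j| := by
          refine sum_le_sum_of_subset_of_nonneg ?_ fun _ _ _ => abs_nonneg _
          intro j hj
          rw [mem_Icc] at hj
          rw [mem_Ioc]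
          omega
        rw [sum_const, nsmul_eq_mul, Nat.card_Icc] at h1
        have h3 : (X : ℝ) / 8 ≤ ((2 * X + 1 - n : ℕ) : ℝ) := by
          have h4 : X ≤ 8 * (2 * X + 1 - n) := by omega
          have h5 : (X : ℝ) ≤ 8 * ((2 * X + 1 - n : ℕ) : ℝ) := by exact_mod_cast h4
          linarith
        have h6 : M n * (X / 8) ≤ ((2 * X + 1 - n : ℕ) : ℝ) * M n := by
          rw [mul_comm]
          exact mul_le_mul_of_nonneg_right h3 h0.le
        linarith
    have hlo : -M n * (X / 8) ≤ 2 * X * S := by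
      rcases le_or_gt (-M n) 0 with h0 | h0
      · have : -M n * (X / 8) ≤ 0 := mul_nonpos_of_nonpos_of_nonneg h0 (by positivity)
        have : (0 : ℝ) ≤ 2 * X * S := by positivity
        linarith
      · have h1 : ∑ j ∈ Ioc X n, -M n ≤ ∑ j ∈ Ioc X n, |M j| := by
          refine sum_le_sum fun j hj => ?_
          rw [mem_Ioc] at hj
          have := hM (⟨by omega, by omega⟩ : j ∈ Set.Icc X (2 * X))
            (⟨by omega, by omega⟩ : n ∈ Set.Icc X (2 * X)) hj.2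
          have h9 := neg_abs_le (M j)
          linarith
        have h2 : ∑ j ∈ Ioc X n, |M j| ≤ ∑ j ∈ Ioc X (2 * X), |M j| := by
          refine sum_le_sum_of_subset_of_nonneg ?_ fun _ _ _ => abs_nonneg _
          intro j hj
          rw [mem_Ioc] at hj ⊢
          omega
        rw [sum_const, nsmul_eq_mul, Nat.card_Ioc] at h1
        have h3 : (X : ℝ) / 8 ≤ ((n - X : ℕ) : ℝ) := by
          have h4 : X ≤ 8 * (n - X) := by omega
          have h5 : (X : ℝ) ≤ 8 * ((n - X : ℕ) : ℝ) := by exact_mod_cast h4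
          linarith
        have h6 : -M n * (X / 8) ≤ ((n - X : ℕ) : ℝ) * -M n := by
          rw [mul_comm]
          exact mul_le_mul_of_nonneg_right h3 h0.le
        linarith
    have hX8 : (0 : ℝ) < X / 8 := by positivity
    rw [abs_le]
    constructor
    · have : -M n ≤ 16 * S := by
        by_contra hc
        push Not at hc
        have := mul_lt_mul_of_pos_right hc hX8
        nlinarith
      linarith
    · have : M n ≤ 16 * S := by
        by_contra hc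
        push Not at hc
        have := mul_lt_mul_of_pos_right hc hX8
        nlinarith
      linarith
  refine ⟨hb, ?_⟩
  have hAB : Aw X ≤ Bw X := by
    unfold Aw Bw
    omega
  have h1 : ∑ n ∈ Ico (Aw X) (Bw X), |M (n + 1) - M n| =
      ∑ n ∈ Ico (Aw X) (Bw X), (M (n + 1) - M n) := by
    refine sum_congr rfl fun n hn => ?_
    rw [mem_Ico] at hn
    unfold Aw Bw at hn
    rw [abs_of_nonneg]
    have := hM (⟨by omega, by omega⟩ : n ∈ Set.Icc X (2 * X))
      (⟨by omega, by omega⟩ : n + 1 ∈ Set.Icc X (2 * X)) (by omega)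
    linarith
  rw [h1, Finset.sum_Ico_sub M hAB]
  have hA := hb (Aw X) (mem_Icc.mpr ⟨le_rfl, hAB⟩)
  have hB := hb (Bw X) (mem_Icc.mpr ⟨hAB, le_rfl⟩)
  have h3 := neg_abs_le (M (Aw X))
  have h4 := le_abs_self (M (Bw X))
  linarith

/-- the case of bounded variation -/
theorem mid_bv {X : ℕ} {S T : ℝ} (hX : 8 ≤ X) (M : ℕ → ℝ)
    (hM : ∑ n ∈ Ico X (2 * X), |M (n + 1) - M n| ≤ T)
    (h : ∑ n ∈ Ioc X (2 * X), |M n| ≤ 2 * X * S) :
    (∀ n ∈ Icc (Aw X) (Bw X), |M n| ≤ 2 * S + T) ∧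
      ∑ n ∈ Ico (Aw X) (Bw X), |M (n + 1) - M n| ≤ T := by
  have hXr : (8 : ℝ) ≤ X := by exact_mod_cast hX
  have hdiff : ∀ a b : ℕ, X ≤ a → a ≤ b → b ≤ 2 * X → |M b - M a| ≤ T := by
    intro a b ha hab hb
    rw [← Finset.sum_Ico_sub M hab]
    refine (abs_sum_le_sum_abs _ _).trans (le_trans ?_ hM)
    refine sum_le_sum_of_subset_of_nonneg ?_ fun _ _ _ => abs_nonneg _
    intro j hj
    rw [mem_Ico] at hj ⊢
    omega
  constructor
  · intro n hn
    rw [mem_Icc] at hn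
    unfold Aw Bw at hn
    have h1 : ∑ j ∈ Ioc X (2 * X), |M n| ≤ ∑ j ∈ Ioc X (2 * X), (|M j| + T) := by
      refine sum_le_sum fun j hj => ?_
      rw [mem_Ioc] at hj
      have h2 : |M n - M j| ≤ T := by
        rcases le_total j n with hjn | hjn
        · exact hdiff j n (by omega) hjn (by omega)
        · rw [abs_sub_comm]
          exact hdiff n j (by omega) hjn (by omega)
      have h3 : |M n| ≤ |M j| + |M n - M j| := by
        calc |M n| = |M j + (M n - M j)| := by ring_nf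
          _ ≤ _ := abs_add_le _ _
      linarith
    rw [sum_add_distrib, sum_const, sum_const, nsmul_eq_mul, nsmul_eq_mul, Nat.card_Ioc] at h1
    have h4 : ((2 * X - X : ℕ) : ℝ) = X := by
      have : 2 * X - X = X := by omega
      rw [this]
    rw [h4] at h1
    have h5 : (X : ℝ) * |M n| ≤ X * (2 * S + T) := by linarith
    exact le_of_mul_le_mul_left h5 (by linarith)
  · refine le_trans ?_ hM
    refine sum_le_sum_of_subset_of_nonneg ?_ fun _ _ _ => abs_nonneg _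
    intro j hj
    rw [mem_Ico] at hj ⊢
    unfold Aw Bw at hj
    omega

/-- the product with the logarithm -/
theorem mid_log {X : ℕ} {K : ℝ} (hX : 8 ≤ X) (M : ℕ → ℝ) (hK : 0 ≤ K)
    (h1 : ∀ n ∈ Icc (Aw X) (Bw X), |M n| ≤ K)
    (h2 : ∑ n ∈ Ico (Aw X) (Bw X), |M (n + 1) - M n| ≤ 2 * K) :
    (∀ n ∈ Icc (Aw X) (Bw X), |Real.log n * M n| ≤ 3 * K * Real.log (2 * X)) ∧
      ∑ n ∈ Ico (Aw X) (Bw X), |Real.log ((n + 1 : ℕ) : ℝ) * M (n + 1) - Real.log n * M n| ≤
        3 * K * Real.log (2 * X) := by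
  have hXr : (8 : ℝ) ≤ X := by exact_mod_cast hX
  have hL0 : 0 ≤ Real.log (2 * X) := Real.log_nonneg (by linarith)
  have hlog : ∀ n : ℕ, 1 ≤ n → n ≤ 2 * X → 0 ≤ Real.log n ∧ Real.log n ≤ Real.log (2 * X) := by
    intro n hn hn2
    have h3 : (1 : ℝ) ≤ n := by exact_mod_cast hn
    have h4 : (n : ℝ) ≤ 2 * X := by exact_mod_cast hn2
    exact ⟨Real.log_nonneg h3, Real.log_le_log (by linarith) h4⟩
  constructor
  · intro n hn
    have hn' := mem_Icc.mp hn
    unfold Aw Bw at hn'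
    obtain ⟨h3, h4⟩ := hlog n (by omega) (by omega)
    rw [abs_mul, abs_of_nonneg h3]
    calc Real.log n * |M n| ≤ Real.log (2 * X) * K := mul_le_mul h4 (h1 n hn) (abs_nonneg _) hL0
      _ ≤ 3 * K * Real.log (2 * X) := by nlinarith
  · have hAB : Aw X ≤ Bw X := by
      unfold Aw Bw
      omega
    have h3 : ∀ n ∈ Ico (Aw X) (Bw X),
        |Real.log ((n + 1 : ℕ) : ℝ) * M (n + 1) - Real.log n * M n| ≤
          Real.log (2 * X) * |M (n + 1) - M n| +
            K * (Real.log ((n + 1 : ℕ) : ℝ) - Real.log (n : ℝ)) := by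
      intro n hn
      have hn' := mem_Ico.mp hn
      have hn'' := hn'
      unfold Aw Bw at hn''
      obtain ⟨h5, h6⟩ := hlog (n + 1) (by omega) (by omega)
      have h7 : 0 ≤ Real.log ((n + 1 : ℕ) : ℝ) - Real.log (n : ℝ) := by
        have : Real.log (n : ℝ) ≤ Real.log ((n + 1 : ℕ) : ℝ) := by
          refine Real.log_le_log ?_ (by push_cast; linarith)
          exact_mod_cast (by omega : 0 < n)
        linarith
      have h8 : Real.log ((n + 1 : ℕ) : ℝ) * M (n + 1) - Real.log n * M n =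
          Real.log ((n + 1 : ℕ) : ℝ) * (M (n + 1) - M n) +
            (Real.log ((n + 1 : ℕ) : ℝ) - Real.log (n : ℝ)) * M n := by ring
      rw [h8]
      refine (abs_add_le _ _).trans ?_
      rw [abs_mul, abs_mul, abs_of_nonneg h5, abs_of_nonneg h7]
      have h9 := h1 n (mem_Icc.mpr ⟨hn'.1, hn'.2.le⟩)
      have h10 := mul_le_mul_of_nonneg_right h6 (abs_nonneg (M (n + 1) - M n))
      have h11 := mul_le_mul_of_nonneg_left h9 h7
      linarith
    refine (sum_le_sum h3).trans ?_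
    rw [sum_add_distrib, ← mul_sum, ← mul_sum,
      Finset.sum_Ico_sub (fun n : ℕ => Real.log (n : ℝ)) hAB]
    have h4 : 0 ≤ Real.log (Aw X : ℝ) := (hlog (Aw X) (by unfold Aw; omega) (by
      unfold Aw; omega)).1
    have h5 : Real.log (Bw X : ℝ) ≤ Real.log (2 * X) := (hlog (Bw X) (by unfold Bw; omega) (by
      unfold Bw; omega)).2
    have h6 := mul_le_mul_of_nonneg_left h2 hL0
    have h7 : K * (Real.log (Bw X : ℝ) - Real.log (Aw X : ℝ)) ≤ K * Real.log (2 * X) :=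
      mul_le_mul_of_nonneg_left (by linarith) hK
    linarith

/-- the numbers -/
theorem mid_num : ∃ X₀ : ℕ, ∀ X : ℕ, X₀ ≤ X →
    3 * (21 * (X : ℝ) ^ (2 / 3 : ℝ)) * Real.log (2 * X) ≤ (X : ℝ) ^ (7 / 10 : ℝ) := by
  have h := (isLittleO_log_rpow_atTop (r := (1 / 30 : ℝ)) (by norm_num)).bound
    (c := 1 / 126) (by norm_num)
  have h' : ∀ᶠ x : ℝ in Filter.atTop, Real.log x ≤ 1 / 126 * x ^ (1 / 30 : ℝ) := by
    filter_upwards [h, Filter.eventually_ge_atTop (1 : ℝ)] with x hx hx1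
    rw [Real.norm_of_nonneg (Real.log_nonneg hx1),
      Real.norm_of_nonneg (Real.rpow_nonneg (by linarith) _)] at hx
    exact hx
  have h'' := tendsto_natCast_atTop_atTop.eventually h'
  obtain ⟨X₀, hX₀⟩ := Filter.eventually_atTop.mp h''
  refine ⟨max X₀ 2, fun X hX => ?_⟩
  have h1 := hX₀ X ((le_max_left _ _).trans hX)
  have hX2 : (2 : ℝ) ≤ X := by exact_mod_cast (le_max_right _ _).trans hX
  have h2 : Real.log (2 * X) ≤ 2 * Real.log X := by
    rw [Real.log_mul (by norm_num) (by linarith)]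
    have := Real.log_le_log (by norm_num) hX2
    linarith
  have h3 : (X : ℝ) ^ (7 / 10 : ℝ) = (X : ℝ) ^ (2 / 3 : ℝ) * (X : ℝ) ^ (1 / 30 : ℝ) := by
    rw [← Real.rpow_add (by linarith)]
    norm_num
  rw [h3]
  have h4 : 0 ≤ (X : ℝ) ^ (2 / 3 : ℝ) := Real.rpow_nonneg (by linarith) _
  have h5 : 63 * Real.log (2 * X) ≤ (X : ℝ) ^ (1 / 30 : ℝ) := by linarith
  have h6 := mul_le_mul_of_nonneg_left h5 h4
  linarith

theorem mid (k : ℕ) (hk : 2 ≤ k) : ∃ X₀ : ℕ, ∀ X H : ℕ, Big k X₀ X H → ∀ M : ℕ → ℝ, Mc X M →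
    ∑ n ∈ Ioc X (2 * X), |M n| ≤ 2 * X * H → FV X (fun n => Real.log n * M n) := by
  obtain ⟨X₀, hX₀⟩ := mid_num
  refine ⟨max X₀ 8, fun X H hB M hM hS => ?_⟩
  have hle := hB.le hk (by omega)
  have hH : max X₀ 8 ≤ H := hB.1
  have hX8 : 8 ≤ X := by omega
  have hXr : (8 : ℝ) ≤ X := by exact_mod_cast hX8
  have hH0 : (0 : ℝ) ≤ H := Nat.cast_nonneg _
  have hHX : (H : ℝ) ≤ (X : ℝ) ^ (2 / 3 : ℝ) := by
    refine hB.2.trans (Real.rpow_le_rpow_of_exponent_le (by linarith) ?_)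
    exact (ek_le k).trans (by norm_num)
  have hT0 : 0 ≤ (X : ℝ) ^ (2 / 3 : ℝ) := Real.rpow_nonneg (by linarith) _
  have hK0 : 0 ≤ 20 * (H : ℝ) + (X : ℝ) ^ (2 / 3 : ℝ) := by positivity
  have hnum := hX₀ X (by omega)
  have key : (∀ n ∈ Icc (Aw X) (Bw X), |M n| ≤ 20 * (H : ℝ) + (X : ℝ) ^ (2 / 3 : ℝ)) ∧
      ∑ n ∈ Ico (Aw X) (Bw X), |M (n + 1) - M n| ≤
        2 * (20 * (H : ℝ) + (X : ℝ) ^ (2 / 3 : ℝ)) := by
    rcases hM with hM | hM | hM
    · obtain ⟨h1, h2⟩ := mid_mono hX8 M hM hS hH0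
      exact ⟨fun n hn => (h1 n hn).trans (by linarith), by linarith⟩
    · obtain ⟨h1, h2⟩ := mid_mono (S := (H : ℝ)) hX8 (fun n => -M n) hM.neg (by
        simpa using hS) hH0
      refine ⟨fun n hn => ?_, ?_⟩
      · have := h1 n hn
        rw [abs_neg] at this
        linarith
      · have h3 : ∑ n ∈ Ico (Aw X) (Bw X), |M (n + 1) - M n| =
            ∑ n ∈ Ico (Aw X) (Bw X), |-M (n + 1) - -M n| := by
          refine sum_congr rfl fun n _ => ?_
          rw [← abs_neg]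
          ring_nf
        rw [h3]
        linarith
    · obtain ⟨h1, h2⟩ := mid_bv hX8 M hM hS
      exact ⟨fun n hn => (h1 n hn).trans (by linarith), by linarith⟩
  obtain ⟨h1, h2⟩ := mid_log hX8 M hK0 key.1 key.2
  have hlog0 : 0 ≤ Real.log (2 * X) := Real.log_nonneg (by linarith)
  have h3 : 3 * (20 * (H : ℝ) + (X : ℝ) ^ (2 / 3 : ℝ)) * Real.log (2 * X) ≤
      (X : ℝ) ^ (7 / 10 : ℝ) := by
    refine le_trans ?_ hnum
    refine mul_le_mul_of_nonneg_right ?_ hlog0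
    linarith
  exact ⟨fun n hn => (h1 n hn).trans h3, h2.trans h3⟩

end Pool.Agent.H2.LP
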