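import Pool.Agent.H2.LP.Cor
import Pool.Agent.H2.LP.Mid
import Pool.Agent.H67.VS.FinA

/-!
[H2 LP BLK]  The inequality on the whole block, for the class of main terms.

Notation `S = HL H/log X`, `E n = pi1 n H - M n`, `F = max 0 (σ E)`, `A = Aw X`, `B = Bw X`, `X < A`, `B ≤ 2X`
(large `X`), `c0` the constant of `core`.  `S ≤ HL H ≤ H/20` for large `H`.
Proof.  Put `c = min (1/2) ((c0/20)^(p0 k)) ...` (small enough for the two places below) and suppose the conclusion fails: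
`∑_{Ioc X 2X} F^p0 < c X S^p0`.  Then `∑ F ≤ c^(1/p0) X S` (`pmean` with `r = p0`: if `s X ≤ ∑ F` then `s^p0 X ≤ ∑ F^p0`; `Ioc X (2X)`
has `X` elements), in particular `∑ F ≤ X S`.
(1) `∑ |M| ≤ 2 X H`: `σ ∑ u E ≥ -c X S`, `u ≤ 1`, and `u ≥ log n/log(2X) ≥ 1/2` (large `X`): the negative part
`G = max 0 (-σ E)` satisfies `(1/2) ∑ G ≤ ∑ u G = ∑ u F - σ ∑ u E ≤ ∑ F + c X S ≤ 2 X S`, so `∑ |E| ≤ 5 X S ≤ X H/4`;
`0 ≤ pi1 ≤ H`, so `∑ |M| ≤ X H + X H/4`.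
(2) `mid`: `FV X f` for `f n = log n M n`.
(3) the hypothesis of `core`: `w' n = (log n/log(2X)) 1_{Ioc A B}(n)`, `0 ≤ u - w' ≤ 1`:
`σ ∑ w' E = σ ∑ u E - ∑ (u - w') σ E ≥ -c X S - ∑ F ≥ -(c + c^(1/p0)) X S`; multiply by `log(2X) ≤ 2 log X`:
`σ ∑_{Ioc A B} log n E n ≥ -2 (c + c^(1/p0)) X HL H`; and `|PH H n - log n pi1 n H| ≤ H^2/n ≤ H^2/X ≤ 1` (`VS.PH_near`), so
`σ ∑_{Ioc A B} (PH - f) ≥ -2 (c + c^(1/p0)) X HL H - X ≥ -c0 X HL H` for large `H` if `c, c^(1/p0) ≤ c0/8`.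
(4) `core`: `c0 X (HL H)^p0 ≤ ∑_{Ioc A B} (max 0 (σ (PH - f)))^p0`, and `max 0 (σ (PH - f)) ≤ 2 log X F + 1`, and
`(x+y)^p0 ≤ 2^p0 (x^p0 + y^p0)` (`p0 ≤ 2`): `≤ 4 (4 (log X)^p0 ∑ F^p0 + X)` (`(2 log X)^p0 ≤ 4 (log X)^p0`), so
`∑ F^p0 ≥ ((c0/4) X (HL H)^p0 - X)/(4 (log X)^p0) ≥ (c0/32) X S^p0` for large `H`.  Contradiction if `c ≤ c0/32`.
-/

namespace Pool.Agent.H2.LP

open Finset Pool.Agent.H67.VS Pool.Agent.H48.OM

private theorem blk_add {p x y : ℝ} (hp : 0 < p) (hp2 : p ≤ 2) (hx : 0 ≤ x) (hy : 0 ≤ y) :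
    (x + y) ^ p ≤ 4 * (x ^ p + y ^ p) := by
  have h2 : (2 : ℝ) ^ p ≤ 4 := by
    calc (2 : ℝ) ^ p ≤ 2 ^ (2 : ℝ) := Real.rpow_le_rpow_of_exponent_le (by norm_num) hp2
      _ = 4 := by norm_num
  have hxp : 0 ≤ x ^ p := by positivity
  have hyp : 0 ≤ y ^ p := by positivity
  rcases le_total x y with h | h
  · calc (x + y) ^ p ≤ (2 * y) ^ p := Real.rpow_le_rpow (by positivity) (by linarith) hp.le
      _ = 2 ^ p * y ^ p := Real.mul_rpow (by norm_num) hy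
      _ ≤ 4 * (x ^ p + y ^ p) := by nlinarith
  · calc (x + y) ^ p ≤ (2 * x) ^ p := Real.rpow_le_rpow (by positivity) (by linarith) hp.le
      _ = 2 ^ p * x ^ p := Real.mul_rpow (by norm_num) hx
      _ ≤ 4 * (x ^ p + y ^ p) := by nlinarith

private theorem blk_abs {σ e : ℝ} (hσ : σ = 1 ∨ σ = -1) : |e| = |σ * e| := by
  rcases hσ with h | h
  · rw [h, one_mul]
  · rw [h, neg_one_mul, abs_neg]

private theorem blk_neg {σ : ℝ} (hσ : σ = 1 ∨ σ = -1) (I : Finset ℕ) (E u : ℕ → ℝ) {T S : ℝ}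
    (hu : ∀ n ∈ I, 1 / 2 ≤ u n ∧ u n ≤ 1) (h : -T ≤ σ * ∑ n ∈ I, u n * E n)
    (hF : ∑ n ∈ I, max 0 (σ * E n) ≤ S) : ∑ n ∈ I, |E n| ≤ 3 * S + 2 * T := by
  have h1 : ∀ n ∈ I, |E n| ≤ 3 * max 0 (σ * E n) - 2 * (σ * (u n * E n)) := by
    intro n hn
    obtain ⟨h2, h3⟩ := hu n hn
    rw [blk_abs hσ]
    have h4 : σ * (u n * E n) = u n * (σ * E n) := by ring
    rw [h4]
    obtain ⟨t, ht⟩ : ∃ t : ℝ, t = σ * E n := ⟨_, rfl⟩
    rw [← ht]
    rcases le_total 0 t with h5 | h5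
    · rw [abs_of_nonneg h5, max_eq_right h5]
      nlinarith
    · rw [abs_of_nonpos h5, max_eq_left h5]
      nlinarith
  have h2 := sum_le_sum h1
  rw [sum_sub_distrib, ← mul_sum, ← mul_sum, ← mul_sum] at h2
  linarith

private theorem blk_win {σ : ℝ} (I W : Finset ℕ) (hW : W ⊆ I) (E u v : ℕ → ℝ) {T S : ℝ}
    (hu : ∀ n ∈ I, v n ≤ u n ∧ u n ≤ 1) (hv : ∀ n ∈ I, 0 ≤ v n)
    (h : -T ≤ σ * ∑ n ∈ I, u n * E n) (hF : ∑ n ∈ I, max 0 (σ * E n) ≤ S) :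
    -(T + S) ≤ σ * ∑ n ∈ W, v n * E n := by
  classical
  have h1 : ∀ n ∈ I, σ * (u n * E n) ≤ max 0 (σ * E n) + (if n ∈ W then σ * (v n * E n) else 0) := by
    intro n hn
    obtain ⟨h2, h3⟩ := hu n hn
    have h0 := hv n hn
    have h4 : σ * (u n * E n) = u n * (σ * E n) := by ring
    have h5 : σ * (v n * E n) = v n * (σ * E n) := by ring
    rw [h4, h5]
    obtain ⟨t, ht⟩ : ∃ t : ℝ, t = σ * E n := ⟨_, rfl⟩
    rw [← ht]
    have h6 : t ≤ max 0 t := le_max_right _ _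
    have h7 : 0 ≤ max 0 t := le_max_left _ _
    by_cases hw : n ∈ W
    · rw [if_pos hw]
      nlinarith
    · rw [if_neg hw]
      nlinarith
  have h2 := sum_le_sum h1
  rw [← mul_sum, sum_add_distrib, sum_ite_mem, inter_eq_right.2 hW, ← mul_sum] at h2
  linarith

private theorem blk_p0 (k : ℕ) (hk : 2 ≤ k) : 1 < p0 k ∧ p0 k ≤ 2 := by
  have hk1 : (2 : ℝ) ≤ k := by exact_mod_cast hk
  unfold p0
  constructor
  · rw [lt_div_iff₀ (by linarith)]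
    linarith
  · rw [div_le_iff₀ (by linarith)]
    linarith

private theorem blk_pi (n H : ℕ) : 0 ≤ pi1 n H ∧ pi1 n H ≤ H := by
  unfold pi1
  refine ⟨Nat.cast_nonneg _, ?_⟩
  have h1 : ((Ioc n (n + H)).filter Nat.Prime).card ≤ H := by
    refine (card_filter_le _ _).trans ?_
    rw [Nat.card_Ioc]
    omega
  exact_mod_cast h1

private theorem blk_nums (k : ℕ) (hk : 2 ≤ k) {c0 : ℝ} (hc0 : 0 < c0) :
    ∃ X₀ : ℕ, ∀ X H : ℕ, Big k X₀ X H → (H : ℝ) ≤ X ∧ 1 ≤ (H : ℝ) ∧ (H : ℝ) ^ 2 ≤ X ∧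
      1 ≤ Real.log X ∧ 0 < Real.log (2 * X) ∧ Real.log (2 * X) ≤ 2 * Real.log X ∧
      1 ≤ HL H ∧ 8 ≤ c0 * HL H ∧ HL H / Real.log X ≤ H / 20 := by
  refine ⟨400 + ⌈(8 / c0) ^ 2⌉₊, fun X H hB => ?_⟩
  have hHX : H ≤ X := hB.le hk (by omega)
  have hH400n : 400 ≤ H := le_trans (by omega) hB.1
  have hH400 : (400 : ℝ) ≤ H := by exact_mod_cast hH400n
  have hHX' : (H : ℝ) ≤ X := by exact_mod_cast hHX
  have hH0 : (0 : ℝ) < H := by linarith
  have hX0 : (0 : ℝ) < X := by linarith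
  have hHc : (8 / c0) ^ 2 ≤ H := by
    refine (Nat.le_ceil _).trans ?_
    exact_mod_cast le_trans (by omega) hB.1
  have hH2X : (H : ℝ) ^ 2 ≤ X := by
    have hX1 : (1 : ℝ) ≤ X := by linarith
    have h1 : (H : ℝ) ≤ (X : ℝ) ^ (1 / 20 : ℝ) :=
      hB.2.trans (Real.rpow_le_rpow_of_exponent_le hX1 (ek_le k))
    calc (H : ℝ) ^ 2 ≤ ((X : ℝ) ^ (1 / 20 : ℝ)) ^ 2 := pow_le_pow_left₀ hH0.le h1 2
      _ = (X : ℝ) ^ (1 / 10 : ℝ) := by
          rw [← Real.rpow_natCast, ← Real.rpow_mul hX0.le]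
          norm_num
      _ ≤ (X : ℝ) ^ (1 : ℝ) := Real.rpow_le_rpow_of_exponent_le hX1 (by norm_num)
      _ = X := Real.rpow_one _
  clear hB hHX hH400n
  have hlH : 1 ≤ Real.log H := by
    rw [Real.le_log_iff_exp_le hH0]
    have := Real.exp_one_lt_d9
    linarith
  have hlHX : Real.log H ≤ Real.log X := Real.log_le_log hH0 hHX'
  have hL2e : Real.log (2 * X) = Real.log 2 + Real.log X := Real.log_mul (by norm_num) hX0.ne'
  have hlog2 : Real.log 2 ≤ 1 := by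
    have := Real.log_two_lt_d9
    linarith
  have hlog20 : 0 ≤ Real.log 2 := Real.log_nonneg (by norm_num)
  have hsH : √(H : ℝ) ≤ HL H := by
    unfold HL
    exact Real.sqrt_le_sqrt (le_mul_of_one_le_right hH0.le hlH)
  have hs20 : 20 ≤ √(H : ℝ) := by
    rw [Real.le_sqrt (by norm_num) hH0.le]
    linarith
  have hss : √(H : ℝ) * √(H : ℝ) = H := Real.mul_self_sqrt hH0.le
  have hyc : 8 / c0 ≤ HL H := by
    refine le_trans ?_ hsH
    exact Real.le_sqrt_of_sq_le hHc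
  refine ⟨hHX', by linarith, hH2X, by linarith, by linarith, by linarith, by linarith, ?_, ?_⟩
  · rw [div_le_iff₀ hc0] at hyc
    linarith
  · rw [div_le_iff₀ (by linarith)]
    have h1 : HL H ≤ √(H : ℝ) * Real.log X := by
      unfold HL
      rw [Real.sqrt_mul hH0.le]
      refine mul_le_mul_of_nonneg_left ?_ (Real.sqrt_nonneg _)
      refine le_trans (Real.sqrt_le_sqrt hlHX) ?_
      rw [Real.sqrt_le_left (by linarith)]
      exact le_self_pow₀ (by linarith) (by norm_num)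
    refine h1.trans (mul_le_mul_of_nonneg_right ?_ (by linarith))
    calc √(H : ℝ) = 20 * √(H : ℝ) / 20 := by ring
      _ ≤ √(H : ℝ) * √(H : ℝ) / 20 := by gcongr
      _ = H / 20 := by rw [hss]

/-- steps B, C -/
private theorem blk_C {σ : ℝ} (hσ : σ = 1 ∨ σ = -1) {X H : ℕ} {c q S : ℝ} (hc0 : 0 ≤ c) (hc3 : c ≤ 1)
    (hq1 : q ≤ 1) (hS0 : 0 ≤ S) (hSH : S ≤ H / 20)
    (I : Finset ℕ) (hI : I.card = X) (M u : ℕ → ℝ) (huh : ∀ n ∈ I, 1 / 2 ≤ u n ∧ u n ≤ 1)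
    (hyp : -(c * X * S) ≤ σ * ∑ n ∈ I, u n * (pi1 n H - M n))
    (hF : ∑ n ∈ I, max 0 (σ * (pi1 n H - M n)) ≤ q * S * X) :
    ∑ n ∈ I, |M n| ≤ 2 * X * H := by
  have hX0 : (0 : ℝ) ≤ X := Nat.cast_nonneg _
  have hEs := blk_neg hσ I (fun n => pi1 n H - M n) u huh hyp hF
  have hXS0 : 0 ≤ X * S := by positivity
  have hEs' : ∑ n ∈ I, |pi1 n H - M n| ≤ X * H / 4 := by
    have h1 : q * S * X ≤ X * S := by
      calc q * S * X = q * (X * S) := by ring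
        _ ≤ 1 * (X * S) := mul_le_mul_of_nonneg_right hq1 hXS0
        _ = X * S := one_mul _
    have h2 : c * X * S ≤ X * S := by
      calc c * X * S = c * (X * S) := by ring
        _ ≤ 1 * (X * S) := mul_le_mul_of_nonneg_right hc3 hXS0
        _ = X * S := one_mul _
    have h3 : X * S ≤ X * (H / 20) := mul_le_mul_of_nonneg_left hSH hX0
    linarith
  have h1 : ∀ n ∈ I, |M n| ≤ H + |pi1 n H - M n| := by
    intro n _
    have h2 : M n = pi1 n H - (pi1 n H - M n) := by ring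
    obtain ⟨h3, h4⟩ := blk_pi n H
    nth_rewrite 1 [h2]
    refine (abs_sub _ _).trans ?_
    rw [abs_of_nonneg h3]
    linarith
  have h2 := sum_le_sum h1
  rw [sum_add_distrib, sum_const, hI, nsmul_eq_mul] at h2
  have h3 : 0 ≤ (X : ℝ) * H := by positivity
  linarith

/-- step E -/
private theorem blk_E {σ : ℝ} {X : ℕ} {c q S l L2 y : ℝ} (hc0 : 0 ≤ c) (hq0 : 0 ≤ q) (hS0 : 0 ≤ S)
    (hL0 : 0 < L2) (hL2 : L2 ≤ 2 * l) (hSl : S * l = y)
    (I W : Finset ℕ) (hWI : W ⊆ I) (E u : ℕ → ℝ) (hl : ∀ n ∈ I, 0 ≤ Real.log n)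
    (hu : ∀ n ∈ I, Real.log n / L2 ≤ u n ∧ u n ≤ 1)
    (hyp : -(c * X * S) ≤ σ * ∑ n ∈ I, u n * E n)
    (hF : ∑ n ∈ I, max 0 (σ * E n) ≤ q * S * X) :
    -(2 * (c + q) * (X * y)) ≤ σ * ∑ n ∈ W, Real.log n * E n := by
  have hwin := blk_win I W hWI E u (fun n => Real.log n / L2) hu (fun n hn => div_nonneg (hl n hn) hL0.le) hyp hF
  have h1 : σ * ∑ n ∈ W, Real.log n * E n = L2 * (σ * ∑ n ∈ W, Real.log n / L2 * E n) := by
    rw [mul_left_comm, mul_sum (s := W) (a := L2)]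
    congr 1
    refine sum_congr rfl fun n _ => ?_
    field_simp
  rw [h1]
  calc -(2 * (c + q) * (X * y)) = 2 * l * (-(c * X * S + q * S * X)) := by
        rw [← hSl]
        ring
    _ ≤ L2 * (-(c * X * S + q * S * X)) := by
        have h2 : 0 ≤ c * X * S + q * S * X := by positivity
        rw [mul_neg, mul_neg]
        exact neg_le_neg (mul_le_mul_of_nonneg_right hL2 h2)
    _ ≤ _ := mul_le_mul_of_nonneg_left hwin hL0.le

/-- step F -/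
private theorem blk_F {σ : ℝ} (hσ : σ = 1 ∨ σ = -1) {X : ℕ} {c0 c q y : ℝ} (hcq : 2 * (c + q) ≤ c0 / 2)
    (hyc : 8 ≤ c0 * y) (hy : 0 ≤ y) (W : Finset ℕ) (hW : (W.card : ℝ) ≤ X) (D G : ℕ → ℝ)
    (hD : ∀ n ∈ W, |D n| ≤ 1) (hG : -(2 * (c + q) * (X * y)) ≤ σ * ∑ n ∈ W, G n) :
    -(c0 * X * y) ≤ σ * ∑ n ∈ W, (D n + G n) := by
  have hX0 : (0 : ℝ) ≤ X := Nat.cast_nonneg _
  rw [sum_add_distrib, mul_add]
  have h1 : |σ * ∑ n ∈ W, D n| ≤ X := by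
    rw [← blk_abs hσ]
    calc |∑ n ∈ W, D n| ≤ ∑ n ∈ W, |D n| := abs_sum_le_sum_abs _ _
      _ ≤ ∑ n ∈ W, (1 : ℝ) := sum_le_sum hD
      _ ≤ X := by
          rw [sum_const, nsmul_eq_mul, mul_one]
          exact hW
  have h2 := (abs_le.1 h1).1
  have hXy0 : 0 ≤ X * y := by positivity
  have h3 : 2 * (c + q) * (X * y) ≤ c0 / 2 * (X * y) := mul_le_mul_of_nonneg_right hcq hXy0
  have h4 : X ≤ c0 / 2 * (X * y) := by
    have h5 : 8 * X ≤ c0 * y * X := mul_le_mul_of_nonneg_right hyc hX0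
    have h6 : c0 / 2 * (X * y) = c0 * y * X / 2 := by ring
    rw [h6]
    linarith
  have h5 : c0 * X * y = c0 / 2 * (X * y) + c0 / 2 * (X * y) := by ring
  linarith

/-- step H, pointwise -/
private theorem blk_H {σ p l t D E : ℝ} (hσ : σ = 1 ∨ σ = -1) (hp : 0 < p) (hp2 : p ≤ 2) (ht0 : 0 ≤ t)
    (ht : t ≤ 2 * l) (hl : 0 ≤ l) (hD : |D| ≤ 1) :
    (max 0 (σ * (D + t * E))) ^ p ≤ 16 * l ^ p * (max 0 (σ * E)) ^ p + 4 := by
  have hF0 : 0 ≤ max 0 (σ * E) := le_max_left _ _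
  have h3 : max 0 (σ * (D + t * E)) ≤ 2 * l * max 0 (σ * E) + 1 := by
    refine max_le (by positivity) ?_
    rw [mul_add]
    have h4 : σ * D ≤ 1 := by
      refine (le_abs_self _).trans ?_
      rw [← blk_abs hσ]
      exact hD
    have h5 : σ * (t * E) = t * (σ * E) := by ring
    have h6 : t * (σ * E) ≤ 2 * l * max 0 (σ * E) := by
      calc t * (σ * E) ≤ t * max 0 (σ * E) := mul_le_mul_of_nonneg_left (le_max_right _ _) ht0
        _ ≤ 2 * l * max 0 (σ * E) := mul_le_mul_of_nonneg_right ht hF0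
    rw [h5]
    linarith
  calc (max 0 (σ * (D + t * E))) ^ p ≤ (2 * l * max 0 (σ * E) + 1) ^ p :=
        Real.rpow_le_rpow (le_max_left _ _) h3 hp.le
    _ ≤ 4 * ((2 * l * max 0 (σ * E)) ^ p + 1 ^ p) := blk_add hp hp2 (by positivity) (by norm_num)
    _ = 4 * (2 ^ p * l ^ p * (max 0 (σ * E)) ^ p + 1) := by
        rw [Real.one_rpow, Real.mul_rpow (by positivity) hF0, Real.mul_rpow (by norm_num) hl]
    _ ≤ 4 * (4 * l ^ p * (max 0 (σ * E)) ^ p + 1) := by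
        have h7 : (2 : ℝ) ^ p ≤ 4 := by
          calc (2 : ℝ) ^ p ≤ 2 ^ (2 : ℝ) := Real.rpow_le_rpow_of_exponent_le (by norm_num) hp2
            _ = 4 := by norm_num
        gcongr
    _ = 16 * l ^ p * (max 0 (σ * E)) ^ p + 4 := by ring

/-- step I -/
private theorem blk_I {p c0 c x l S y Z : ℝ} (hp : 1 ≤ p) (hx : 0 ≤ x) (hl : 0 < l) (hS : 0 < S)
    (hy1 : 1 ≤ y) (hSl : S * l = y) (hc0 : 0 < c0) (hc1 : c ≤ c0 / 32) (hyc : 8 ≤ c0 * y)
    (hcon : Z < c * x * S ^ p) (h : c0 * x * y ^ p ≤ 16 * l ^ p * Z + 4 * x) : False := by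
  have hSp : l ^ p * S ^ p = y ^ p := by
    rw [← Real.mul_rpow hl.le hS.le, mul_comm l S, hSl]
  have hyp1 : y ≤ y ^ p := by
    calc y = y ^ (1 : ℝ) := (Real.rpow_one _).symm
      _ ≤ y ^ p := Real.rpow_le_rpow_of_exponent_le hy1 hp
  have hlp : 0 < l ^ p := by positivity
  have hyp0 : 0 ≤ y ^ p := by positivity
  have h1 : 16 * l ^ p * Z < c0 / 2 * (x * y ^ p) := by
    calc 16 * l ^ p * Z < 16 * l ^ p * (c * x * S ^ p) := mul_lt_mul_of_pos_left hcon (by positivity)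
      _ = 16 * c * (x * (l ^ p * S ^ p)) := by ring
      _ = 16 * c * (x * y ^ p) := by rw [hSp]
      _ ≤ c0 / 2 * (x * y ^ p) := by
          refine mul_le_mul_of_nonneg_right ?_ (by positivity)
          linarith
  have h2 : 4 * x ≤ c0 / 2 * (x * y ^ p) := by
    have h3 : 8 ≤ c0 * y ^ p := hyc.trans (mul_le_mul_of_nonneg_left hyp1 hc0.le)
    have h4 : 8 * x ≤ c0 * y ^ p * x := mul_le_mul_of_nonneg_right h3 hx
    have h5 : c0 / 2 * (x * y ^ p) = c0 * y ^ p * x / 2 := by ring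
    rw [h5]
    linarith
  have h3 : c0 * x * y ^ p = c0 / 2 * (x * y ^ p) + c0 / 2 * (x * y ^ p) := by ring
  linarith

private theorem blk_c {c0 p : ℝ} (hc0 : 0 < c0) (hp0 : 0 < p) : ∃ c q : ℝ, 0 < c ∧ c ≤ c0 / 32 ∧ c ≤ 1 ∧
    0 < q ∧ q ≤ 1 ∧ q ≤ c0 / 8 ∧ q ^ p = c := by
  obtain ⟨c, hc⟩ : ∃ c : ℝ, c = min (c0 / 32) (min ((c0 / 8) ^ p) 1) := ⟨_, rfl⟩
  have hcpos : 0 < c := by
    rw [hc]
    exact lt_min (by positivity) (lt_min (by positivity) one_pos)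
  have hc1 : c ≤ c0 / 32 := by rw [hc]; exact min_le_left _ _
  have hc2 : c ≤ (c0 / 8) ^ p := by rw [hc]; exact (min_le_right _ _).trans (min_le_left _ _)
  have hc3 : c ≤ 1 := by rw [hc]; exact (min_le_right _ _).trans (min_le_right _ _)
  refine ⟨c, c ^ (1 / p), hcpos, hc1, hc3, by positivity,
    Real.rpow_le_one hcpos.le hc3 (by positivity), ?_, ?_⟩
  · calc c ^ (1 / p) ≤ ((c0 / 8) ^ p) ^ (1 / p) := Real.rpow_le_rpow hcpos.le hc2 (by positivity)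
      _ = c0 / 8 := by
          rw [← Real.rpow_mul (by positivity), mul_one_div_cancel hp0.ne', Real.rpow_one]
  · rw [← Real.rpow_mul hcpos.le, one_div_mul_cancel hp0.ne', Real.rpow_one]

theorem block (k : ℕ) (hk : 2 ≤ k) : ∃ c : ℝ, 0 < c ∧ ∃ X₀ : ℕ, ∀ X H : ℕ, Big k X₀ X H →
    ∀ M : ℕ → ℝ, Mc X M → ∀ σ : ℝ, σ = 1 ∨ σ = -1 → ∀ u : ℕ → ℝ,
    (∀ n ∈ Ioc X (2 * X), Real.log n / Real.log (2 * X) ≤ u n ∧ u n ≤ 1) →
    -(c * X * (HL H / Real.log X)) ≤ σ * ∑ n ∈ Ioc X (2 * X), u n * (pi1 n H - M n) →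
    c * X * (HL H / Real.log X) ^ p0 k ≤
      ∑ n ∈ Ioc X (2 * X), (max 0 (σ * (pi1 n H - M n))) ^ p0 k := by
  obtain ⟨c0, hc0, X1, hcore⟩ := core k hk
  obtain ⟨X2, hmid⟩ := mid k hk
  obtain ⟨X3, hnum⟩ := blk_nums k hk hc0
  obtain ⟨hp1, hp2⟩ := blk_p0 k hk
  have hp0 : 0 < p0 k := by linarith
  obtain ⟨c, q, hcpos, hc1, hc3, hq0, hq1, hq2, hqp⟩ := blk_c hc0 hp0
  refine ⟨c, hcpos, X1 + X2 + X3, fun X H hB M hM σ hσ u hu hyp => ?_⟩
  obtain ⟨hHX, hH1, hH2X, hl1, hL20, hL2u, hy1, hyc, hSH⟩ := hnum X H (hB.mono (by omega))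
  clear hnum
  have hX0 : (0 : ℝ) < X := by linarith
  have hl0 : 0 < Real.log X := by linarith
  obtain ⟨S, hS⟩ : ∃ S : ℝ, S = HL H / Real.log X := ⟨_, rfl⟩
  have hSl : S * Real.log X = HL H := by rw [hS]; field_simp
  rw [← hS] at hyp hSH ⊢
  have hS0 : 0 < S := by rw [hS]; exact div_pos (by linarith) hl0
  by_contra hcon
  rw [not_le] at hcon
  have hcardI : (Ioc X (2 * X)).card = X := by
    rw [Nat.card_Ioc]
    omega
  have hWI : Ioc (Aw X) (Bw X) ⊆ Ioc X (2 * X) := by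
    intro n hn
    rw [mem_Ioc] at hn ⊢
    unfold Aw Bw at hn
    omega
  have hcardW : ((Ioc (Aw X) (Bw X)).card : ℝ) ≤ X := by
    have h1 := card_le_card hWI
    rw [hcardI] at h1
    exact_mod_cast h1
  -- step A
  have hF : ∑ n ∈ Ioc X (2 * X), max 0 (σ * (pi1 n H - M n)) ≤ q * S * X := by
    by_contra h1
    rw [not_le] at h1
    have h2 := pmean (p0 k) (q * S) hp1.le (Ioc X (2 * X)) (fun n => max 0 (σ * (pi1 n H - M n)))
      (fun n _ => le_max_left _ _) (by positivity) (by rw [hcardI]; exact h1.le)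
    rw [hcardI, Real.mul_rpow hq0.le hS0.le, hqp] at h2
    have h3 : c * S ^ p0 k * X = c * X * S ^ p0 k := by ring
    rw [h3] at h2
    exact absurd hcon (not_lt.2 h2)
  have hu2 : ∀ n ∈ Ioc X (2 * X), Real.log X ≤ Real.log n ∧ Real.log n ≤ Real.log (2 * X) := by
    intro n hn
    rw [mem_Ioc] at hn
    have h1 : (X : ℝ) ≤ n := by exact_mod_cast hn.1.le
    have h2 : (n : ℝ) ≤ 2 * X := by exact_mod_cast hn.2
    exact ⟨Real.log_le_log hX0 h1, Real.log_le_log (lt_of_lt_of_le hX0 h1) h2⟩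
  have huh : ∀ n ∈ Ioc X (2 * X), 1 / 2 ≤ u n ∧ u n ≤ 1 := by
    intro n hn
    refine ⟨le_trans ?_ (hu n hn).1, (hu n hn).2⟩
    rw [div_le_div_iff₀ (by norm_num) hL20, one_mul]
    refine hL2u.trans ?_
    rw [mul_comm]
    exact mul_le_mul_of_nonneg_right (hu2 n hn).1 (by norm_num)
  have hMs := blk_C hσ hcpos.le hc3 hq1 hS0.le hSH (Ioc X (2 * X)) hcardI M u huh hyp hF
  have hFV := hmid X H (hB.mono (by omega)) M hM hMs
  have hwin2 := blk_E hcpos.le hq0.le hS0.le hL20 hL2u hSl (Ioc X (2 * X)) (Ioc (Aw X) (Bw X)) hWI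
    (fun n => pi1 n H - M n) u (fun n hn => hl0.le.trans (hu2 n hn).1) hu hyp hF
  have hnear : ∀ n ∈ Ioc (Aw X) (Bw X), |PH H n - Real.log n * pi1 n H| ≤ 1 := by
    intro n hn
    have hn1 := (mem_Ioc.1 (hWI hn)).1
    have h1 := PH_near H n (by omega)
    have hnX : (X : ℝ) ≤ n := by exact_mod_cast hn1.le
    have h2 : (H : ℝ) ^ 2 / n ≤ 1 := by
      rw [div_le_one (lt_of_lt_of_le hX0 hnX)]
      exact hH2X.trans hnX
    exact h1.trans h2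
  have hsplit : ∀ n, PH H n - Real.log n * M n =
      (PH H n - Real.log n * pi1 n H) + Real.log n * (pi1 n H - M n) := by
    intro n
    ring
  have hcyp := blk_F hσ (by linarith) hyc (by linarith) (Ioc (Aw X) (Bw X)) hcardW
    (fun n => PH H n - Real.log n * pi1 n H) (fun n => Real.log n * (pi1 n H - M n)) hnear hwin2
  simp only [← hsplit] at hcyp
  have hlow := hcore X H (hB.mono (by omega)) (fun n => Real.log n * M n) hFV σ hσ hcyp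
  have hup2 : ∑ n ∈ Ioc (Aw X) (Bw X), (max 0 (σ * (PH H n - Real.log n * M n))) ^ p0 k ≤
      16 * Real.log X ^ p0 k * ∑ n ∈ Ioc X (2 * X), (max 0 (σ * (pi1 n H - M n))) ^ p0 k + 4 * X := by
    have hup : ∀ n ∈ Ioc (Aw X) (Bw X), (max 0 (σ * (PH H n - Real.log n * M n))) ^ p0 k ≤
        16 * Real.log X ^ p0 k * (max 0 (σ * (pi1 n H - M n))) ^ p0 k + 4 := by
      intro n hn
      obtain ⟨h1, h2⟩ := hu2 n (hWI hn)
      rw [hsplit n]
      exact blk_H hσ hp0 hp2 (hl0.le.trans h1) (h2.trans hL2u) hl0.le (hnear n hn)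
    refine (sum_le_sum hup).trans ?_
    rw [sum_add_distrib, ← mul_sum, sum_const, nsmul_eq_mul, mul_comm _ (4 : ℝ)]
    refine add_le_add ?_ (mul_le_mul_of_nonneg_left hcardW (by norm_num))
    refine mul_le_mul_of_nonneg_left ?_ (by positivity)
    exact sum_le_sum_of_subset_of_nonneg hWI fun n _ _ => Real.rpow_nonneg (le_max_left _ _) _
  exact blk_I hp1.le hX0.le hl0 hS0 hy1 hSl hc0 hc1 hyc hcon (hlow.trans hup2)

end Pool.Agent.H2.LP
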