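import Pool.Agent.H2.LP.Defs

/-!
[H2 LP HOL]  Hoelder's inequality in the form needed.

Proof.  `Real.inner_le_Lp_mul_Lq` (exponents `p0 = k/(k-1)` and `k`, `Real.HolderConjugate`/`Real.IsConjExponent`):
`N ≤ ∑ F W ≤ (∑ F^p0)^(1/p0) (∑ W^k)^(1/k)`; raise to the power `p0`: `N^p0 ≤ (∑ F^p0) (∑ W^k)^(p0/k)`,
`p0/k = 1/(k-1)`, `∑ W^k ≤ D`.  (`k` real exponent versus natural exponent: `Real.rpow_natCast`.)
-/

namespace Pool.Agent.H2.LP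

open Finset

theorem hol (k : ℕ) (hk : 2 ≤ k) (I : Finset ℕ) (F W : ℕ → ℝ) (hF : ∀ n ∈ I, 0 ≤ F n)
    (hW : ∀ n ∈ I, 0 ≤ W n) (N D : ℝ) (hN : 0 ≤ N) (h1 : N ≤ ∑ n ∈ I, F n * W n)
    (h2 : ∑ n ∈ I, W n ^ k ≤ D) :
    N ^ p0 k ≤ (∑ n ∈ I, F n ^ p0 k) * D ^ (1 / ((k : ℝ) - 1)) := by
  have hk2 : (2 : ℝ) ≤ k := by exact_mod_cast hk
  have hk0 : (k : ℝ) ≠ 0 := by positivity
  have hk1 : (k : ℝ) - 1 ≠ 0 := by linarith
  have hp : 1 < p0 k := by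
    unfold p0
    rw [lt_div_iff₀ (by linarith)]
    linarith
  have hp0 : 0 < p0 k := by linarith
  have hc : (p0 k).HolderConjugate (k : ℝ) := by
    rw [Real.holderConjugate_iff]
    refine ⟨hp, ?_⟩
    unfold p0
    field_simp
    ring
  have h3 := Real.inner_le_Lp_mul_Lq_of_nonneg I hc hF hW
  have h4 : ∑ n ∈ I, W n ^ (k : ℝ) = ∑ n ∈ I, W n ^ k :=
    sum_congr rfl fun n _ => Real.rpow_natCast _ _
  have hWs : 0 ≤ ∑ n ∈ I, W n ^ k := sum_nonneg fun n hn => pow_nonneg (hW n hn) _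
  have hFs : 0 ≤ ∑ n ∈ I, F n ^ p0 k := sum_nonneg fun n hn => Real.rpow_nonneg (hF n hn) _
  rw [h4] at h3
  have h5 : N ^ p0 k ≤
      ((∑ n ∈ I, F n ^ p0 k) ^ (1 / p0 k) * (∑ n ∈ I, W n ^ k) ^ (1 / (k : ℝ))) ^ p0 k :=
    Real.rpow_le_rpow hN (h1.trans h3) hp0.le
  rw [Real.mul_rpow (Real.rpow_nonneg hFs _) (Real.rpow_nonneg hWs _), ← Real.rpow_mul hFs,
    ← Real.rpow_mul hWs, one_div_mul_cancel hp0.ne', Real.rpow_one] at h5
  have h6 : 1 / (k : ℝ) * p0 k = 1 / ((k : ℝ) - 1) := by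
    unfold p0
    field_simp
  rw [h6] at h5
  refine h5.trans (mul_le_mul_of_nonneg_left ?_ hFs)
  exact Real.rpow_le_rpow hWs h2 (by
    apply one_div_nonneg.mpr
    linarith)

/-- Jensen / power mean: a lower bound of the first moment gives one of the `r`-th moment -/
theorem pmean (r s : ℝ) (hr : 1 ≤ r) (I : Finset ℕ) (F : ℕ → ℝ) (hF : ∀ n ∈ I, 0 ≤ F n)
    (hs : 0 ≤ s) (h : s * I.card ≤ ∑ n ∈ I, F n) :
    s ^ r * I.card ≤ ∑ n ∈ I, F n ^ r := by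
  rcases Finset.eq_empty_or_nonempty I with hI | hI
  · simp [hI]
  have hc : (0 : ℝ) < (I.card : ℝ) := by exact_mod_cast hI.card_pos
  have h3 := Real.rpow_sum_le_const_mul_sum_rpow_of_nonneg I hr hF
  have h4 : (s * I.card) ^ r ≤ (∑ n ∈ I, F n) ^ r :=
    Real.rpow_le_rpow (by positivity) h (by linarith)
  have h5 := h4.trans h3
  rw [Real.mul_rpow hs hc.le] at h5
  have h6 : (I.card : ℝ) ^ r = (I.card : ℝ) ^ (r - 1) * I.card := by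
    rw [Real.rpow_sub_one hc.ne', div_mul_cancel₀ _ hc.ne']
  rw [h6] at h5
  have h7 : 0 < (I.card : ℝ) ^ (r - 1) := Real.rpow_pos_of_pos hc _
  have h8 : (I.card : ℝ) ^ (r - 1) * (s ^ r * I.card) ≤
      (I.card : ℝ) ^ (r - 1) * ∑ n ∈ I, F n ^ r := by
    calc _ = s ^ r * ((I.card : ℝ) ^ (r - 1) * I.card) := by ring
      _ ≤ _ := h5
  exact le_of_mul_le_mul_left h8 h7

/-- from the exponent `r` to a larger exponent `p` -/
theorem pmean2 (r p s : ℝ) (hr : 0 < r) (hrp : r ≤ p) (I : Finset ℕ) (F : ℕ → ℝ)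
    (hF : ∀ n ∈ I, 0 ≤ F n) (hs : 0 ≤ s) (h : s ^ r * I.card ≤ ∑ n ∈ I, F n ^ r) :
    s ^ p * I.card ≤ ∑ n ∈ I, F n ^ p := by
  have h1 := pmean (p / r) (s ^ r) ((one_le_div hr).mpr hrp) I (fun n => F n ^ r)
    (fun n hn => Real.rpow_nonneg (hF n hn) _) (Real.rpow_nonneg hs _) h
  have h2 : r * (p / r) = p := by field_simp
  rw [← Real.rpow_mul hs, h2] at h1
  refine h1.trans (le_of_eq (sum_congr rfl fun n hn => ?_))
  rw [← Real.rpow_mul (hF n hn), h2]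

end Pool.Agent.H2.LP
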