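import Pool.Agent.H2.LP.Egg
import Pool.Agent.H2.LP.Hol
import Pool.Agent.H67.VS.Sel

/-!
[H2 LP COR]  The core inequality.

Notation `A = Aw X`, `B = Bw X`, sums over `x ∈ Ioc A B`, `E = PH - f`, `F = max 0 (σ E)`, `h = H`, `l = log H`, `v = h/l`
(`v ≥ 1` for large `H`), `a = √v`, `g = gk k X H ρ` with `ρ` from `sw_exists` (`Pool/Agent/H67/VS/Sel.lean`,
`2 ≤ L` by `lk_k`), `W = (g + σ a)^2 ≥ 0`.  `HL H = √(h l)`; `a h = v √(h l) = h^(3/2)/√l`.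
Proof.  `∑ F W ≥ ∑ σ E W = σ ∑ E g^2 + 2 a ∑ E g + a^2 σ ∑ E` (`σ^2 = 1`).  By `eg2`
`σ ∑ E g^2 ≥ V2 σ ∑ E - 2 X h^(149/100)`, by `eg1` `∑ E g ≥ h X/300`, and `σ ∑ E ≥ -c X √(h l)`, `V2 + a^2 ≤ (C+1) v`:
`∑ F W ≥ a h X/150 - 2 X h^(149/100) - (C+1) v c X √(h l) = X v √(h l) (1/150 - (C+1) c) - 2 X h^(149/100)`.
With `c ≤ 1/(600 (C+1))` and `h^(149/100) ≤ v √(h l)/1200` for large `H` (`v √(h l) = h^(3/2)/√l`):
`∑ F W ≥ N := X v √(h l)/300`.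
`W^k = (g + σ a)^(2k) ≤ 2^(2k) (g^(2k) + a^(2k))`, `a^(2k) = v^k`, at most `X` terms: by `gmom`
`∑ W^k ≤ D := C' X v^k`, `C' = 4^k (C_1 + 1)`.
`hol`: `N^p0 ≤ (∑ F^p0) (C' X v^k)^(1/(k-1)) = (∑ F^p0) C'^(1/(k-1)) X^(1/(k-1)) v^p0` and
`N^p0 = 300^(-p0) X^p0 v^p0 (HL H)^p0`, `p0 - 1/(k-1) = 1`; so `∑ F^p0 ≥ c' X (HL H)^p0`,
`c' = 300^(-p0) C'^(-1/(k-1))`.  Take `c = min (1/(600 (C+1))) c'`.
-/

namespace Pool.Agent.H2.LP

open Finset Pool.Agent.H67.VS Pool.Agent.H48.OM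

private theorem cor_pt {σ e g a : ℝ} (hσ : σ = 1 ∨ σ = -1) :
    σ * (e * g ^ 2) + 2 * a * (e * g) + a ^ 2 * (σ * e) ≤ max 0 (σ * e) * (g + σ * a) ^ 2 := by
  have h1 : σ * e ≤ max 0 (σ * e) := le_max_right _ _
  have h2 : σ * e * (g + σ * a) ^ 2 ≤ max 0 (σ * e) * (g + σ * a) ^ 2 :=
    mul_le_mul_of_nonneg_right h1 (sq_nonneg _)
  have h3 : σ * e * (g + σ * a) ^ 2 = σ * (e * g ^ 2) + 2 * a * (e * g) + a ^ 2 * (σ * e) := by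
    rcases hσ with h | h <;> rw [h] <;> ring
  linarith

private theorem cor_sum {σ : ℝ} (a : ℝ) (hσ : σ = 1 ∨ σ = -1) (I : Finset ℕ) (E g : ℕ → ℝ) :
    σ * (∑ n ∈ I, E n * g n ^ 2) + 2 * a * (∑ n ∈ I, E n * g n) + a ^ 2 * (σ * ∑ n ∈ I, E n) ≤
      ∑ n ∈ I, max 0 (σ * E n) * (g n + σ * a) ^ 2 := by
  have h : σ * (∑ n ∈ I, E n * g n ^ 2) + 2 * a * (∑ n ∈ I, E n * g n) + a ^ 2 * (σ * ∑ n ∈ I, E n) =
      ∑ n ∈ I, (σ * (E n * g n ^ 2) + 2 * a * (E n * g n) + a ^ 2 * (σ * E n)) := by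
    rw [sum_add_distrib, sum_add_distrib, ← mul_sum, ← mul_sum, ← mul_sum, ← mul_sum]
  rw [h]
  exact sum_le_sum fun n _ => cor_pt hσ

private theorem cor_pow {σ g a : ℝ} (hσ : σ = 1 ∨ σ = -1) (k : ℕ) :
    ((g + σ * a) ^ 2) ^ k ≤ 4 ^ k * (g ^ (2 * k) + a ^ (2 * k)) := by
  have hσ2 : σ ^ 2 = 1 := by
    rcases hσ with h | h <;> rw [h] <;> norm_num
  have h1 : (g + σ * a) ^ 2 ≤ 2 * (g ^ 2 + a ^ 2) := by
    have h2 : (σ * a) ^ 2 = a ^ 2 := by rw [mul_pow, hσ2, one_mul]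
    have h3 := sq_nonneg (g - σ * a)
    nlinarith
  have hg : 0 ≤ (g ^ 2) ^ k := by positivity
  have ha : 0 ≤ (a ^ 2) ^ k := by positivity
  rw [pow_mul, pow_mul]
  rcases le_total (g ^ 2) (a ^ 2) with h | h
  · calc ((g + σ * a) ^ 2) ^ k ≤ (4 * a ^ 2) ^ k := pow_le_pow_left₀ (sq_nonneg _) (by linarith) k
      _ = 4 ^ k * (a ^ 2) ^ k := by rw [mul_pow]
      _ ≤ 4 ^ k * ((g ^ 2) ^ k + (a ^ 2) ^ k) := by gcongr; linarith
  · calc ((g + σ * a) ^ 2) ^ k ≤ (4 * g ^ 2) ^ k := pow_le_pow_left₀ (sq_nonneg _) (by linarith) k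
      _ = 4 ^ k * (g ^ 2) ^ k := by rw [mul_pow]
      _ ≤ 4 ^ k * ((g ^ 2) ^ k + (a ^ 2) ^ k) := by gcongr; linarith

private theorem cor_ev : ∃ X₀ : ℕ, ∀ H : ℕ, X₀ ≤ H →
    (H : ℝ) ^ (149 / 100 : ℝ) ≤ H / Real.log H * HL H / 1200 := by
  have h1 := (isLittleO_log_rpow_atTop (by norm_num : (0 : ℝ) < 1 / 100)).bound
    (by norm_num : (0 : ℝ) < 1 / 1200)
  have h2 := tendsto_natCast_atTop_atTop (R := ℝ) |>.eventually h1
  obtain ⟨X₀, hX⟩ := Filter.eventually_atTop.1 h2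
  refine ⟨X₀ + 3, fun H hH => ?_⟩
  have h3 := hX H (by omega)
  have hH3 : (3 : ℝ) ≤ H := by exact_mod_cast (by omega : 3 ≤ H)
  have hH0 : (0 : ℝ) < H := by linarith
  have hl1 : 1 ≤ Real.log H := by
    rw [Real.le_log_iff_exp_le hH0]
    have := Real.exp_one_lt_d9
    linarith
  have hl0 : 0 < Real.log H := by linarith
  rw [Real.norm_eq_abs, Real.norm_eq_abs, abs_of_pos hl0, abs_of_pos (by positivity)] at h3
  have h4 : (H : ℝ) ^ (1 / 2 : ℝ) ≤ HL H := by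
    unfold HL
    rw [← Real.sqrt_eq_rpow]
    exact Real.sqrt_le_sqrt (le_mul_of_one_le_right hH0.le hl1)
  have h5 : (H : ℝ) ^ (149 / 100 : ℝ) * (H : ℝ) ^ (1 / 100 : ℝ) = H * (H : ℝ) ^ (1 / 2 : ℝ) := by
    rw [← Real.rpow_add hH0, ← Real.rpow_one_add' hH0.le (by norm_num)]
    norm_num
  rw [div_mul_eq_mul_div, div_div, le_div_iff₀ (by positivity)]
  calc (H : ℝ) ^ (149 / 100 : ℝ) * (Real.log H * 1200)
      ≤ (H : ℝ) ^ (149 / 100 : ℝ) * (H : ℝ) ^ (1 / 100 : ℝ) := by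
        refine mul_le_mul_of_nonneg_left ?_ (by positivity)
        linarith
    _ = H * (H : ℝ) ^ (1 / 2 : ℝ) := h5
    _ ≤ H * HL H := mul_le_mul_of_nonneg_left h4 hH0.le

private theorem cor_num (k : ℕ) (hk : 2 ≤ k) {x v y C' S : ℝ} (hx : 0 < x) (hv : 0 < v)
    (hy : 0 ≤ y) (hC : 0 < C')
    (h : (x * v * y / 300) ^ p0 k ≤ S * (C' * x * v ^ k) ^ (1 / ((k : ℝ) - 1))) :
    (1 / 300 : ℝ) ^ p0 k / C' ^ (1 / ((k : ℝ) - 1)) * x * y ^ p0 k ≤ S := by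
  have hk1 : (2 : ℝ) ≤ k := by exact_mod_cast hk
  have hk0 : (0 : ℝ) < (k : ℝ) - 1 := by linarith
  obtain ⟨r, hr⟩ : ∃ r : ℝ, r = 1 / ((k : ℝ) - 1) := ⟨_, rfl⟩
  rw [← hr] at h ⊢
  have hp : p0 k = 1 + r := by
    rw [hr]
    unfold p0
    field_simp
    ring
  have hkr : (k : ℝ) * r = p0 k := by
    rw [hr]
    unfold p0
    field_simp
  have e1 : (x * v * y / 300) ^ p0 k = x * x ^ r * v ^ p0 k * y ^ p0 k * (1 / 300 : ℝ) ^ p0 k := by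
    rw [div_eq_mul_one_div, Real.mul_rpow (by positivity) (by norm_num),
      Real.mul_rpow (by positivity) hy, Real.mul_rpow hx.le hv.le]
    congr 3
    rw [hp, Real.rpow_add hx, Real.rpow_one]
  have e2 : (C' * x * v ^ k) ^ r = C' ^ r * x ^ r * v ^ p0 k := by
    rw [Real.mul_rpow (by positivity) (by positivity), Real.mul_rpow hC.le hx.le]
    congr 1
    rw [← Real.rpow_natCast, ← Real.rpow_mul hv.le, hkr]
  rw [e1, e2] at h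
  have hpos : 0 < x ^ r * v ^ p0 k := by positivity
  have hCr : 0 < C' ^ r := by positivity
  have h2 : (1 / 300 : ℝ) ^ p0 k * x * y ^ p0 k * (x ^ r * v ^ p0 k) ≤ S * C' ^ r * (x ^ r * v ^ p0 k) := by
    calc (1 / 300 : ℝ) ^ p0 k * x * y ^ p0 k * (x ^ r * v ^ p0 k) =
          x * x ^ r * v ^ p0 k * y ^ p0 k * (1 / 300 : ℝ) ^ p0 k := by ring
      _ ≤ S * (C' ^ r * x ^ r * v ^ p0 k) := h
      _ = S * C' ^ r * (x ^ r * v ^ p0 k) := by ring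
  have h3 := le_of_mul_le_mul_right h2 hpos
  calc (1 / 300 : ℝ) ^ p0 k / C' ^ r * x * y ^ p0 k = ((1 / 300 : ℝ) ^ p0 k * x * y ^ p0 k) / C' ^ r := by
        ring
    _ ≤ S := by
        rw [div_le_iff₀ hCr]
        exact h3

theorem core (k : ℕ) (hk : 2 ≤ k) : ∃ c : ℝ, 0 < c ∧ ∃ X₀ : ℕ, ∀ X H : ℕ, Big k X₀ X H →
    ∀ f : ℕ → ℝ, FV X f → ∀ σ : ℝ, σ = 1 ∨ σ = -1 →
    -(c * X * HL H) ≤ σ * ∑ x ∈ Ioc (Aw X) (Bw X), (PH H x - f x) →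
    c * X * HL H ^ p0 k ≤ ∑ x ∈ Ioc (Aw X) (Bw X), (max 0 (σ * (PH H x - f x))) ^ p0 k := by
  obtain ⟨C1, hC1, X1, h1⟩ := gmom k hk
  obtain ⟨C2, hC2, X2, h2⟩ := eg2 k hk
  obtain ⟨X3, h3⟩ := eg1 k hk
  obtain ⟨X4, h4⟩ := lk_k k hk
  obtain ⟨X5, h5⟩ := cor_ev
  obtain ⟨C', hC'⟩ : ∃ C' : ℝ, C' = 4 ^ k * (C1 + 1) := ⟨_, rfl⟩
  have hC'0 : 0 < C' := by rw [hC']; positivity
  obtain ⟨c1, hc1⟩ : ∃ c1 : ℝ, c1 = 1 / (600 * (C2 + 1)) := ⟨_, rfl⟩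
  obtain ⟨c2, hc2⟩ : ∃ c2 : ℝ, c2 = (1 / 300 : ℝ) ^ p0 k / C' ^ (1 / ((k : ℝ) - 1)) := ⟨_, rfl⟩
  refine ⟨min c1 c2, lt_min (by rw [hc1]; positivity) (by rw [hc2]; positivity),
    X1 + X2 + X3 + X4 + X5 + 3, ?_⟩
  intro X H hB f hf σ hσ hyp
  have hH3n : 3 ≤ H := le_trans (by omega) hB.1
  obtain ⟨hL2, -⟩ := h4 X H (hB.mono (by omega))
  obtain ⟨ρ, hρ⟩ := sw_exists (Lk k H) hL2
  have e1 := h1 X H (hB.mono (by omega)) ρ hρ
  obtain ⟨V2, hV0, hV, e2⟩ := h2 X H (hB.mono (by omega)) ρ hρ f hf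
  have e3 := h3 X H (hB.mono (by omega)) ρ hρ f hf
  have e5 := h5 H (le_trans (by omega) hB.1)
  have hXH : H ≤ X := hB.le hk (by omega)
  have hcard : (Ioc (Aw X) (Bw X)).card ≤ X := by
    rw [Nat.card_Ioc]
    unfold Aw Bw
    omega
  obtain ⟨I, hI⟩ : ∃ I : Finset ℕ, I = Ioc (Aw X) (Bw X) := ⟨_, rfl⟩
  obtain ⟨E, hE⟩ : ∃ E : ℕ → ℝ, E = fun x => PH H x - f x := ⟨_, rfl⟩
  obtain ⟨g, hg⟩ : ∃ g : ℕ → ℝ, g = gk k X H ρ := ⟨_, rfl⟩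
  have hE' : ∀ x, PH H x - f x = E x := fun x => by rw [hE]
  simp only [hE', ← hI, ← hg] at e1 e2 e3 hyp hcard ⊢
  clear hE' hE hg hI hf hρ h1 h2 h3 h4 h5
  have hx : (0 : ℝ) < X := by exact_mod_cast (by omega : 0 < X)
  have hH3 : (3 : ℝ) ≤ H := by exact_mod_cast hH3n
  have hH0 : (0 : ℝ) < H := by linarith
  have hl1 : 1 ≤ Real.log H := by
    rw [Real.le_log_iff_exp_le hH0]
    have := Real.exp_one_lt_d9
    linarith
  obtain ⟨l, hl⟩ : ∃ l : ℝ, l = Real.log H := ⟨_, rfl⟩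
  have hl0 : 0 < l := by rw [hl]; linarith
  obtain ⟨y, hy⟩ : ∃ y : ℝ, y = HL H := ⟨_, rfl⟩
  obtain ⟨v, hv⟩ : ∃ v : ℝ, v = H / Real.log H := ⟨_, rfl⟩
  rw [← hy] at hyp e5 ⊢
  rw [← hv] at e5 hV e1
  have hv0 : 0 < v := by
    rw [hv, ← hl]
    positivity
  obtain ⟨a, ha⟩ : ∃ a : ℝ, a = √v := ⟨_, rfl⟩
  have ha0 : 0 ≤ a := by rw [ha]; exact Real.sqrt_nonneg _
  have ha2 : a ^ 2 = v := by rw [ha]; exact Real.sq_sqrt hv0.le
  have hya : y = a * l := by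
    rw [hy]
    unfold HL
    rw [← hl]
    have h6 : (H : ℝ) * l = (a * l) ^ 2 := by
      rw [mul_pow, ha2, hv, ← hl]
      field_simp
    rw [h6, Real.sqrt_sq (by positivity)]
  have hy0 : 0 ≤ y := by rw [hya]; positivity
  have hvy : v * y = a * H := by
    rw [hya, hv, ← hl]
    field_simp
  -- the lower bound
  have hsum := cor_sum a hσ I E g
  have e2' : V2 * (σ * ∑ n ∈ I, E n) - 2 * (X * (H : ℝ) ^ (149 / 100 : ℝ)) ≤ σ * ∑ n ∈ I, E n * g n ^ 2 := by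
    have h6 := abs_le.1 e2
    rcases hσ with h | h
    · rw [h, one_mul, one_mul]
      linarith [h6.1]
    · rw [h]
      linarith [h6.2]
  obtain ⟨S0, hS0⟩ : ∃ S0 : ℝ, S0 = σ * ∑ n ∈ I, E n := ⟨_, rfl⟩
  rw [← hS0] at hyp hsum e2'
  have hc1' : min c1 c2 * (C2 + 1) ≤ 1 / 600 := by
    have h6 : min c1 c2 ≤ c1 := min_le_left _ _
    calc min c1 c2 * (C2 + 1) ≤ c1 * (C2 + 1) := mul_le_mul_of_nonneg_right h6 (by linarith)
      _ = 1 / 600 := by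
          rw [hc1]
          field_simp
  have hc0 : 0 ≤ min c1 c2 := le_min (by rw [hc1]; positivity) (by rw [hc2]; positivity)
  obtain ⟨c, hc⟩ : ∃ c : ℝ, c = min c1 c2 := ⟨_, rfl⟩
  rw [← hc] at hc1' hc0 hyp ⊢
  have hxvy : 0 ≤ X * (v * y) := by positivity
  have hcxy : 0 ≤ c * X * y := by positivity
  have b1 : -(C2 * v * (c * X * y)) ≤ V2 * S0 := by
    calc -(C2 * v * (c * X * y)) ≤ -(V2 * (c * X * y)) := by
          apply neg_le_neg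
          exact mul_le_mul_of_nonneg_right hV hcxy
      _ = V2 * (-(c * X * y)) := by ring
      _ ≤ V2 * S0 := mul_le_mul_of_nonneg_left hyp hV0
  have b2 : -(v * (c * X * y)) ≤ a ^ 2 * S0 := by
    rw [ha2]
    calc -(v * (c * X * y)) = v * (-(c * X * y)) := by ring
      _ ≤ v * S0 := mul_le_mul_of_nonneg_left hyp hv0.le
  have b3 : X * (v * y) / 150 ≤ 2 * a * ∑ n ∈ I, E n * g n := by
    calc X * (v * y) / 150 = 2 * a * (H * X / 300) := by rw [hvy]; ring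
      _ ≤ 2 * a * ∑ n ∈ I, E n * g n := mul_le_mul_of_nonneg_left e3 (by linarith)
  have b4 : X * (H : ℝ) ^ (149 / 100 : ℝ) ≤ X * (v * y) / 1200 := by
    calc X * (H : ℝ) ^ (149 / 100 : ℝ) ≤ X * (v * y / 1200) := mul_le_mul_of_nonneg_left e5 hx.le
      _ = X * (v * y) / 1200 := by ring
  have b5 : C2 * v * (c * X * y) + v * (c * X * y) ≤ X * (v * y) / 600 := by
    calc C2 * v * (c * X * y) + v * (c * X * y) = (c * (C2 + 1)) * (X * (v * y)) := by ring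
      _ ≤ 1 / 600 * (X * (v * y)) := mul_le_mul_of_nonneg_right hc1' hxvy
      _ = X * (v * y) / 600 := by ring
  have hN : X * v * y / 300 ≤ ∑ n ∈ I, max 0 (σ * E n) * (g n + σ * a) ^ 2 := by
    have h6 : X * v * y / 300 = X * (v * y) / 300 := by ring
    rw [h6]
    linarith
  -- the upper bound
  have hD : ∑ n ∈ I, ((g n + σ * a) ^ 2) ^ k ≤ C' * X * v ^ k := by
    have h6 : a ^ (2 * k) = v ^ k := by rw [pow_mul, ha2]
    calc ∑ n ∈ I, ((g n + σ * a) ^ 2) ^ k ≤ ∑ n ∈ I, 4 ^ k * (g n ^ (2 * k) + a ^ (2 * k)) :=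
          sum_le_sum fun n _ => cor_pow hσ k
      _ = 4 ^ k * ((∑ n ∈ I, g n ^ (2 * k)) + I.card * v ^ k) := by
          rw [← mul_sum, sum_add_distrib, sum_const, nsmul_eq_mul, h6]
      _ ≤ 4 ^ k * (C1 * X * v ^ k + X * v ^ k) := by
          have h7 : (I.card : ℝ) ≤ X := by exact_mod_cast hcard
          gcongr
      _ = C' * X * v ^ k := by
          rw [hC']
          ring
  have hfin := hol k hk I (fun n => max 0 (σ * E n)) (fun n => (g n + σ * a) ^ 2)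
    (fun n _ => le_max_left _ _) (fun n _ => sq_nonneg _) (X * v * y / 300) (C' * X * v ^ k)
    (by positivity) hN hD
  have h8 := cor_num k hk hx hv0 hy0 hC'0 hfin
  rw [← hc2] at h8
  refine le_trans ?_ h8
  have h9 : c ≤ c2 := by rw [hc]; exact min_le_right _ _
  gcongr

end Pool.Agent.H2.LP
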