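import Pool.Agent.H2.LP.Defs
import Pool.Agent.H67.VU.Th

/-!
[H2 LP CSB]  The mean value of the character sums over the primes of the window.

Proof.  `A = Aw X`, `B = Bw X`, `X ≤ A ≤ B ≤ 2X`, `R = Rk X = ⌊X^(33/200)⌋`.  For `n ∈ Ioc A B` one has
`ww X n = 1 = onef n`, so `ThC A B (ww X) χ = ThC A B onef χ`.  `H67.VU.th_mean` (`Pool/Agent/H67/VU/Th.lean`)
with `u = ⌊X^(33/100)⌋` (`u^3 ≤ X^(99/100) ≤ A`, `u ≥ 1`, `R ≤ X ≤ B`), `t = A`, `T = B`: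
`CS ≤ C (1 + log(2X))^5 (2X + R 2X/√u + R^2 √(2X) + R^2 √R u)`; `√u ≥ X^(33/200)/2` for large `X`, so
`R 2X/√u ≤ 4X`; `R^2 √(2X) ≤ 2 X^(33/100 + 1/2) ≤ X`, `R^2 √R u ≤ X^(33/100+33/400+33/100) ≤ X`.
Total `≤ 8 C (1 + log(2X))^5 X ≤ X^(1+η)` for large `X`.
-/

namespace Pool.Agent.H2.LP

open Finset Filter Pool.Agent.H21.MT Pool.Agent.H67.VS Pool.Agent.H48.OM

/-- a power of the logarithm is small -/
private theorem log_pow (η M : ℝ) (hη : 0 < η) (hM : 0 < M) : ∃ X₀ : ℕ, 1 ≤ X₀ ∧ ∀ X : ℕ, X₀ ≤ X →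
    M * (1 + Real.log (2 * X)) ^ 5 ≤ (X : ℝ) ^ η := by
  obtain ⟨K, hK⟩ : ∃ K, K = 1 + Real.log 2 + 1 / (η / 10) := ⟨_, rfl⟩
  have hl2 : 0 ≤ Real.log 2 := Real.log_nonneg (by norm_num)
  have hK0 : 0 < K := by
    rw [hK]
    positivity
  have h1 := (tendsto_rpow_atTop (half_pos hη)).eventually_ge_atTop (M * K ^ 5)
  obtain ⟨x0, hx0⟩ := eventually_atTop.1 h1
  refine ⟨max ⌈x0⌉₊ 1, le_max_right _ _, fun X hX => ?_⟩
  have hX0 : x0 ≤ (X : ℝ) := (Nat.le_ceil x0).trans (by exact_mod_cast (le_max_left _ _).trans hX)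
  have hX1 : (1 : ℝ) ≤ X := by exact_mod_cast (le_max_right _ _).trans hX
  have h2 := hx0 X hX0
  have hp : 1 ≤ (X : ℝ) ^ (η / 10) := Real.one_le_rpow hX1 (by positivity)
  have h3 : 1 + Real.log (2 * X) ≤ K * (X : ℝ) ^ (η / 10) := by
    rw [Real.log_mul (by norm_num) (by positivity)]
    have h4 := Real.log_le_rpow_div (by positivity : (0 : ℝ) ≤ X) (by positivity : 0 < η / 10)
    have h5 : (1 + Real.log 2) * 1 ≤ (1 + Real.log 2) * (X : ℝ) ^ (η / 10) :=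
      mul_le_mul_of_nonneg_left hp (by positivity)
    have h6 : (X : ℝ) ^ (η / 10) / (η / 10) = 1 / (η / 10) * (X : ℝ) ^ (η / 10) := by ring
    rw [h6] at h4
    calc 1 + (Real.log 2 + Real.log X) = (1 + Real.log 2) * 1 + Real.log X := by ring
      _ ≤ (1 + Real.log 2) * (X : ℝ) ^ (η / 10) + 1 / (η / 10) * (X : ℝ) ^ (η / 10) :=
        add_le_add h5 h4
      _ = K * (X : ℝ) ^ (η / 10) := by rw [hK]; ring
  have h0 : 0 ≤ 1 + Real.log (2 * X) := by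
    have : 0 ≤ Real.log (2 * X) := Real.log_nonneg (by linarith)
    linarith
  have h7 : (1 + Real.log (2 * X)) ^ 5 ≤ K ^ 5 * (X : ℝ) ^ (η / 2) := by
    calc (1 + Real.log (2 * X)) ^ 5 ≤ (K * (X : ℝ) ^ (η / 10)) ^ 5 := pow_le_pow_left₀ h0 h3 5
      _ = K ^ 5 * (X : ℝ) ^ (η / 2) := by
        rw [mul_pow, ← Real.rpow_natCast ((X : ℝ) ^ (η / 10)), ← Real.rpow_mul (by positivity)]
        congr 2
        push_cast
        ring
  calc M * (1 + Real.log (2 * X)) ^ 5 ≤ M * (K ^ 5 * (X : ℝ) ^ (η / 2)) :=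
        mul_le_mul_of_nonneg_left h7 hM.le
    _ = (M * K ^ 5) * (X : ℝ) ^ (η / 2) := by ring
    _ ≤ (X : ℝ) ^ (η / 2) * (X : ℝ) ^ (η / 2) := mul_le_mul_of_nonneg_right h2 (by positivity)
    _ = (X : ℝ) ^ η := by
      rw [← Real.rpow_add (by positivity)]
      congr 1
      ring

theorem cs_k (η : ℝ) (hη : 0 < η) : ∃ X₀ : ℕ, ∀ X : ℕ, X₀ ≤ X →
    0 ≤ CS (Aw X) (Bw X) (ww X) (Rk X) ∧
    CS (Aw X) (Bw X) (ww X) (Rk X) ≤ (X : ℝ) ^ (1 + η) := by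
  obtain ⟨C, hC, hmean⟩ := Pool.Agent.H67.VU.th_mean
  obtain ⟨X₀, hX₀, hlog⟩ := log_pow η (9 * C) hη (by positivity)
  refine ⟨X₀, fun X hX => ⟨Finset.sum_nonneg fun _ _ => norm_nonneg _, ?_⟩⟩
  have hX1n : 1 ≤ X := hX₀.trans hX
  have hX1 : (1 : ℝ) ≤ X := by exact_mod_cast hX1n
  have hX0 : (0 : ℝ) < X := by linarith
  obtain ⟨u, hu⟩ : ∃ u : ℕ, u = ⌊(X : ℝ) ^ (33 / 100 : ℝ)⌋₊ := ⟨_, rfl⟩
  have hp1 : (1 : ℝ) ≤ (X : ℝ) ^ (33 / 100 : ℝ) := Real.one_le_rpow hX1 (by norm_num)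
  have hu1 : 1 ≤ u := by
    rw [hu]
    exact Nat.le_floor (by rw [Nat.cast_one]; exact hp1)
  have hule : (u : ℝ) ≤ (X : ℝ) ^ (33 / 100 : ℝ) := by
    rw [hu]
    exact Nat.floor_le (by positivity)
  have huge : (X : ℝ) ^ (33 / 100 : ℝ) / 2 ≤ u := by
    have h1 := Nat.lt_floor_add_one ((X : ℝ) ^ (33 / 100 : ℝ))
    rw [← hu] at h1
    have h2 : (1 : ℝ) ≤ u := by exact_mod_cast hu1
    linarith
  have hAX : X ≤ Aw X := by
    unfold Aw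
    omega
  have hAB : Aw X ≤ Bw X := by
    unfold Aw Bw
    omega
  have hBX : Bw X ≤ 2 * X := by
    unfold Bw
    omega
  have hBXr : (Bw X : ℝ) ≤ 2 * X := by exact_mod_cast hBX
  have hB1 : (1 : ℝ) ≤ Bw X := by exact_mod_cast (hX1n.trans (hAX.trans hAB))
  have hu3 : u ^ 3 ≤ Aw X := by
    have h1 : (u : ℝ) ^ 3 ≤ X := by
      calc (u : ℝ) ^ 3 ≤ ((X : ℝ) ^ (33 / 100 : ℝ)) ^ 3 := pow_le_pow_left₀ (Nat.cast_nonneg _) hule 3
        _ = (X : ℝ) ^ (99 / 100 : ℝ) := by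
          rw [← Real.rpow_natCast ((X : ℝ) ^ (33 / 100 : ℝ)), ← Real.rpow_mul hX0.le]
          congr 1
          push_cast
          ring
        _ ≤ (X : ℝ) ^ (1 : ℝ) := Real.rpow_le_rpow_of_exponent_le hX1 (by norm_num)
        _ = X := Real.rpow_one _
    have h2 : u ^ 3 ≤ X := by exact_mod_cast h1
    exact h2.trans hAX
  have hR : (Rk X : ℝ) ≤ (X : ℝ) ^ (33 / 200 : ℝ) := by
    unfold Rk
    exact Nat.floor_le (by positivity)
  have hRX : Rk X ≤ X := by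
    have h1 : (Rk X : ℝ) ≤ X := by
      calc (Rk X : ℝ) ≤ (X : ℝ) ^ (33 / 200 : ℝ) := hR
        _ ≤ (X : ℝ) ^ (1 : ℝ) := Real.rpow_le_rpow_of_exponent_le hX1 (by norm_num)
        _ = X := Real.rpow_one _
    exact_mod_cast h1
  have hCSeq : CS (Aw X) (Bw X) (ww X) (Rk X) =
      ∑ c ∈ PC (Rk X), ‖ThC (Aw X) (Bw X) Pool.Agent.H67.VU.onef c.2‖ := by
    unfold CS
    refine sum_congr rfl fun c _ => ?_
    congr 1
    unfold ThC
    refine sum_congr rfl fun n hn => ?_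
    rw [ww, if_pos hn, Pool.Agent.H67.VU.onef]
  have h1 := hmean (Rk X) u (Aw X) (Bw X) hu1 hu3 hAB (hRX.trans (hAX.trans hAB))
  rw [hCSeq]
  refine h1.trans ?_
  -- the four terms
  have s1 : (X : ℝ) ^ (33 / 200 : ℝ) / 2 ≤ Real.sqrt u := by
    apply Real.le_sqrt_of_sq_le
    refine le_trans (le_of_eq ?_) (le_trans (half_le_self ?_) huge)
    · rw [div_pow, ← Real.rpow_natCast ((X : ℝ) ^ (33 / 200 : ℝ)), ← Real.rpow_mul hX0.le]
      have : (33 / 200 : ℝ) * ((2 : ℕ) : ℝ) = 33 / 100 := by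
        push_cast
        norm_num
      rw [this]
      ring
    · positivity
  have hpos : 0 < (X : ℝ) ^ (33 / 200 : ℝ) := by positivity
  have t2 : (Rk X : ℝ) * Bw X / Real.sqrt u ≤ 4 * X := by
    rw [div_le_iff₀ (lt_of_lt_of_le (by positivity) s1)]
    calc (Rk X : ℝ) * Bw X ≤ (X : ℝ) ^ (33 / 200 : ℝ) * (2 * X) :=
          mul_le_mul hR hBXr (by linarith) hpos.le
      _ = 4 * X * ((X : ℝ) ^ (33 / 200 : ℝ) / 2) := by ring
      _ ≤ 4 * X * Real.sqrt u := mul_le_mul_of_nonneg_left s1 (by positivity)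
  have hR2 : (Rk X : ℝ) ^ 2 ≤ (X : ℝ) ^ (33 / 100 : ℝ) := by
    calc (Rk X : ℝ) ^ 2 ≤ ((X : ℝ) ^ (33 / 200 : ℝ)) ^ 2 := pow_le_pow_left₀ (Nat.cast_nonneg _) hR 2
      _ = (X : ℝ) ^ (33 / 100 : ℝ) := by
        rw [← Real.rpow_natCast ((X : ℝ) ^ (33 / 200 : ℝ)), ← Real.rpow_mul hX0.le]
        congr 1
        push_cast
        norm_num
  have t3 : (Rk X : ℝ) ^ 2 * Real.sqrt (Bw X) ≤ 2 * X := by
    have h2 : Real.sqrt (Bw X) ≤ 2 * (X : ℝ) ^ (1 / 2 : ℝ) := by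
      rw [← Real.sqrt_eq_rpow]
      have h3 : Real.sqrt (Bw X) ≤ Real.sqrt (4 * X) := Real.sqrt_le_sqrt (by linarith)
      have h4 : Real.sqrt (4 * X) = 2 * Real.sqrt X := by
        rw [Real.sqrt_mul (by norm_num)]
        have : Real.sqrt 4 = 2 := by
          rw [show (4 : ℝ) = 2 ^ 2 by norm_num]
          exact Real.sqrt_sq (by norm_num)
        rw [this]
      linarith
    calc (Rk X : ℝ) ^ 2 * Real.sqrt (Bw X) ≤
          (X : ℝ) ^ (33 / 100 : ℝ) * (2 * (X : ℝ) ^ (1 / 2 : ℝ)) :=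
          mul_le_mul hR2 h2 (Real.sqrt_nonneg _) (by positivity)
      _ = 2 * (X : ℝ) ^ (33 / 100 + 1 / 2 : ℝ) := by
        rw [Real.rpow_add hX0]
        ring
      _ ≤ 2 * (X : ℝ) ^ (1 : ℝ) := by
        have := Real.rpow_le_rpow_of_exponent_le hX1 (by norm_num : (33 / 100 + 1 / 2 : ℝ) ≤ 1)
        linarith
      _ = 2 * X := by rw [Real.rpow_one]
  have t4 : (Rk X : ℝ) ^ 2 * Real.sqrt (Rk X) * u ≤ X := by
    have h2 : Real.sqrt (Rk X) ≤ (X : ℝ) ^ (33 / 200 : ℝ) := by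
      refine (Real.sqrt_le_sqrt hR).trans ?_
      rw [Real.sqrt_le_left (by positivity)]
      nlinarith [Real.one_le_rpow hX1 (by norm_num : (0 : ℝ) ≤ 33 / 200)]
    calc (Rk X : ℝ) ^ 2 * Real.sqrt (Rk X) * u ≤
          (X : ℝ) ^ (33 / 100 : ℝ) * (X : ℝ) ^ (33 / 200 : ℝ) * (X : ℝ) ^ (33 / 100 : ℝ) := by
          apply mul_le_mul (mul_le_mul hR2 h2 (Real.sqrt_nonneg _) (by positivity)) hule
            (Nat.cast_nonneg _) (by positivity)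
      _ = (X : ℝ) ^ (33 / 100 + 33 / 200 + 33 / 100 : ℝ) := by
        rw [Real.rpow_add hX0, Real.rpow_add hX0]
      _ ≤ (X : ℝ) ^ (1 : ℝ) := Real.rpow_le_rpow_of_exponent_le hX1 (by norm_num)
      _ = X := Real.rpow_one _
  have hsum : (Bw X : ℝ) + (Rk X : ℝ) * Bw X / Real.sqrt u + (Rk X : ℝ) ^ 2 * Real.sqrt (Bw X) +
      (Rk X : ℝ) ^ 2 * Real.sqrt (Rk X) * u ≤ 9 * X := by linarith
  have hl1 : 1 + Real.log (Bw X) ≤ 1 + Real.log (2 * X) := by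
    have := Real.log_le_log (by linarith) hBXr
    linarith
  have hl0 : 0 ≤ 1 + Real.log (Bw X) := by
    have := Real.log_nonneg hB1
    linarith
  have hl2 : (1 + Real.log (Bw X)) ^ 5 ≤ (1 + Real.log (2 * X)) ^ 5 := pow_le_pow_left₀ hl0 hl1 5
  calc C * (1 + Real.log (Bw X)) ^ 5 * ((Bw X : ℝ) + (Rk X : ℝ) * Bw X / Real.sqrt u +
        (Rk X : ℝ) ^ 2 * Real.sqrt (Bw X) + (Rk X : ℝ) ^ 2 * Real.sqrt (Rk X) * u)
      ≤ C * (1 + Real.log (2 * X)) ^ 5 * (9 * X) := by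
        apply mul_le_mul (mul_le_mul_of_nonneg_left hl2 hC.le) hsum
        · positivity
        · have : 0 ≤ 1 + Real.log (2 * X) := hl0.trans hl1
          positivity
    _ = (9 * C * (1 + Real.log (2 * X)) ^ 5) * X := by ring
    _ ≤ (X : ℝ) ^ η * X := mul_le_mul_of_nonneg_right (hlog X hX) hX0.le
    _ = (X : ℝ) ^ (1 + η) := by
      rw [Real.rpow_add hX0, Real.rpow_one]
      ring

end Pool.Agent.H2.LP
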