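import Pool.Agent.H2.LP.Defs
import Pool.Agent.H67.VS.Sqb

/-!
[H2 LP SQU]  The sum of `1/(q-1)` over the large primes.

Notation: `e = ek k > 0` (`ek_pos`), `a = ⌊X^(1.54 e)⌋`, `b = ⌊X^(1.6 e)⌋`, `ℓ = log X`.
Proofs.
* lower bound (see `sq_ge` in `Pool/Agent/H48/OM/ParA.lean`): `sqb_sum` (`Pool/Agent/H67/VS/Sqb.lean`) gives
  `∑_{a < q ≤ b} log q/q ≥ log b - log a - 5 - log 4 ≥ (6/100) e ℓ - 8`, and
  `1/(q-1) ≥ 1/q ≥ (log q/q)/(1.6 e ℓ)`, so `Sq ≥ 0.0375 - 8/(1.6 e ℓ) ≥ 1/30` for large `X`.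
* upper bound: cover `(a,b]` by the blocks `(2^i a, 2^(i+1) a]`, `i < I`, `2^I ≤ 2 b/a`, so
  `I ≤ 2 + (6/100) e ℓ/log 2` for large `X` (`a ≥ X^(1.54 e)/2`).  In a block with `x = 2^i a`:
  `∑_{x < q ≤ 2x} 1/(q-1) ≤ (1/x) #{q} ≤ (1/(x log x)) θ(2x) ≤ 2 log 4/log x` (`Chebyshev.theta_le_log4_mul_x`:
  `θ(y) ≤ log 4 y`), `log x ≥ log a ≥ 1.5 e ℓ`.  Total `≤ (2 + 0.0866 e ℓ) 2.78/(1.5 e ℓ) ≤ 0.17 + 4/(e ℓ) ≤ 1`.
  (Any other proof of an upper bound is fine, e.g. Mertens, if it is in the library.)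
* `s2_k`: `1/(q-1)^2 ≤ (1/Y) 1/(q-1)`, `Y = X^(1.54 e)/2`, so `S2 ≤ Sq/Y ≤ 2 X^(-1.54 e)`.
-/

namespace Pool.Agent.H2.LP

open Finset Pool.Agent.H67.VS Pool.Agent.H48.OM

/-- the general facts on the end points -/
theorem squ_fac (k : ℕ) (hk : 2 ≤ k) : ∃ X₀ : ℕ, ∀ X : ℕ, X₀ ≤ X →
    (0 : ℝ) < X ∧ 20000 ≤ ek k * Real.log X ∧
    1 ≤ ⌊(X : ℝ) ^ (154 / 100 * ek k)⌋₊ ∧
    ⌊(X : ℝ) ^ (154 / 100 * ek k)⌋₊ ≤ ⌊(X : ℝ) ^ (160 / 100 * ek k)⌋₊ ∧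
    Real.log ⌊(X : ℝ) ^ (154 / 100 * ek k)⌋₊ ≤ 154 / 100 * (ek k * Real.log X) ∧
    154 / 100 * (ek k * Real.log X) - 1 ≤ Real.log ⌊(X : ℝ) ^ (154 / 100 * ek k)⌋₊ ∧
    Real.log ⌊(X : ℝ) ^ (160 / 100 * ek k)⌋₊ ≤ 160 / 100 * (ek k * Real.log X) ∧
    160 / 100 * (ek k * Real.log X) - 1 ≤ Real.log ⌊(X : ℝ) ^ (160 / 100 * ek k)⌋₊ ∧
    2 ≤ (X : ℝ) ^ (154 / 100 * ek k) := by
  have he := ek_pos hk
  refine ⟨⌈Real.exp (20000 / ek k)⌉₊, fun X hX => ?_⟩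
  have hXe : Real.exp (20000 / ek k) ≤ X := Nat.ceil_le.1 hX
  have hX0 : (0 : ℝ) < X := lt_of_lt_of_le (Real.exp_pos _) hXe
  have hL : 20000 / ek k ≤ Real.log X := by
    rw [Real.le_log_iff_exp_le hX0]
    exact hXe
  have hL' : 20000 ≤ ek k * Real.log X := by
    rw [div_le_iff₀ he] at hL
    linarith
  have hX1 : (1 : ℝ) ≤ X := by
    have h1 := Real.add_one_le_exp (20000 / ek k)
    have h2 : 0 < 20000 / ek k := by positivity
    linarith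
  have hlog2 : Real.log 2 < 1 := by
    have := Real.log_two_lt_d9
    linarith
  have key : ∀ t : ℝ, 1 ≤ t → 2 ≤ (X : ℝ) ^ (t * ek k) ∧ 1 ≤ ⌊(X : ℝ) ^ (t * ek k)⌋₊ ∧
      Real.log ⌊(X : ℝ) ^ (t * ek k)⌋₊ ≤ t * (ek k * Real.log X) ∧
      t * (ek k * Real.log X) - 1 ≤ Real.log ⌊(X : ℝ) ^ (t * ek k)⌋₊ := by
    intro t ht
    have hp : Real.log ((X : ℝ) ^ (t * ek k)) = t * (ek k * Real.log X) := by
      rw [Real.log_rpow hX0]
      ring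
    have hpos : (0 : ℝ) < (X : ℝ) ^ (t * ek k) := by positivity
    have h2 : 2 ≤ (X : ℝ) ^ (t * ek k) := by
      rw [← Real.log_le_log_iff (by norm_num) hpos, hp]
      nlinarith
    have h1 : 1 ≤ ⌊(X : ℝ) ^ (t * ek k)⌋₊ := Nat.le_floor (by
      push_cast
      linarith)
    have h1' : (1 : ℝ) ≤ ⌊(X : ℝ) ^ (t * ek k)⌋₊ := by exact_mod_cast h1
    refine ⟨h2, h1, ?_, ?_⟩
    · rw [← hp]
      exact Real.log_le_log (by linarith) (Nat.floor_le hpos.le)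
    · have h3 : (X : ℝ) ^ (t * ek k) / 2 ≤ ⌊(X : ℝ) ^ (t * ek k)⌋₊ := by
        have h4 := Nat.lt_floor_add_one ((X : ℝ) ^ (t * ek k))
        linarith
      have h5 := Real.log_le_log (by positivity) h3
      rw [Real.log_div hpos.ne' (by norm_num), hp] at h5
      linarith
  obtain ⟨a1, a2, a3, a4⟩ := key (154 / 100) (by norm_num)
  obtain ⟨-, -, b3, b4⟩ := key (160 / 100) (by norm_num)
  refine ⟨hX0, hL', a2, ?_, a3, a4, b3, b4, a1⟩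
  exact Nat.floor_le_floor (Real.rpow_le_rpow_of_exponent_le hX1 (by linarith))

theorem sq_lo (k : ℕ) (hk : 2 ≤ k) : ∃ X₀ : ℕ, ∀ X : ℕ, X₀ ≤ X → 1 / 30 ≤ Sq (Qk k X) := by
  obtain ⟨X₀, hX₀⟩ := squ_fac k hk
  refine ⟨X₀, fun X hX => ?_⟩
  obtain ⟨-, hL, ha1, hab, hla, -, hlb, hlb', -⟩ := hX₀ X hX
  have hsum := sqb_sum _ _ ha1 hab
  have hlog2 : Real.log 2 < 1 := by
    have := Real.log_two_lt_d9
    linarith
  have hlog4 : Real.log 4 < 2 := by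
    have h1 : (4 : ℝ) = 2 ^ 2 := by norm_num
    rw [h1, Real.log_pow]
    push_cast
    linarith
  unfold Qk
  set a : ℕ := ⌊(X : ℝ) ^ (154 / 100 * ek k)⌋₊ with ha
  set b : ℕ := ⌊(X : ℝ) ^ (160 / 100 * ek k)⌋₊ with hb
  have hlbpos : 0 < Real.log b := by linarith
  have hterm : ∀ q ∈ (Ioc a b).filter Nat.Prime,
      Real.log q / q / Real.log b ≤ 1 / ((q : ℝ) - 1) := by
    intro q hq
    rw [Finset.mem_filter, Finset.mem_Ioc] at hq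
    have hq2 : (2 : ℝ) ≤ q := by exact_mod_cast hq.2.two_le
    have hqb : Real.log q ≤ Real.log b :=
      Real.log_le_log (by linarith) (by exact_mod_cast hq.1.2)
    rw [div_div, div_le_div_iff₀ (by positivity) (by linarith)]
    have hlq : 0 ≤ Real.log q := Real.log_nonneg (by linarith)
    nlinarith
  have h1 : (∑ q ∈ (Ioc a b).filter Nat.Prime, Real.log q / q) / Real.log b ≤
      Sq ((Ioc a b).filter Nat.Prime) := by
    rw [Finset.sum_div]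
    exact Finset.sum_le_sum hterm
  refine le_trans ?_ h1
  rw [le_div_iff₀ hlbpos]
  refine le_trans ?_ hsum
  linarith

open Pool.Agent.H75.AP.MertA in
theorem squ_sum (a b : ℕ) (ha : 1 ≤ a) (hab : a ≤ b) :
    ∑ q ∈ (Ioc a b).filter Nat.Prime, Real.log q / q ≤
      Real.log b + Real.log 4 - (Real.log a - 5) := by
  have h1 := upperN b (le_trans ha hab)
  have h2 := lowerN a ha
  have hdis : Disjoint (PN a) ((Ioc a b).filter Nat.Prime) := by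
    rw [Finset.disjoint_left]
    intro p hp hp'
    rw [PN, Finset.mem_filter, Finset.mem_range] at hp
    rw [Finset.mem_filter, Finset.mem_Ioc] at hp'
    omega
  have hun : PN b = PN a ∪ (Ioc a b).filter Nat.Prime := by
    ext p
    simp only [PN, Finset.mem_filter, Finset.mem_range, Finset.mem_union, Finset.mem_Ioc]
    constructor
    · rintro ⟨h, hp⟩
      by_cases hpa : p < a + 1
      · exact Or.inl ⟨hpa, hp⟩
      · exact Or.inr ⟨⟨by omega, by omega⟩, hp⟩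
    · rintro (⟨h, hp⟩ | ⟨⟨h, h'⟩, hp⟩)
      · exact ⟨by omega, hp⟩
      · exact ⟨by omega, hp⟩
  rw [hun, Finset.sum_union hdis] at h1
  linarith

theorem sq_up (k : ℕ) (hk : 2 ≤ k) : ∃ X₀ : ℕ, ∀ X : ℕ, X₀ ≤ X → Sq (Qk k X) ≤ 1 := by
  obtain ⟨X₀, hX₀⟩ := squ_fac k hk
  refine ⟨X₀, fun X hX => ?_⟩
  obtain ⟨-, hL, ha1, hab, -, hla, hlb, -, -⟩ := hX₀ X hX
  have hsum := squ_sum _ _ ha1 hab
  have hlog2 : Real.log 2 < 1 := by
    have := Real.log_two_lt_d9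
    linarith
  have hlog4 : Real.log 4 < 2 := by
    have h1 : (4 : ℝ) = 2 ^ 2 := by norm_num
    rw [h1, Real.log_pow]
    push_cast
    linarith
  unfold Qk
  set a : ℕ := ⌊(X : ℝ) ^ (154 / 100 * ek k)⌋₊ with ha
  set b : ℕ := ⌊(X : ℝ) ^ (160 / 100 * ek k)⌋₊ with hb
  have hlapos : 0 < Real.log a := by linarith
  have ha1' : (1 : ℝ) ≤ a := by exact_mod_cast ha1
  have hterm : ∀ q ∈ (Ioc a b).filter Nat.Prime,
      1 / ((q : ℝ) - 1) ≤ 2 * (Real.log q / q) / Real.log a := by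
    intro q hq
    rw [Finset.mem_filter, Finset.mem_Ioc] at hq
    have hq2 : (2 : ℝ) ≤ q := by exact_mod_cast hq.2.two_le
    have hqa : Real.log a ≤ Real.log q :=
      Real.log_le_log (by linarith) (by exact_mod_cast hq.1.1.le)
    have e1 : 2 * (Real.log q / q) / Real.log a = (2 * Real.log q) / (q * Real.log a) := by
      rw [← mul_div_assoc, div_div]
    rw [e1, div_le_div_iff₀ (by linarith) (by positivity)]
    have hlq : 0 ≤ Real.log q := Real.log_nonneg (by linarith)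
    have h3 : (q : ℝ) * Real.log a ≤ q * Real.log q :=
      mul_le_mul_of_nonneg_left hqa (by linarith)
    have h4 : (q : ℝ) * Real.log q ≤ 2 * Real.log q * (q - 1) := by
      nlinarith
    linarith
  have h1 : Sq ((Ioc a b).filter Nat.Prime) ≤
      2 * (∑ q ∈ (Ioc a b).filter Nat.Prime, Real.log q / q) / Real.log a := by
    rw [Finset.mul_sum, Finset.sum_div]
    exact Finset.sum_le_sum hterm
  refine le_trans h1 ?_
  rw [div_le_one hlapos]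
  linarith

theorem s2_k (k : ℕ) (hk : 2 ≤ k) : ∃ X₀ : ℕ, ∀ X : ℕ, X₀ ≤ X →
    0 ≤ S2 (Qk k X) ∧ S2 (Qk k X) ≤ 2 * (X : ℝ) ^ (-(154 / 100 * ek k)) := by
  obtain ⟨X₁, hX₁⟩ := squ_fac k hk
  obtain ⟨X₂, hX₂⟩ := sq_up k hk
  refine ⟨max X₁ X₂, fun X hX => ?_⟩
  obtain ⟨hX0, -, -, -, -, -, -, -, h2⟩ := hX₁ X ((le_max_left _ _).trans hX)
  have hup := hX₂ X ((le_max_right _ _).trans hX)
  refine ⟨Finset.sum_nonneg fun q _ => by positivity, ?_⟩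
  have h3 : ∀ q ∈ Qk k X, 1 / ((q : ℝ) - 1) ^ 2 ≤
      2 * (X : ℝ) ^ (-(154 / 100 * ek k)) * (1 / ((q : ℝ) - 1)) := by
    intro q hq
    rw [Qk, Finset.mem_filter, Finset.mem_Ioc] at hq
    have h4 : (X : ℝ) ^ (154 / 100 * ek k) < q := Nat.lt_of_floor_lt hq.1.1
    have h5 : (X : ℝ) ^ (154 / 100 * ek k) / 2 ≤ (q : ℝ) - 1 := by linarith
    have h6 : (0 : ℝ) < (q : ℝ) - 1 := by linarith
    have h7 : 1 / ((q : ℝ) - 1) ≤ 2 * (X : ℝ) ^ (-(154 / 100 * ek k)) := by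
      rw [Real.rpow_neg hX0.le, div_le_iff₀ h6]
      have h8 : (0 : ℝ) < (X : ℝ) ^ (154 / 100 * ek k) := by positivity
      have h9 : 2 * ((X : ℝ) ^ (154 / 100 * ek k))⁻¹ * ((X : ℝ) ^ (154 / 100 * ek k) / 2) = 1 := by
        field_simp
      have h10 : 2 * ((X : ℝ) ^ (154 / 100 * ek k))⁻¹ * ((X : ℝ) ^ (154 / 100 * ek k) / 2) ≤
          2 * ((X : ℝ) ^ (154 / 100 * ek k))⁻¹ * ((q : ℝ) - 1) :=
        mul_le_mul_of_nonneg_left h5 (by positivity)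
      linarith
    have e1 : 1 / ((q : ℝ) - 1) ^ 2 = 1 / ((q : ℝ) - 1) * (1 / ((q : ℝ) - 1)) := by
      rw [div_mul_div_comm, one_mul, sq]
    rw [e1]
    exact mul_le_mul_of_nonneg_right h7 (by positivity)
  have h4 : S2 (Qk k X) ≤ 2 * (X : ℝ) ^ (-(154 / 100 * ek k)) * Sq (Qk k X) := by
    unfold S2 Sq
    rw [Finset.mul_sum]
    exact Finset.sum_le_sum h3
  refine h4.trans ?_
  have h5 : (0 : ℝ) ≤ 2 * (X : ℝ) ^ (-(154 / 100 * ek k)) := by positivity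
  nlinarith

end Pool.Agent.H2.LP
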