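import Pool.Agent.H2.LP.Defs
import Pool.Agent.H67.VU.Pnt3

/-!
[H2 LP THE]  The primes in the window.

Proof.  `A = Aw X`, `B = Bw X`, `B - A = 2 (X/4)` (natural division), between `X/2 - 2` and `X/2`.
`theta A B (ww X) = ∑_{n ∈ Ioc A B} pl n = θ(B) - θ(A)` (`H67.VU.pnt3_theta`), and
`Pool.Agent.H5.PNT.theta_tendsto` (`θ(x)/x → 1`): `|θ(x) - x| ≤ x/100` for large `x`, `A, B ≤ 2X`:
`X/2 - 2 - X/25 ≤ theta ≤ X/2 + X/25`.
-/

namespace Pool.Agent.H2.LP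

open Finset Filter Pool.Agent.H67.VS Pool.Agent.H48.OM

theorem theta_k : ∃ X₀ : ℕ, ∀ X : ℕ, X₀ ≤ X →
    (X : ℝ) / 5 ≤ theta (Aw X) (Bw X) (ww X) ∧ theta (Aw X) (Bw X) (ww X) ≤ X := by
  have h2 : ∀ᶠ x : ℝ in atTop, |Chebyshev.theta x / x - 1| < 1 / 100 := by
    have h3 := Metric.tendsto_nhds.1 Pool.Agent.H5.PNT.theta_tendsto (1 / 100) (by norm_num)
    filter_upwards [h3] with x hx
    rwa [Real.dist_eq] at hx
  obtain ⟨x0, hx0⟩ := eventually_atTop.1 h2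
  have hb : ∀ y : ℝ, x0 ≤ y → 0 < y → |Chebyshev.theta y - y| ≤ 1 / 100 * y := by
    intro y hy hy0
    have h3 := (hx0 y hy).le
    have h4 : Chebyshev.theta y - y = (Chebyshev.theta y / y - 1) * y := by
      field_simp
    rw [h4, abs_mul, abs_of_pos hy0]
    exact mul_le_mul_of_nonneg_right h3 hy0.le
  refine ⟨max ⌈x0⌉₊ 20, fun X hX => ?_⟩
  have hX1 : x0 ≤ (X : ℝ) := (Nat.le_ceil x0).trans (by exact_mod_cast (le_max_left _ _).trans hX)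
  have hX2 : 20 ≤ X := (le_max_right _ _).trans hX
  have hXR : (20 : ℝ) ≤ X := by exact_mod_cast hX2
  have hdiv : X / 4 * 4 ≤ X ∧ X ≤ X / 4 * 4 + 3 := by omega
  have hd1 : ((X / 4 : ℕ) : ℝ) * 4 ≤ X := by exact_mod_cast hdiv.1
  have hd2 : (X : ℝ) ≤ ((X / 4 : ℕ) : ℝ) * 4 + 3 := by exact_mod_cast hdiv.2
  have hAB : Aw X ≤ Bw X := by
    unfold Aw Bw
    omega
  have hA : (Aw X : ℝ) = X + ((X / 4 : ℕ) : ℝ) := by
    unfold Aw
    push_cast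
    ring
  have hB : (Bw X : ℝ) = X + 3 * ((X / 4 : ℕ) : ℝ) := by
    unfold Bw
    push_cast
    ring
  have hθ : theta (Aw X) (Bw X) (ww X) = Chebyshev.theta (Bw X : ℝ) - Chebyshev.theta (Aw X : ℝ) := by
    rw [Pool.Agent.H67.VU.pnt3_theta _ _ hAB, theta]
    refine sum_congr rfl fun n hn => ?_
    rw [ww, if_pos hn, one_mul]
  have hq : (0 : ℝ) ≤ ((X / 4 : ℕ) : ℝ) := Nat.cast_nonneg _
  have h5 := abs_le.1 (hb (Bw X) (by rw [hB]; linarith) (by rw [hB]; linarith))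
  have h6 := abs_le.1 (hb (Aw X) (by rw [hA]; linarith) (by rw [hA]; linarith))
  rw [hθ]
  rw [hB] at h5
  rw [hA] at h6
  rw [hA, hB]
  constructor <;> linarith [h5.1, h5.2, h6.1, h6.2]

end Pool.Agent.H2.LP
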