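import Pool.Agent.H2.LP.Par
import Pool.Agent.H2.LP.Squ
import Pool.Agent.H2.LP.Csb
import Pool.Agent.H2.LP.The
import Pool.Agent.H48.OM.Cross
import Pool.Agent.H48.OM.Cov3

/-!
[H2 LP CRS]  The cross moment and the mean of `PH`.

Notation `e = ek k`, `A = Aw X`, `B = Bw X`, `L = Lk k H`, `Q = Qk k X`, `Y = Yk k X`, `Θ = theta A B (ww X)`.
Proof of `cross_k`.  `cross_raw` (`Pool/Agent/H48/OM/Cross.lean`) with `par_k`, `ww_wt`; `ww X = 1` on `Ioc A B`.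
Main term `H Sq Θ ≥ H (1/30) (X/5) = H X/150` (`sq_lo`, `theta_k`).  Errors, each `≤ H X/10000` for large `X`
(`H ≤ X^e`, `L^2 ≤ L^4 ≤ X^(e/100)` by `lk_k`, `card_k`, `s2_k`, `cs_k` with `η = e/10`, `e ≤ 1/20`):
* `9 H^3 L^2 |Q| log(B+H) ≤ H X * 9 X^(2e + e/100 + 1.6e - 1) log(3X)`, exponent `≤ -1/2`;
* `H^2 L^2 S2 Θ ≤ H X * 2 X^(e + e/100 - 1.54 e)`, exponent `≤ -e/2`;
* `4 H^2 L^2/Y CS ≤ H X * 8 X^(e + e/100 - 1.54 e + e/10)`, exponent `≤ -e/4`.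
All powers `X^(-c e)` are small because `X^e ≥ H ≥ X₀`.
Proof of `mean_k`.  `mean_sum` (`Pool/Agent/H48/OM/Cov3.lean`): `3 H^2 log(B+H) ≤ 3 X^(1/10) log(3X) ≤ X^(1/5)`.
-/

namespace Pool.Agent.H2.LP

open Finset Pool.Agent.H67.VS Pool.Agent.H48.OM

/-- a negative power is small -/
private theorem neg_pow (c δ : ℝ) (hc : 0 < c) (hδ : 0 < δ) : ∃ X₀ : ℕ, 1 ≤ X₀ ∧ ∀ V : ℝ,
    (X₀ : ℝ) ≤ V → V ^ (-c) ≤ δ := by
  have h1 := (tendsto_rpow_neg_atTop hc).eventually_le_const hδ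
  obtain ⟨x0, hx0⟩ := Filter.eventually_atTop.1 h1
  refine ⟨max ⌈x0⌉₊ 1, le_max_right _ _, fun V hV => hx0 V ?_⟩
  refine (Nat.le_ceil x0).trans (le_trans ?_ hV)
  exact_mod_cast le_max_left _ _

/-- `log (3 x) ≤ 8 x^(1/5)` -/
private theorem log_le' {x : ℝ} (hx : 1 ≤ x) : Real.log (3 * x) ≤ 8 * x ^ (1 / 5 : ℝ) := by
  have h1 : 1 ≤ x ^ (1 / 5 : ℝ) := Real.one_le_rpow hx (by norm_num)
  have h2 := Real.log_le_rpow_div (by linarith : (0 : ℝ) ≤ x) (by norm_num : (0 : ℝ) < 1 / 5)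
  have h3 : Real.log 3 ≤ 3 := (Real.log_le_sub_one_of_pos (by norm_num)).trans (by norm_num)
  rw [Real.log_mul (by norm_num) (by linarith)]
  have h4 : x ^ (1 / 5 : ℝ) / (1 / 5) = 5 * x ^ (1 / 5 : ℝ) := by ring
  rw [h4] at h2
  linarith

theorem cross_k (k : ℕ) (hk : 2 ≤ k) : ∃ X₀ : ℕ, ∀ X H : ℕ, Big k X₀ X H → ∀ ρ : ℕ → ℝ,
    SW (Lk k H) ρ →
    (H : ℝ) * X / 200 ≤ ∑ x ∈ Ioc (Aw X) (Bw X), PH H x * gk k X H ρ x := by
  have he := ek_pos hk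
  have he' := ek_le k
  obtain ⟨X1, h1⟩ := lk_k k hk
  obtain ⟨X2, h2⟩ := par_k k hk
  obtain ⟨X3, h3⟩ := card_k k hk
  obtain ⟨X4, h4⟩ := sq_lo k hk
  obtain ⟨X5, h5⟩ := s2_k k hk
  obtain ⟨X6, h6⟩ := cs_k (ek k / 10) (by positivity)
  obtain ⟨X7, h7⟩ := theta_k
  obtain ⟨X8, h8p, h8⟩ := neg_pow (1 / 4) (1 / (1800 * 72)) (by norm_num) (by norm_num)
  refine ⟨X1 + X2 + X3 + X4 + X5 + X6 + X7 + X8, fun X H hB ρ hρ => ?_⟩
  have hXH : H ≤ X := hB.le hk (by omega)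
  have hH0 := hB.1
  obtain ⟨l1, l2, l3, l4, l5⟩ := h1 X H (hB.mono (by omega))
  have hP := h2 X H (hB.mono (by omega))
  have hcard := h3 X (by omega)
  have hsq := h4 X (by omega)
  obtain ⟨s1, s2⟩ := h5 X (by omega)
  obtain ⟨c1, c2⟩ := h6 X (by omega)
  obtain ⟨t1, t2⟩ := h7 X (by omega)
  have hH1 : (1 : ℝ) ≤ H := by exact_mod_cast (by omega : 1 ≤ H)
  have hX1 : (1 : ℝ) ≤ X := by exact_mod_cast (by omega : 1 ≤ X)
  have hXr : (0 : ℝ) < X := by linarith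
  obtain ⟨V, hV⟩ : ∃ V, V = (X : ℝ) ^ ek k := ⟨_, rfl⟩
  have hHV : (H : ℝ) ≤ V := by rw [hV]; exact hB.2
  have hV1 : 1 ≤ V := hH1.trans hHV
  have hV0 : 0 < V := by linarith
  have hX8 : (X8 : ℝ) ≤ V := le_trans (by exact_mod_cast (by omega : X8 ≤ H)) hHV
  have hXV : ∀ c : ℝ, (X : ℝ) ^ (c * ek k) = V ^ c := by
    intro c
    rw [hV, ← Real.rpow_mul hXr.le]
    congr 1
    ring
  have hraw := cross_raw hP (ww_wt X) hρ
  have hsum : ∑ x ∈ Ioc (Aw X) (Bw X), ww X x * (PH H x * gH ρ (Lk k H) (Qk k X) H x) =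
      ∑ x ∈ Ioc (Aw X) (Bw X), PH H x * gk k X H ρ x := by
    refine sum_congr rfl fun x hx => ?_
    rw [ww, if_pos hx, one_mul, gk]
  rw [hsum] at hraw
  obtain ⟨L, hL⟩ : ∃ L : ℝ, L = (Lk k H : ℝ) := ⟨_, rfl⟩
  have hLL : (Lk k H : ℝ) = L := hL.symm
  rw [hLL] at hraw l2 l3 l4 l5
  have hL1 : 1 ≤ L := by
    rw [hL]
    exact_mod_cast (by omega : 1 ≤ Lk k H)
  have hL2 : L ^ 2 ≤ V ^ (1 / 100 : ℝ) := by
    have e1 : L ^ 2 ≤ L ^ 4 := pow_le_pow_right₀ hL1 (by norm_num)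
    have e2 : (X : ℝ) ^ (ek k / 100) = V ^ (1 / 100 : ℝ) := by
      rw [← hXV]
      congr 1
      ring
    rw [← e2]
    exact e1.trans l3
  have hL20 : 0 ≤ L ^ 2 := by positivity
  have hmain : (H : ℝ) * X / 150 ≤ H * Sq (Qk k X) * theta (Aw X) (Bw X) (ww X) := by
    have e1 : (1 / 30 : ℝ) * (X / 5) ≤ Sq (Qk k X) * theta (Aw X) (Bw X) (ww X) :=
      mul_le_mul hsq t1 (by positivity) (by linarith)
    calc (H : ℝ) * X / 150 = H * ((1 / 30 : ℝ) * (X / 5)) := by ring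
      _ ≤ H * (Sq (Qk k X) * theta (Aw X) (Bw X) (ww X)) :=
        mul_le_mul_of_nonneg_left e1 (by linarith)
      _ = _ := by ring
  -- the small number
  have hsm : V ^ (-(1 / 4) : ℝ) ≤ 1 / (1800 * 72) := h8 V hX8
  have hsm2 : ∀ c : ℝ, c ≤ -(1 / 4) → V ^ c ≤ 1 / (1800 * 72) := fun c hc =>
    (Real.rpow_le_rpow_of_exponent_le hV1 hc).trans hsm
  have hVX : ∀ c : ℝ, 0 ≤ c → V ^ c ≤ (X : ℝ) ^ (c / 20) := by
    intro c hc
    rw [← hXV]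
    apply Real.rpow_le_rpow_of_exponent_le hX1
    nlinarith
  have hVleX : V ≤ X := by
    have := hVX 1 (by norm_num)
    rw [Real.rpow_one] at this
    refine this.trans ?_
    calc (X : ℝ) ^ (1 / 20 : ℝ) ≤ (X : ℝ) ^ (1 : ℝ) :=
          Real.rpow_le_rpow_of_exponent_le hX1 (by norm_num)
      _ = X := Real.rpow_one _
  have hsmX : (X : ℝ) ^ (-(1 / 4) : ℝ) ≤ 1 / (1800 * 72) := h8 X (hX8.trans hVleX)
  -- first error
  have E1 : 9 * (H : ℝ) ^ 3 * L ^ 2 * (Qk k X).card * Real.log (Bw X + H) ≤ H * X / 1800 := by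
    have e1 : (H : ℝ) ^ 2 ≤ V ^ (2 : ℝ) := by
      rw [Real.rpow_two]
      exact pow_le_pow_left₀ (by linarith) hHV 2
    have e2 : ((Qk k X).card : ℝ) ≤ V ^ (160 / 100 : ℝ) := by
      rw [← hXV]
      exact hcard
    have hBX : (Bw X : ℝ) ≤ 2 * X := by
      have : Bw X ≤ 2 * X := by
        unfold Bw
        omega
      exact_mod_cast this
    have hB0 : (0 : ℝ) ≤ Bw X := Nat.cast_nonneg _
    have hHX : (H : ℝ) ≤ X := by exact_mod_cast hXH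
    have e3 : Real.log (Bw X + H) ≤ 8 * (X : ℝ) ^ (1 / 5 : ℝ) := by
      refine (Real.log_le_log (by linarith) (by linarith)).trans (log_le' hX1)
    have e30 : 0 ≤ Real.log (Bw X + H) := Real.log_nonneg (by linarith)
    have e4 : (H : ℝ) ^ 2 * L ^ 2 * (Qk k X).card ≤ (X : ℝ) ^ (2 / 10 : ℝ) := by
      calc (H : ℝ) ^ 2 * L ^ 2 * (Qk k X).card ≤ V ^ (2 : ℝ) * V ^ (1 / 100 : ℝ) * V ^ (160 / 100 : ℝ) :=
            mul_le_mul (mul_le_mul e1 hL2 hL20 (by positivity)) e2 (Nat.cast_nonneg _)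
              (by positivity)
        _ = V ^ (2 + 1 / 100 + 160 / 100 : ℝ) := by
          rw [Real.rpow_add hV0, Real.rpow_add hV0]
        _ ≤ (X : ℝ) ^ ((2 + 1 / 100 + 160 / 100 : ℝ) / 20) := hVX _ (by norm_num)
        _ ≤ (X : ℝ) ^ (2 / 10 : ℝ) := Real.rpow_le_rpow_of_exponent_le hX1 (by norm_num)
    have e5 : (H : ℝ) ^ 2 * L ^ 2 * (Qk k X).card * Real.log (Bw X + H) ≤
        (X : ℝ) ^ (2 / 10 : ℝ) * (8 * (X : ℝ) ^ (1 / 5 : ℝ)) :=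
      mul_le_mul e4 e3 e30 (by positivity)
    have e6 : (X : ℝ) ^ (2 / 10 : ℝ) * (8 * (X : ℝ) ^ (1 / 5 : ℝ)) =
        8 * ((X : ℝ) ^ (-(3 / 5) : ℝ) * X) := by
      have : (X : ℝ) ^ (-(3 / 5) : ℝ) * X = (X : ℝ) ^ (2 / 10 + 1 / 5 : ℝ) := by
        rw [← Real.rpow_add_one hXr.ne']
        congr 1
        norm_num
      rw [this, Real.rpow_add hXr]
      ring
    have e7 : (X : ℝ) ^ (-(3 / 5) : ℝ) ≤ 1 / (1800 * 72) :=
      (Real.rpow_le_rpow_of_exponent_le hX1 (by norm_num)).trans hsmX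
    have e8 : (X : ℝ) ^ (-(3 / 5) : ℝ) * X ≤ 1 / (1800 * 72) * X :=
      mul_le_mul_of_nonneg_right e7 hXr.le
    calc 9 * (H : ℝ) ^ 3 * L ^ 2 * (Qk k X).card * Real.log (Bw X + H)
        = 9 * H * ((H : ℝ) ^ 2 * L ^ 2 * (Qk k X).card * Real.log (Bw X + H)) := by ring
      _ ≤ 9 * H * (8 * ((X : ℝ) ^ (-(3 / 5) : ℝ) * X)) := by
        rw [← e6]
        exact mul_le_mul_of_nonneg_left e5 (by linarith)
      _ ≤ 9 * H * (8 * (1 / (1800 * 72) * X)) := by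
        apply mul_le_mul_of_nonneg_left _ (by linarith)
        linarith
      _ = H * X / 1800 := by ring
  -- second error
  have E2 : (H : ℝ) ^ 2 * L ^ 2 * S2 (Qk k X) * theta (Aw X) (Bw X) (ww X) ≤ H * X / 1800 := by
    have e1 : S2 (Qk k X) ≤ 2 * V ^ (-(154 / 100) : ℝ) := by
      have : (X : ℝ) ^ (-(154 / 100 * ek k)) = V ^ (-(154 / 100) : ℝ) := by
        rw [← hXV]
        congr 1
        ring
      rw [← this]
      exact s2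
    have e2 : (H : ℝ) * L ^ 2 * S2 (Qk k X) ≤ V * V ^ (1 / 100 : ℝ) * (2 * V ^ (-(154 / 100) : ℝ)) :=
      mul_le_mul (mul_le_mul hHV hL2 hL20 hV0.le) e1 s1 (by positivity)
    have e3 : V * V ^ (1 / 100 : ℝ) * (2 * V ^ (-(154 / 100) : ℝ)) = 2 * V ^ (-(53 / 100) : ℝ) := by
      have : V ^ (-(53 / 100) : ℝ) = V ^ (1 : ℝ) * V ^ (1 / 100 : ℝ) * V ^ (-(154 / 100) : ℝ) := by
        rw [← Real.rpow_add hV0, ← Real.rpow_add hV0]
        congr 1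
        norm_num
      rw [this, Real.rpow_one]
      ring
    have e4 := hsm2 (-(53 / 100)) (by norm_num)
    calc (H : ℝ) ^ 2 * L ^ 2 * S2 (Qk k X) * theta (Aw X) (Bw X) (ww X)
        = H * ((H : ℝ) * L ^ 2 * S2 (Qk k X)) * theta (Aw X) (Bw X) (ww X) := by ring
      _ ≤ H * (2 * V ^ (-(53 / 100) : ℝ)) * X := by
        rw [← e3]
        apply mul_le_mul (mul_le_mul_of_nonneg_left e2 (by linarith)) t2 (by linarith)
        positivity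
      _ ≤ H * (2 * (1 / (1800 * 72))) * X := by
        apply mul_le_mul_of_nonneg_right _ hXr.le
        apply mul_le_mul_of_nonneg_left _ (by linarith)
        linarith
      _ ≤ H * X / 1800 := by
        have : 0 ≤ (H : ℝ) * X := by positivity
        nlinarith
  -- third error
  have E3 : 4 * (H : ℝ) ^ 2 * L ^ 2 / Yk k X * CS (Aw X) (Bw X) (ww X) (Rk X) ≤ H * X / 1800 := by
    have hY : Yk k X = V ^ (154 / 100 : ℝ) / 2 := by
      rw [Yk, hXV]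
    have e1 : (X : ℝ) ^ (1 + ek k / 10) = X * V ^ (1 / 10 : ℝ) := by
      rw [Real.rpow_add hXr, Real.rpow_one, ← hXV]
      congr 2
      ring
    rw [e1] at c2
    have e2 : 4 * (H : ℝ) ^ 2 * L ^ 2 / Yk k X = 8 * H * ((H : ℝ) * L ^ 2 * V ^ (-(154 / 100) : ℝ)) := by
      rw [hY, Real.rpow_neg hV0.le]
      field_simp
      ring
    have e3 : (H : ℝ) * L ^ 2 * V ^ (-(154 / 100) : ℝ) ≤
        V * V ^ (1 / 100 : ℝ) * V ^ (-(154 / 100) : ℝ) :=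
      mul_le_mul_of_nonneg_right (mul_le_mul hHV hL2 hL20 hV0.le) (by positivity)
    have e4 : V * V ^ (1 / 100 : ℝ) * V ^ (-(154 / 100) : ℝ) * V ^ (1 / 10 : ℝ) =
        V ^ (-(43 / 100) : ℝ) := by
      have : V ^ (-(43 / 100) : ℝ) =
          V ^ (1 : ℝ) * V ^ (1 / 100 : ℝ) * V ^ (-(154 / 100) : ℝ) * V ^ (1 / 10 : ℝ) := by
        rw [← Real.rpow_add hV0, ← Real.rpow_add hV0, ← Real.rpow_add hV0]
        congr 1
        norm_num
      rw [this, Real.rpow_one]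
    have e5 := hsm2 (-(43 / 100)) (by norm_num)
    rw [e2]
    calc 8 * H * ((H : ℝ) * L ^ 2 * V ^ (-(154 / 100) : ℝ)) * CS (Aw X) (Bw X) (ww X) (Rk X)
        ≤ 8 * H * (V * V ^ (1 / 100 : ℝ) * V ^ (-(154 / 100) : ℝ)) * (X * V ^ (1 / 10 : ℝ)) := by
          apply mul_le_mul (mul_le_mul_of_nonneg_left e3 (by linarith)) c2 c1
          positivity
      _ = 8 * H * X * (V * V ^ (1 / 100 : ℝ) * V ^ (-(154 / 100) : ℝ) * V ^ (1 / 10 : ℝ)) := by ring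
      _ = 8 * H * X * V ^ (-(43 / 100) : ℝ) := by rw [e4]
      _ ≤ 8 * H * X * (1 / (1800 * 72)) := mul_le_mul_of_nonneg_left e5 (by positivity)
      _ ≤ H * X / 1800 := by
        have : 0 ≤ (H : ℝ) * X := by positivity
        nlinarith
  have h9 := (abs_le.1 hraw).1
  have h10 : (H : ℝ) * X / 150 - H * X / 200 = 3 * (H * X / 1800) := by ring
  linarith

theorem mean_k (k : ℕ) (hk : 2 ≤ k) : ∃ X₀ : ℕ, ∀ X H : ℕ, Big k X₀ X H →
    |∑ x ∈ Ioc (Aw X) (Bw X), PH H x - H * theta (Aw X) (Bw X) (ww X)| ≤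
      (X : ℝ) ^ (1 / 5 : ℝ) := by
  have he := ek_pos hk
  have he' := ek_le k
  have h1 := (isLittleO_log_rpow_atTop (by norm_num : (0 : ℝ) < 1 / 10)).bound
    (by norm_num : (0 : ℝ) < 1 / 12)
  obtain ⟨x1, hx1⟩ := Filter.eventually_atTop.1 h1
  have h2 := (tendsto_rpow_atTop (by norm_num : (0 : ℝ) < 1 / 10)).eventually_ge_atTop 36
  obtain ⟨x2, hx2⟩ := Filter.eventually_atTop.1 h2
  refine ⟨⌈x1⌉₊ + ⌈x2⌉₊ + 1, fun X H hB => ?_⟩
  have hXH : H ≤ X := hB.le hk (by omega)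
  have hH0 := hB.1
  have hH1 : (1 : ℝ) ≤ H := by exact_mod_cast (by omega : 1 ≤ H)
  have hX1 : (1 : ℝ) ≤ X := by exact_mod_cast (by omega : 1 ≤ X)
  have hXr : (0 : ℝ) < X := by linarith
  have hHX : (H : ℝ) ≤ X := by exact_mod_cast hXH
  have hAX : H ≤ Aw X := by
    unfold Aw
    omega
  have hsum : ∑ x ∈ Ioc (Aw X) (Bw X), ww X x * PH H x = ∑ x ∈ Ioc (Aw X) (Bw X), PH H x := by
    refine sum_congr rfl fun x hx => ?_
    rw [ww, if_pos hx, one_mul]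
  have h3 := mean_sum (ww_wt X) hAX (by omega : 1 ≤ H)
  rw [hsum] at h3
  refine h3.trans ?_
  have e1 : (H : ℝ) ^ 2 ≤ (X : ℝ) ^ (1 / 10 : ℝ) := by
    calc (H : ℝ) ^ 2 ≤ ((X : ℝ) ^ ek k) ^ 2 := pow_le_pow_left₀ (by linarith) hB.2 2
      _ = (X : ℝ) ^ (ek k * 2) := by
        rw [← Real.rpow_natCast ((X : ℝ) ^ ek k), ← Real.rpow_mul hXr.le]
        norm_num
      _ ≤ (X : ℝ) ^ (1 / 10 : ℝ) := Real.rpow_le_rpow_of_exponent_le hX1 (by linarith)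
  have hBX : (Bw X : ℝ) ≤ 2 * X := by
    have : Bw X ≤ 2 * X := by
      unfold Bw
      omega
    exact_mod_cast this
  have hB0 : (0 : ℝ) ≤ Bw X := Nat.cast_nonneg _
  have g1 : x1 ≤ (X : ℝ) := (Nat.le_ceil x1).trans (by exact_mod_cast (by omega : ⌈x1⌉₊ ≤ X))
  have g2 : x2 ≤ (X : ℝ) := (Nat.le_ceil x2).trans (by exact_mod_cast (by omega : ⌈x2⌉₊ ≤ X))
  have g3 := hx1 X g1
  have g4 := hx2 X g2
  rw [Real.norm_of_nonneg (Real.log_nonneg hX1), Real.norm_of_nonneg (by positivity)] at g3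
  have e2 : Real.log (Bw X + H) ≤ 1 / 3 * (X : ℝ) ^ (1 / 10 : ℝ) := by
    have e3 : Real.log (Bw X + H) ≤ Real.log (3 * X) :=
      Real.log_le_log (by linarith) (by linarith)
    have e4 : Real.log 3 ≤ 3 := (Real.log_le_sub_one_of_pos (by norm_num)).trans (by norm_num)
    rw [Real.log_mul (by norm_num) (by linarith)] at e3
    linarith
  have e20 : 0 ≤ Real.log (Bw X + H) := Real.log_nonneg (by linarith)
  calc 3 * (H : ℝ) ^ 2 * Real.log (Bw X + H) ≤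
        3 * (X : ℝ) ^ (1 / 10 : ℝ) * (1 / 3 * (X : ℝ) ^ (1 / 10 : ℝ)) := by
        apply mul_le_mul _ e2 e20 (by positivity)
        linarith
    _ = (X : ℝ) ^ (1 / 10 : ℝ) * (X : ℝ) ^ (1 / 10 : ℝ) := by ring
    _ = (X : ℝ) ^ (1 / 5 : ℝ) := by
      rw [← Real.rpow_add hXr]
      norm_num

end Pool.Agent.H2.LP
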