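import Pool.Agent.H48.OM.Defs
import Pool.Agent.H67.VU.Defs

/-!
[H2 LP DEFS]  MP_31d0eb_nt: two-sided L^p lower bounds for the error term of the number of primes
in short intervals, p > 1.

Parameters.  `k ≥ 2`, `p0 = k/(k-1)`, `e = ek k`, `X` natural, `1 ≤ H ≤ X^e`, sharp window
`Ioc (Aw X) (Bw X)` in the middle of `(X, 2X]`, `Q = Qk k X` the primes in
`(X^(154 e/100), X^(160 e/100)]`, Selberg weights of level `L = Lk k H = ⌊H^(1/(200 k))⌋`.
-/

namespace Pool.Agent.H2.LP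

open Finset Pool.Agent.H67.VS Pool.Agent.H48.OM

/-- exponent of the largest `H` -/
noncomputable def ek (k : ℕ) : ℝ := min (1 / 20) (1 / (6 * k))

/-- lower end of the window -/
def Aw (X : ℕ) : ℕ := X + X / 4

/-- upper end of the window -/
def Bw (X : ℕ) : ℕ := X + 3 * (X / 4)

/-- the indicator function of the window -/
noncomputable def ww (X n : ℕ) : ℝ := if n ∈ Ioc (Aw X) (Bw X) then 1 else 0

/-- the large primes -/
noncomputable def Qk (k X : ℕ) : Finset ℕ :=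
  (Ioc ⌊(X : ℝ) ^ (154 / 100 * ek k)⌋₊ ⌊(X : ℝ) ^ (160 / 100 * ek k)⌋₊).filter Nat.Prime

/-- lower bound of `q - 1` -/
noncomputable def Yk (k X : ℕ) : ℝ := (X : ℝ) ^ (154 / 100 * ek k) / 2

/-- bound of the conductors -/
noncomputable def Rk (X : ℕ) : ℕ := ⌊(X : ℝ) ^ (33 / 200 : ℝ)⌋₊

/-- level of the Selberg weights -/
noncomputable def Lk (k H : ℕ) : ℕ := ⌊(H : ℝ) ^ (1 / (200 * k) : ℝ)⌋₊

/-- the range of the parameters: `X₀ ≤ H ≤ X^e` -/
def Big (k X₀ X H : ℕ) : Prop := X₀ ≤ H ∧ (H : ℝ) ≤ (X : ℝ) ^ ek k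

/-- the conjugate exponent `k/(k-1)` -/
noncomputable def p0 (k : ℕ) : ℝ := (k : ℝ) / ((k : ℝ) - 1)

/-- number of primes in `(n, n+H]` -/
noncomputable def pi1 (n H : ℕ) : ℝ := (((Ioc n (n + H)).filter Nat.Prime).card : ℝ)

/-- `(H log H)^(1/2)` -/
noncomputable def HL (H : ℕ) : ℝ := Real.sqrt (H * Real.log H)

/-- the test function with the Selberg weights `ρ` -/
noncomputable def gk (k X H : ℕ) (ρ : ℕ → ℝ) (x : ℕ) : ℝ := gH ρ (Lk k H) (Qk k X) H x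

theorem Big.mono {k a b X H : ℕ} (hab : a ≤ b) (h : Big k b X H) : Big k a X H :=
  ⟨hab.trans h.1, h.2⟩

theorem ek_pos {k : ℕ} (hk : 2 ≤ k) : 0 < ek k := by
  unfold ek
  have : (0 : ℝ) < k := by exact_mod_cast (by omega : 0 < k)
  exact lt_min (by norm_num) (by positivity)

theorem ek_le (k : ℕ) : ek k ≤ 1 / 20 := min_le_left _ _

theorem ek_le' (k : ℕ) : ek k ≤ 1 / (6 * k) := min_le_right _ _

/-- `X ≥ H` -/
theorem Big.le {k X₀ X H : ℕ} (hk : 2 ≤ k) (h : Big k X₀ X H) (hX₀ : 1 ≤ X₀) : H ≤ X := by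
  have hH : 1 ≤ H := hX₀.trans h.1
  have h1 : (1 : ℝ) ≤ (X : ℝ) ^ ek k := le_trans (by exact_mod_cast hH) h.2
  have hX : 1 ≤ X := by
    by_contra hX
    have hX0 : X = 0 := by omega
    rw [hX0, Nat.cast_zero, Real.zero_rpow (ek_pos hk).ne'] at h1
    linarith
  have hX1 : (1 : ℝ) ≤ X := by exact_mod_cast hX
  have h2 : (X : ℝ) ^ ek k ≤ (X : ℝ) ^ (1 : ℝ) :=
    Real.rpow_le_rpow_of_exponent_le hX1 ((ek_le k).trans (by norm_num))
  rw [Real.rpow_one] at h2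
  exact_mod_cast h.2.trans h2

end Pool.Agent.H2.LP
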