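import Pool.Agent.H2.LP.Par
import Pool.Agent.H2.LP.Squ
import Pool.Agent.H67.VS.Fp
import Pool.Agent.H96.MO.Fin

/-!
[H2 LP GMO]  The moments of the test function, and functions of bounded variation.

Uses helper96's chapter `Pool/Agent/H96/MO/Fin.lean` (proved): structure `Hyp ρ L Q H K V`, theorems `mom, bv1, bv2, fsh, sum_rho`,
with `K = L^2` (`sum_rho`) and `V = 2 H/log L` (`fsh`).
Proofs.  `e = ek k`, `2k e ≤ 1/3`, `e ≤ 1/20`.  `lk_k`: `log L ≥ log H/(400k)`, so `V ≤ 800 k H/log H`; `V` is admissible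
(`L^4 ≤ H/log L`, `9 L^4 ≤ V`) as `L^4 ≤ H^(1/100)` and `log L ≤ log H`; `∑_Q 1/q ≤ Sq ≤ 1` (`sq_up`).
`3 H L^2 |Q| ≤ 3 X^(e + e/100 + 1.6 e) ≤ 3 X^(2.61 e)`: `≤ X^(14/100)`, square `≤ X^(27/100)`, and the `2k`-th power
`≤ 3^(2k) X^(0.87) ≤ X^(9/10)` for large `X`, `≤ X (H/log H)^k`.
`gmom`: `C = 2 (2k)! e^4 (800 k)^k + 1`.  `gbv`: `C = 4 * 800 k`.  `gbv1` is `f_part` (`Pool/Agent/H67/VS/Fp.lean`).
-/

namespace Pool.Agent.H2.LP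

open Finset Pool.Agent.H67.VS Pool.Agent.H48.OM

private theorem gmo_rp (a C : ℝ) (ha : 0 < a) : ∃ X₀ : ℕ, ∀ X : ℕ, X₀ ≤ X → C ≤ (X : ℝ) ^ a :=
  Filter.eventually_atTop.1 (((tendsto_rpow_atTop ha).comp
    tendsto_natCast_atTop_atTop).eventually_ge_atTop C)

private theorem gmo_hyp (k : ℕ) (hk : 2 ≤ k) : ∃ X₀ : ℕ, 1 ≤ X₀ ∧ ∀ X H : ℕ, Big k X₀ X H →
    ∀ ρ : ℕ → ℝ, SW (Lk k H) ρ → ∃ V : ℝ, 0 < V ∧ V ≤ 800 * k * (H / Real.log H) ∧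
      Pool.Agent.H96.MO.Hyp ρ (Lk k H) (Qk k X) H ((Lk k H : ℝ) ^ 2) V ∧
      (∑ q ∈ Qk k X, 1 / (q : ℝ)) ≤ 1 ∧
      3 * (H : ℝ) * (Lk k H : ℝ) ^ 2 * (Qk k X).card ≤ 3 * (X : ℝ) ^ (2605 / 1000 * ek k) ∧
      1 ≤ (H : ℝ) / Real.log H ∧ (∀ q ∈ Qk k X, q.Prime ∧ Lk k H < q) := by
  obtain ⟨a1, ha1⟩ := lk_k k hk
  obtain ⟨a2, ha2⟩ := par_k k hk
  obtain ⟨a3, ha3⟩ := card_k k hk
  obtain ⟨a4, ha4⟩ := sq_up k hk
  obtain ⟨a5, ha5⟩ := gmo_rp (49 / 100) 9 (by norm_num)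
  obtain ⟨X₀, hX₀⟩ : ∃ X₀, X₀ = a1 + a2 + a3 + a4 + a5 + 3 := ⟨_, rfl⟩
  refine ⟨X₀, by omega, fun X H hB ρ hρ => ?_⟩
  have hHX : H ≤ X := hB.le hk (by omega)
  have hH0 : X₀ ≤ H := hB.1
  obtain ⟨l1, l2, l3, l4, l5⟩ := ha1 X H (hB.mono (by omega))
  have hpar := ha2 X H (hB.mono (by omega))
  have hcard := ha3 X (by omega)
  have hsq := ha4 X (by omega)
  have h9 := ha5 H (by omega)
  have he := ek_pos hk
  obtain ⟨L, hL⟩ : ∃ L : ℕ, L = Lk k H := ⟨_, rfl⟩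
  rw [← hL] at l1 l2 l3 l4 l5 hpar hρ ⊢
  have hk0 : (0 : ℝ) < k := by exact_mod_cast (by omega : 0 < k)
  have hH3 : (3 : ℝ) ≤ H := by exact_mod_cast (by omega : 3 ≤ H)
  have hX3 : (3 : ℝ) ≤ X := by exact_mod_cast (by omega : 3 ≤ X)
  have hHp : (0 : ℝ) < H := by linarith
  have hXp : (0 : ℝ) < X := by linarith
  have hL2 : (2 : ℝ) ≤ L := by exact_mod_cast l1
  have hlogL : 0 < Real.log L := Real.log_pos (by linarith)
  have hlogH : 0 < Real.log H := Real.log_pos (by linarith)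
  -- `log H ≤ 2 H ^ (1 / 2)`
  have hlog : Real.log H ≤ 2 * (H : ℝ) ^ (1 / 2 : ℝ) := by
    have := Real.log_le_rpow_div hHp.le (by norm_num : (0 : ℝ) < 1 / 2)
    refine this.trans (le_of_eq ?_)
    ring
  have hprod : 9 * ((L : ℝ) ^ 4 * Real.log L) ≤ 2 * H := by
    calc 9 * ((L : ℝ) ^ 4 * Real.log L) ≤ 9 * ((H : ℝ) ^ (1 / 100 : ℝ) * (2 * (H : ℝ) ^ (1 / 2 : ℝ))) := by
          have := l5.trans hlog
          gcongr
      _ = 2 * (9 * ((H : ℝ) ^ (1 / 100 : ℝ) * (H : ℝ) ^ (1 / 2 : ℝ))) := by ring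
      _ ≤ 2 * ((H : ℝ) ^ (49 / 100 : ℝ) * ((H : ℝ) ^ (1 / 100 : ℝ) * (H : ℝ) ^ (1 / 2 : ℝ))) := by
          gcongr
      _ = 2 * H := by
          rw [← Real.rpow_add hHp, ← Real.rpow_add hHp]
          norm_num
  have hK : 9 * ((L : ℝ) ^ 2) ^ 2 ≤ 2 * H / Real.log L := by
    rw [le_div_iff₀ hlogL]
    refine le_trans (le_of_eq ?_) hprod
    ring
  have hfs : (L : ℝ) ^ 4 ≤ H / Real.log L := by
    rw [le_div_iff₀ hlogL]
    have : 0 ≤ (L : ℝ) ^ 4 * Real.log L := by positivity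
    linarith
  refine ⟨2 * H / Real.log L, by positivity, ?_, ?_, ?_, ?_, ?_, ?_⟩
  · rw [div_le_iff₀ hlogL]
    have h1 : 800 * k * (H / Real.log H) * (Real.log H / (400 * k)) ≤
        800 * k * (H / Real.log H) * Real.log L := mul_le_mul_of_nonneg_left l4 (by positivity)
    refine le_trans (le_of_eq ?_) h1
    field_simp
    ring
  · refine ⟨hpar.prime, ?_, hpar.hHq, by positivity, by positivity,
      Pool.Agent.H96.MO.sum_rho hρ, Pool.Agent.H96.MO.fsh hρ l1 hfs, hK⟩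
    intro q hq
    exact lt_of_le_of_lt (Nat.le_self_pow (by norm_num) L) (hpar.hLq q hq)
  · refine le_trans (sum_le_sum fun q hq => ?_) hsq
    have hq2 : (2 : ℝ) ≤ q := by exact_mod_cast (hpar.prime q hq).two_le
    exact one_div_le_one_div_of_le (by linarith) (by linarith)
  · have hLL : (L : ℝ) ^ 2 ≤ (X : ℝ) ^ (ek k / 200) := by
      have h1 : ((X : ℝ) ^ (ek k / 200)) ^ 2 = (X : ℝ) ^ (ek k / 100) := by
        rw [← Real.rpow_natCast ((X : ℝ) ^ (ek k / 200)) 2, ← Real.rpow_mul hXp.le]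
        congr 1
        push_cast
        ring
      have h2 : ((L : ℝ) ^ 2) ^ 2 ≤ ((X : ℝ) ^ (ek k / 200)) ^ 2 := by
        rw [h1]
        refine le_trans (le_of_eq ?_) l3
        ring
      exact (pow_le_pow_iff_left₀ (by positivity) (by positivity) (by norm_num)).1 h2
    calc 3 * (H : ℝ) * (L : ℝ) ^ 2 * (Qk k X).card
        ≤ 3 * (X : ℝ) ^ ek k * (X : ℝ) ^ (ek k / 200) * (X : ℝ) ^ (160 / 100 * ek k) := by
          have := hB.2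
          gcongr
      _ = 3 * (X : ℝ) ^ (ek k + ek k / 200 + 160 / 100 * ek k) := by
          rw [Real.rpow_add hXp, Real.rpow_add hXp]
          ring
      _ = _ := by
          congr 2
          ring
  · rw [one_le_div hlogH]
    have := Real.log_le_sub_one_of_pos hHp
    linarith
  · intro q hq
    exact ⟨hpar.prime q hq, lt_of_le_of_lt (Nat.le_self_pow (by norm_num) L) (hpar.hLq q hq)⟩

theorem gmom (k : ℕ) (hk : 2 ≤ k) : ∃ C : ℝ, 0 < C ∧ ∃ X₀ : ℕ, ∀ X H : ℕ, Big k X₀ X H →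
    ∀ ρ : ℕ → ℝ, SW (Lk k H) ρ →
    ∑ x ∈ Ioc (Aw X) (Bw X), gk k X H ρ x ^ (2 * k) ≤ C * X * (H / Real.log H) ^ k := by
  obtain ⟨b1, hb1, hb⟩ := gmo_hyp k hk
  obtain ⟨b2, hb2⟩ := gmo_rp (13 / 100) (3 ^ (2 * k)) (by norm_num)
  have hk0 : (0 : ℝ) < k := by exact_mod_cast (by omega : 0 < k)
  refine ⟨2 * (2 * k).factorial * Real.exp 4 * (800 * k) ^ k + 1, by positivity, b1 + b2,
    fun X H hB ρ hρ => ?_⟩
  have hHX : H ≤ X := hB.le hk (by omega)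
  have hH0 : b1 + b2 ≤ H := hB.1
  obtain ⟨V, hV0, hV, hyp, hq, hbd, hHl, -⟩ := hb X H (hB.mono (by omega)) ρ hρ
  have hAB : Aw X ≤ Bw X := by unfold Aw Bw; omega
  have hmom := Pool.Agent.H96.MO.mom hyp k hAB
  have hX1 : (1 : ℝ) ≤ X := by exact_mod_cast (by omega : 1 ≤ X)
  have hXp : (0 : ℝ) < X := by linarith
  obtain ⟨h, hh⟩ : ∃ h : ℝ, h = H / Real.log H := ⟨_, rfl⟩
  rw [← hh] at hV hHl ⊢
  have hba : (Bw X : ℝ) - Aw X ≤ X := by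
    have : Bw X ≤ Aw X + X := by unfold Aw Bw; omega
    have : (Bw X : ℝ) ≤ Aw X + X := by exact_mod_cast this
    linarith
  have hba0 : 0 ≤ (Bw X : ℝ) - Aw X := by
    have : (Aw X : ℝ) ≤ Bw X := by exact_mod_cast hAB
    linarith
  have h1 : ((Bw X : ℝ) - Aw X) * (2 * (2 * k).factorial *
      Real.exp (4 * ∑ q ∈ Qk k X, 1 / (q : ℝ)) * V ^ k) ≤
      X * (2 * (2 * k).factorial * Real.exp 4 * ((800 * k) ^ k * h ^ k)) := by
    have e1 : Real.exp (4 * ∑ q ∈ Qk k X, 1 / (q : ℝ)) ≤ Real.exp 4 :=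
      Real.exp_le_exp.2 (by linarith)
    have e2 : V ^ k ≤ (800 * k) ^ k * h ^ k := by
      rw [← mul_pow]
      exact pow_le_pow_left₀ hV0.le hV k
    gcongr
  have h2 : (3 * (H : ℝ) * (Lk k H : ℝ) ^ 2 * (Qk k X).card) ^ (2 * k) ≤ X * h ^ k := by
    have e1 : (3 * (H : ℝ) * (Lk k H : ℝ) ^ 2 * (Qk k X).card) ^ (2 * k) ≤
        (3 * (X : ℝ) ^ (2605 / 1000 * ek k)) ^ (2 * k) :=
      pow_le_pow_left₀ (by positivity) hbd _
    have e2 : (3 * (X : ℝ) ^ (2605 / 1000 * ek k)) ^ (2 * k) =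
        3 ^ (2 * k) * (X : ℝ) ^ (2605 / 1000 * ek k * (2 * k)) := by
      rw [mul_pow, ← Real.rpow_natCast ((X : ℝ) ^ (2605 / 1000 * ek k)) (2 * k),
        ← Real.rpow_mul hXp.le]
      push_cast
      rfl
    have e3 : (X : ℝ) ^ (2605 / 1000 * ek k * (2 * k)) ≤ (X : ℝ) ^ (87 / 100 : ℝ) := by
      refine Real.rpow_le_rpow_of_exponent_le hX1 ?_
      have e4 : ek k * (2 * k) ≤ 1 / 3 := by
        have := mul_le_mul_of_nonneg_right (ek_le' k) (by positivity : (0 : ℝ) ≤ 2 * k)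
        refine this.trans (le_of_eq ?_)
        field_simp
        norm_num
      nlinarith
    have e5 := hb2 X (by omega)
    have e6 : (1 : ℝ) ≤ h ^ k := one_le_pow₀ hHl
    calc (3 * (H : ℝ) * (Lk k H : ℝ) ^ 2 * (Qk k X).card) ^ (2 * k)
        ≤ 3 ^ (2 * k) * (X : ℝ) ^ (2605 / 1000 * ek k * (2 * k)) := e1.trans (le_of_eq e2)
      _ ≤ (X : ℝ) ^ (13 / 100 : ℝ) * (X : ℝ) ^ (87 / 100 : ℝ) := by gcongr
      _ = X * 1 := by
          rw [← Real.rpow_add hXp]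
          norm_num
      _ ≤ X * h ^ k := by gcongr
  refine hmom.trans ((add_le_add h1 h2).trans (le_of_eq ?_))
  ring

theorem gbv (k : ℕ) (hk : 2 ≤ k) : ∃ C : ℝ, 0 < C ∧ ∃ X₀ : ℕ, ∀ X H : ℕ, Big k X₀ X H →
    ∀ ρ : ℕ → ℝ, SW (Lk k H) ρ → ∃ V2 : ℝ, 0 ≤ V2 ∧ V2 ≤ C * (H / Real.log H) ∧
    ∀ v : ℕ → ℝ, |∑ x ∈ Ioc (Aw X) (Bw X), v x * (gk k X H ρ x ^ 2 - V2)| ≤
      (X : ℝ) ^ (27 / 100 : ℝ) * (|v (Bw X)| + ∑ n ∈ Ioo (Aw X) (Bw X), |v (n + 1) - v n|) := by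
  obtain ⟨b1, hb1, hb⟩ := gmo_hyp k hk
  obtain ⟨b2, hb2⟩ := gmo_rp (5 / 1000) 9 (by norm_num)
  have hk0 : (0 : ℝ) < k := by exact_mod_cast (by omega : 0 < k)
  refine ⟨3200 * k, by positivity, b1 + b2, fun X H hB ρ hρ => ?_⟩
  have hHX : H ≤ X := hB.le hk (by omega)
  have hH0 : b1 + b2 ≤ H := hB.1
  obtain ⟨V, hV0, hV, hyp, hq, hbd, hHl, -⟩ := hb X H (hB.mono (by omega)) ρ hρ
  have hAB : Aw X ≤ Bw X := by unfold Aw Bw; omega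
  obtain ⟨V2, g1, g2, g3⟩ := Pool.Agent.H96.MO.bv2 hyp
  have hX1 : (1 : ℝ) ≤ X := by exact_mod_cast (by omega : 1 ≤ X)
  have hXp : (0 : ℝ) < X := by linarith
  refine ⟨V2, g1, ?_, fun v => ?_⟩
  · refine g2.trans ?_
    calc 4 * V * ∑ q ∈ Qk k X, 1 / (q : ℝ) ≤ 4 * V * 1 := by gcongr
      _ = 4 * V := by ring
      _ ≤ 4 * (800 * k * (H / Real.log H)) := by gcongr
      _ = _ := by ring
  · refine (g3 (Aw X) (Bw X) hAB v).trans ?_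
    refine mul_le_mul_of_nonneg_right ?_
      (add_nonneg (abs_nonneg _) (sum_nonneg fun _ _ => abs_nonneg _))
    have e5 := hb2 X (by omega)
    calc (3 * (H : ℝ) * (Lk k H : ℝ) ^ 2 * (Qk k X).card) ^ 2
        ≤ (3 * (X : ℝ) ^ (2605 / 1000 * ek k)) ^ 2 := pow_le_pow_left₀ (by positivity) hbd _
      _ = 9 * (X : ℝ) ^ (2605 / 1000 * ek k * 2) := by
          rw [mul_pow, ← Real.rpow_natCast ((X : ℝ) ^ (2605 / 1000 * ek k)) 2,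
            ← Real.rpow_mul hXp.le]
          norm_num
      _ ≤ (X : ℝ) ^ (5 / 1000 : ℝ) * (X : ℝ) ^ (265 / 1000 : ℝ) := by
          have e3 : (X : ℝ) ^ (2605 / 1000 * ek k * 2) ≤ (X : ℝ) ^ (265 / 1000 : ℝ) := by
            refine Real.rpow_le_rpow_of_exponent_le hX1 ?_
            have := ek_le k
            linarith
          gcongr
      _ = (X : ℝ) ^ (27 / 100 : ℝ) := by
          rw [← Real.rpow_add hXp]
          norm_num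

theorem gbv1 (k : ℕ) (hk : 2 ≤ k) : ∃ X₀ : ℕ, ∀ X H : ℕ, Big k X₀ X H →
    ∀ ρ : ℕ → ℝ, SW (Lk k H) ρ →
    ∀ v : ℕ → ℝ, |∑ x ∈ Ioc (Aw X) (Bw X), v x * gk k X H ρ x| ≤
      (X : ℝ) ^ (14 / 100 : ℝ) * (|v (Bw X)| + ∑ n ∈ Ioo (Aw X) (Bw X), |v (n + 1) - v n|) := by
  obtain ⟨b1, hb1, hb⟩ := gmo_hyp k hk
  obtain ⟨b2, hb2⟩ := gmo_rp (5 / 1000) 3 (by norm_num)
  refine ⟨b1 + b2, fun X H hB ρ hρ v => ?_⟩
  have hHX : H ≤ X := hB.le hk (by omega)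
  have hH0 : b1 + b2 ≤ H := hB.1
  obtain ⟨V, hV0, hV, hyp, hq, hbd, hHl, hQ⟩ := hb X H (hB.mono (by omega)) ρ hρ
  have hAB : Aw X ≤ Bw X := by unfold Aw Bw; omega
  have hX1 : (1 : ℝ) ≤ X := by exact_mod_cast (by omega : 1 ≤ X)
  have hXp : (0 : ℝ) < X := by linarith
  refine (f_part v hAB hρ hQ).trans ?_
  refine mul_le_mul_of_nonneg_right ?_
    (add_nonneg (abs_nonneg _) (sum_nonneg fun _ _ => abs_nonneg _))
  have e5 := hb2 X (by omega)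
  calc 3 * (H : ℝ) * (Lk k H : ℝ) ^ 2 * (Qk k X).card
      ≤ 3 * (X : ℝ) ^ (2605 / 1000 * ek k) := hbd
    _ ≤ (X : ℝ) ^ (5 / 1000 : ℝ) * (X : ℝ) ^ (135 / 1000 : ℝ) := by
        have e3 : (X : ℝ) ^ (2605 / 1000 * ek k) ≤ (X : ℝ) ^ (135 / 1000 : ℝ) := by
          refine Real.rpow_le_rpow_of_exponent_le hX1 ?_
          have := ek_le k
          linarith
        gcongr
    _ = (X : ℝ) ^ (14 / 100 : ℝ) := by
        rw [← Real.rpow_add hXp]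
        norm_num

end Pool.Agent.H2.LP
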