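import Pool.Agent.H2.LP.Par
import Pool.Agent.H2.LP.Squ
import Pool.Agent.H2.LP.Csb
import Pool.Agent.H2.LP.The
import Pool.Agent.H48.OM.Raw3
import Pool.Agent.H48.OM.SqAs

/-!
[H2 LP THI]  The third moment relative to the mean.

Notation `e = ek k ≤ 1/20`, `A = Aw X`, `B = Bw X ≤ 2X`, `L = Lk k H`, `Q = Qk k X`, `Y = Yk k X = X^(1.54 e)/2`,
`Θ = theta A B (ww X) ≤ X`, `M0 = mass A B (ww X) ∈ [X/3, X]`, `1/30 ≤ Sq ≤ 1`, `S2 ≤ 2 X^(-1.54 e)`, `K = 2 log X`,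
`CS ≤ X^(1 + e/100)` (`cs_k` with `η = e/100`), `L^4 ≤ X^(e/100)` and `L^4 ≤ H^(1/100)` (`lk_k`), `|Q| ≤ X^(1.6 e)`.
Proof (compare `fact_third` in `Pool/Agent/H48/OM/FactB.lean`).  `raw3`: `T3 = H^2 Sq Δ Θ + E1`, `sq_asym`:
`∑ w g^2 = H Sq Δ M0 + E2` (`Δ = Dl ρ L`), so `T3 - (H Θ/M0) ∑ w g^2 = E1 - (H Θ/M0) E2`, `H Θ/M0 ≤ 3H`.
Write `H = X^t`, `t ≤ e`.  Relative to `X H^(3/2)`:
* `3 H^4 L^4 |Q|^2 log(B+H)`: `≤ X H^(3/2) * 3 X^(2.5 e + e/100 + 3.2 e - 1) log(3X)`, tiny;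
* `H^3 L^4 ((4 Sq+1)/Y) CS ≤ X H^(3/2) * 10 X^(1.5 e + e/100 - 1.54 e + e/100) = X H^(3/2) 10 X^(-e/50)`;
* `H^3 L^4 S2 (Sq + K + 1) Θ ≤ X H^(3/2) * 2 (2 + 2 log X) X^(1.5 e + e/100 - 1.54 e)`, exponent `-3e/100`;
* `5 H^3 L^4 S2 B log B`: the same, `20 log(2X) X^(-3e/100)`;
* `3H * (36 H^2 L^4 |Q|^2 + H^2 L^4 (3 S2 M0 + 8 Sq) + 8 H L^4 |Q|)`: the term with `S2 M0` as before, the others
  are `≤ X^(4e + 3.2 e + ..) ≤ X^(1/2)`.
As `X^(-e/50) (log X)` times a constant is `≤ X^(-3e/200) ≤ H^(-3/200)` for large `X` (`H ≤ X^e`), all these are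
`≤ (1/2) X H^(3/2 - 3/200 + small) ≤ (1/2) X H^(149/100)`.
* the last term: `H (Sq^2 + Sq + Sq L^4) Θ ≤ 3 H H^(1/100) X ≤ (1/4) X H^(149/100)` for large `H`.
(`3/2 - 149/100 = 1/100 < 3/200`.)
-/

namespace Pool.Agent.H2.LP

open Finset Pool.Agent.H67.VS Pool.Agent.H48.OM

private theorem thi_num {g t X h Lr cQ sq s2 Y cs M Θ lBH K Br lB : ℝ}
    (hg : 60 ≤ g) (hgt : g ≤ t) (hX : t ^ 1000 ≤ X) (hh : h = g ^ 100) (hL0 : 0 ≤ Lr ^ 4)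
    (hL : Lr ^ 4 ≤ g) (hQ0 : 0 ≤ cQ) (hQ : cQ ≤ t ^ 160) (hsq0 : 0 ≤ sq) (hsq : sq ≤ 1)
    (hs20 : 0 ≤ s2) (hs2 : s2 * t ^ 154 ≤ 2) (hY : Y = t ^ 154 / 2) (hcs0 : 0 ≤ cs)
    (hcs : cs ≤ X * t) (hM0 : 0 ≤ M) (hM : M ≤ X) (hΘ0 : 0 ≤ Θ) (hΘ : Θ ≤ X)
    (hlBH0 : 0 ≤ lBH) (hlBH : lBH ≤ t) (hK0 : 0 ≤ K) (hK : K ≤ t) (hB0 : 0 ≤ Br)
    (hB : Br ≤ 2 * X) (hlB0 : 0 ≤ lB) (hlB : lB ≤ t) :
    (3 * h ^ 4 * Lr ^ 4 * cQ ^ 2 * lBH + h ^ 3 * Lr ^ 4 * ((4 * sq + 1) / Y) * cs +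
      h ^ 3 * Lr ^ 4 * s2 * (sq + K + 1) * Θ + 5 * h ^ 3 * Lr ^ 4 * s2 * (Br * lB) +
      h * (sq ^ 2 + sq + sq * Lr ^ 4) * Θ) +
      h * 3 * (36 * h ^ 2 * Lr ^ 4 * cQ ^ 2 + h ^ 2 * Lr ^ 4 * (3 * s2 * M + 8 * sq) +
      8 * h * Lr ^ 4 * cQ) ≤ X * g ^ 149 := by
  have hg1 : 1 ≤ g := by linarith
  have hg0 : 0 < g := by linarith
  have ht60 : 60 ≤ t := hg.trans hgt
  have ht1 : 1 ≤ t := by linarith
  have ht0 : 0 < t := by linarith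
  have hX0 : 0 < X := lt_of_lt_of_le (pow_pos ht0 1000) hX
  have hgp : (1 : ℝ) ≤ g ^ 148 := one_le_pow₀ hg1
  have hXg : X ≤ X * g ^ 148 := le_mul_of_one_le_right hX0.le hgp
  have hsmall : ∀ (c : ℝ) (m : ℕ), 0 ≤ c → c ≤ 3600 → m + 2 ≤ 1000 → c * t ^ m ≤ X * g ^ 148 := by
    intro c m hc0 hc hm
    calc c * t ^ m ≤ t ^ 2 * t ^ m := by
          have : c ≤ t ^ 2 := by nlinarith
          gcongr
      _ = t ^ (m + 2) := by ring
      _ ≤ t ^ 1000 := pow_le_pow_right₀ ht1 hm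
      _ ≤ X := hX
      _ ≤ _ := hXg
  have hbig : ∀ Z c : ℝ, Z * t ^ 153 ≤ c * (X * g ^ 301) → 0 ≤ c → Z ≤ c * (X * g ^ 148) := by
    intro Z c hZ hc
    have h1 : Z * t ^ 153 ≤ c * (X * g ^ 148) * t ^ 153 := by
      refine hZ.trans ?_
      have h2 : g ^ 153 ≤ t ^ 153 := pow_le_pow_left₀ hg0.le hgt 153
      have h3 : 0 ≤ c * (X * g ^ 148) := mul_nonneg hc (mul_nonneg hX0.le (by positivity))
      have h4 := mul_le_mul_of_nonneg_left h2 h3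
      have h5 : c * (X * g ^ 301) = c * (X * g ^ 148) * g ^ 153 := by ring
      rw [h5]
      exact h4
    exact le_of_mul_le_mul_right h1 (pow_pos ht0 153)
  have t1 : 3 * h ^ 4 * Lr ^ 4 * cQ ^ 2 * lBH ≤ X * g ^ 148 := by
    calc 3 * h ^ 4 * Lr ^ 4 * cQ ^ 2 * lBH
        ≤ 3 * (t ^ 100) ^ 4 * t * (t ^ 160) ^ 2 * t := by
          rw [hh]
          have := hL.trans hgt
          gcongr
      _ = 3 * t ^ 722 := by ring
      _ ≤ _ := hsmall 3 722 (by norm_num) (by norm_num) (by norm_num)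
  have t2 : h ^ 3 * Lr ^ 4 * ((4 * sq + 1) / Y) * cs ≤ 10 * (X * g ^ 148) := by
    refine hbig _ _ ?_ (by norm_num)
    have hYt : (4 * sq + 1) / Y ≤ 10 / t ^ 154 := by
      rw [hY, div_le_div_iff₀ (by positivity) (by positivity)]
      have h1 : (4 * sq + 1) ≤ 5 := by linarith
      calc (4 * sq + 1) * t ^ 154 ≤ 5 * t ^ 154 := by gcongr
        _ = 10 * (t ^ 154 / 2) := by ring
    have hY0 : 0 ≤ (4 * sq + 1) / Y := by rw [hY]; positivity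
    calc h ^ 3 * Lr ^ 4 * ((4 * sq + 1) / Y) * cs * t ^ 153
        ≤ (g ^ 100) ^ 3 * g * (10 / t ^ 154) * (X * t) * t ^ 153 := by
          rw [hh]
          gcongr
      _ = 10 * (X * g ^ 301) := by
          field_simp
  have t3 : h ^ 3 * Lr ^ 4 * s2 * (sq + K + 1) * Θ ≤ 4 * (X * g ^ 148) := by
    refine hbig _ _ ?_ (by norm_num)
    calc h ^ 3 * Lr ^ 4 * s2 * (sq + K + 1) * Θ * t ^ 153
        ≤ (g ^ 100) ^ 3 * g * s2 * (2 * t) * X * t ^ 153 := by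
          rw [hh]
          have : sq + K + 1 ≤ 2 * t := by linarith
          gcongr
      _ = (X * g ^ 301) * 2 * (s2 * t ^ 154) := by ring
      _ ≤ (X * g ^ 301) * 2 * 2 := by gcongr
      _ = _ := by ring
  have t4 : 5 * h ^ 3 * Lr ^ 4 * s2 * (Br * lB) ≤ 20 * (X * g ^ 148) := by
    refine hbig _ _ ?_ (by norm_num)
    calc 5 * h ^ 3 * Lr ^ 4 * s2 * (Br * lB) * t ^ 153
        ≤ 5 * (g ^ 100) ^ 3 * g * s2 * ((2 * X) * t) * t ^ 153 := by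
          rw [hh]
          gcongr
      _ = (X * g ^ 301) * 10 * (s2 * t ^ 154) := by ring
      _ ≤ (X * g ^ 301) * 10 * 2 := by gcongr
      _ = _ := by ring
  have t5 : h * (sq ^ 2 + sq + sq * Lr ^ 4) * Θ ≤ X * g ^ 148 := by
    have h1 : sq ^ 2 ≤ 1 := pow_le_one₀ hsq0 hsq
    have h2 : sq * Lr ^ 4 ≤ 1 * g := by gcongr
    have h3 : (60 : ℝ) ≤ g ^ 47 := by
      have h4 : g ^ 1 ≤ g ^ 47 := pow_le_pow_right₀ hg1 (by norm_num)
      linarith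
    calc h * (sq ^ 2 + sq + sq * Lr ^ 4) * Θ ≤ g ^ 100 * (60 * g) * X := by
          rw [hh]
          have : sq ^ 2 + sq + sq * Lr ^ 4 ≤ 60 * g := by linarith
          gcongr
      _ = X * g ^ 101 * 60 := by ring
      _ ≤ X * g ^ 101 * g ^ 47 := by gcongr
      _ = _ := by ring
  have s1' : 3 * (36 * h ^ 2 * Lr ^ 4 * cQ ^ 2) * h ≤ X * g ^ 148 := by
    calc 3 * (36 * h ^ 2 * Lr ^ 4 * cQ ^ 2) * h
        ≤ 3 * (36 * (t ^ 100) ^ 2 * t * (t ^ 160) ^ 2) * t ^ 100 := by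
          rw [hh]
          have := hL.trans hgt
          gcongr
      _ = 108 * t ^ 621 := by ring
      _ ≤ _ := hsmall 108 621 (by norm_num) (by norm_num) (by norm_num)
  have s2a : 9 * h ^ 3 * Lr ^ 4 * s2 * M ≤ 18 * (X * g ^ 148) := by
    refine hbig _ _ ?_ (by norm_num)
    calc 9 * h ^ 3 * Lr ^ 4 * s2 * M * t ^ 153
        ≤ 9 * (g ^ 100) ^ 3 * g * s2 * X * t ^ 154 := by
          rw [hh]
          gcongr
          · norm_num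
      _ = (X * g ^ 301) * 9 * (s2 * t ^ 154) := by ring
      _ ≤ (X * g ^ 301) * 9 * 2 := by gcongr
      _ = _ := by ring
  have s2b : 24 * h ^ 3 * Lr ^ 4 * sq ≤ X * g ^ 148 := by
    calc 24 * h ^ 3 * Lr ^ 4 * sq ≤ 24 * (t ^ 100) ^ 3 * t * 1 := by
          rw [hh]
          have := hL.trans hgt
          gcongr
      _ = 24 * t ^ 301 := by ring
      _ ≤ _ := hsmall 24 301 (by norm_num) (by norm_num) (by norm_num)
  have s3' : 24 * h ^ 2 * Lr ^ 4 * cQ ≤ X * g ^ 148 := by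
    calc 24 * h ^ 2 * Lr ^ 4 * cQ ≤ 24 * (t ^ 100) ^ 2 * t * t ^ 160 := by
          rw [hh]
          have := hL.trans hgt
          gcongr
      _ = 24 * t ^ 361 := by ring
      _ ≤ _ := hsmall 24 361 (by norm_num) (by norm_num) (by norm_num)
  have hE : h * 3 * (36 * h ^ 2 * Lr ^ 4 * cQ ^ 2 + h ^ 2 * Lr ^ 4 * (3 * s2 * M + 8 * sq) +
      8 * h * Lr ^ 4 * cQ) = 3 * (36 * h ^ 2 * Lr ^ 4 * cQ ^ 2) * h +
      9 * h ^ 3 * Lr ^ 4 * s2 * M + 24 * h ^ 3 * Lr ^ 4 * sq + 24 * h ^ 2 * Lr ^ 4 * cQ := by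
    ring
  rw [hE]
  have hfin : 60 * (X * g ^ 148) ≤ X * g ^ 149 := by
    calc 60 * (X * g ^ 148) ≤ g * (X * g ^ 148) := by gcongr
      _ = _ := by ring
  have hpos : 0 ≤ X * g ^ 148 := by positivity
  linarith

private theorem thi_ev {e : ℝ} (he : 0 < e) : ∃ X₀ : ℕ, ∀ X : ℕ, X₀ ≤ X →
    Real.log (3 * X) ≤ (X : ℝ) ^ e ∧ 2 * Real.log X ≤ (X : ℝ) ^ e := by
  have h1 : ∀ᶠ X : ℝ in Filter.atTop, Real.log X ≤ (1 / 4) * X ^ e := by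
    have h2 := (isLittleO_log_rpow_atTop he).bound (by norm_num : (0 : ℝ) < 1 / 4)
    filter_upwards [h2, Filter.eventually_ge_atTop 1] with X h3 h4
    rw [Real.norm_eq_abs, Real.norm_eq_abs] at h3
    have h5 : |X ^ e| = X ^ e := abs_of_nonneg (by positivity)
    rw [h5] at h3
    exact (le_abs_self _).trans h3
  have h2 : ∀ᶠ X : ℝ in Filter.atTop, 8 ≤ X ^ e := (tendsto_rpow_atTop he).eventually_ge_atTop 8
  have h3 := tendsto_natCast_atTop_atTop (R := ℝ) |>.eventually (h1.and h2)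
  obtain ⟨X₀, hX₀⟩ := Filter.eventually_atTop.1 h3
  refine ⟨max X₀ 1, fun X hX => ?_⟩
  obtain ⟨h4, h5⟩ := hX₀ X ((le_max_left _ _).trans hX)
  have hX1 : (1 : ℝ) ≤ X := by exact_mod_cast (le_max_right _ _).trans hX
  have hX0 : (0 : ℝ) < X := by linarith
  refine ⟨?_, by linarith⟩
  rw [Real.log_mul (by norm_num) hX0.ne']
  have h6 : Real.log 3 ≤ 2 := by
    have := Real.log_le_sub_one_of_pos (by norm_num : (0 : ℝ) < 3)
    linarith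
  linarith

private theorem thi_g {c : ℝ} (c0 : 0 < c) : ∃ X₀ : ℕ, ∀ H : ℕ, X₀ ≤ H → 60 ≤ (H : ℝ) ^ c := by
  have h3 := tendsto_natCast_atTop_atTop (R := ℝ) |>.eventually
    ((tendsto_rpow_atTop c0).eventually_ge_atTop 60)
  obtain ⟨X₀, hX₀⟩ := Filter.eventually_atTop.1 h3
  exact ⟨X₀, fun H hH => hX₀ H hH⟩

theorem third_k (k : ℕ) (hk : 2 ≤ k) : ∃ X₀ : ℕ, ∀ X H : ℕ, Big k X₀ X H → ∀ ρ : ℕ → ℝ,
    SW (Lk k H) ρ →
    |∑ x ∈ Ioc (Aw X) (Bw X), PH H x * gk k X H ρ x ^ 2 -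
      H * theta (Aw X) (Bw X) (ww X) / mass (Aw X) (Bw X) (ww X) *
        ∑ x ∈ Ioc (Aw X) (Bw X), gk k X H ρ x ^ 2| ≤ X * (H : ℝ) ^ (149 / 100 : ℝ) := by
  have he := ek_pos hk
  have hee := ek_le k
  obtain ⟨n1, h1⟩ := lk_k k hk
  obtain ⟨n2, h2⟩ := par_k k hk
  obtain ⟨n3, h3⟩ := card_k k hk
  obtain ⟨n4, h4⟩ := div_k k hk
  obtain ⟨n5, h5⟩ := sq_up k hk
  obtain ⟨n6, h6⟩ := s2_k k hk
  obtain ⟨n7, h7⟩ := cs_k (ek k / 100) (by positivity)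
  obtain ⟨n8, h8⟩ := theta_k
  obtain ⟨n9, h9⟩ := thi_ev (e := ek k / 100) (by positivity)
  obtain ⟨n10, h10⟩ := thi_g (c := 1 / 100) (by norm_num)
  refine ⟨n1 + n2 + n3 + n4 + n5 + n6 + n7 + n8 + n9 + n10 + 100, ?_⟩
  intro X H hB ρ hρ
  have hHX : H ≤ X := hB.le hk (by omega)
  have hHb := hB.1
  have hH2 := hB.2
  have hX100 : 100 ≤ X := by omega
  have hX1 : (1 : ℝ) ≤ X := by exact_mod_cast (by omega : 1 ≤ X)
  have hX0 : (0 : ℝ) < X := by linarith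
  have hH1 : (1 : ℝ) ≤ H := by exact_mod_cast (by omega : 1 ≤ H)
  have hH0 : (0 : ℝ) < H := by linarith
  obtain ⟨g1, g2, -, -, -⟩ := h1 X H (hB.mono (by omega))
  have hP := h2 X H (hB.mono (by omega))
  have hcard := h3 X (by omega)
  have hdiv := h4 X (by omega)
  have hsq := h5 X (by omega)
  obtain ⟨hs20, hs2⟩ := h6 X (by omega)
  obtain ⟨hcs0, hcs⟩ := h7 X (by omega)
  obtain ⟨hθ1, hθ2⟩ := h8 X (by omega)
  obtain ⟨hl1, hl2⟩ := h9 X (by omega)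
  have hg60 := h10 H (by omega)
  obtain ⟨hm1, hm2, -⟩ := mass_k X hX100
  have hw := ww_wt X
  -- basic quantities
  obtain ⟨t, ht⟩ : ∃ t : ℝ, t = (X : ℝ) ^ (ek k / 100) := ⟨_, rfl⟩
  obtain ⟨g, hg⟩ : ∃ g : ℝ, g = (H : ℝ) ^ (1 / 100 : ℝ) := ⟨_, rfl⟩
  have htpow : ∀ n : ℕ, t ^ n = (X : ℝ) ^ ((n : ℝ) * (ek k / 100)) := by
    intro n
    rw [ht, ← Real.rpow_natCast, ← Real.rpow_mul hX0.le]
    congr 1
    ring
  have hgpow : ∀ n : ℕ, g ^ n = (H : ℝ) ^ ((n : ℝ) / 100) := by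
    intro n
    rw [hg, ← Real.rpow_natCast, ← Real.rpow_mul hH0.le]
    congr 1
    ring
  have hgt : g ≤ t := by
    have h11 : (H : ℝ) ^ (1 / 100 : ℝ) ≤ ((X : ℝ) ^ ek k) ^ (1 / 100 : ℝ) :=
      Real.rpow_le_rpow hH0.le hH2 (by norm_num)
    rw [← Real.rpow_mul hX0.le] at h11
    rw [hg, ht]
    refine h11.trans (le_of_eq ?_)
    congr 1
    ring
  have ht0 : 0 < t := by rw [ht]; exact Real.rpow_pos_of_pos hX0 _
  have hXt : t ^ 1000 ≤ X := by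
    rw [htpow]
    calc (X : ℝ) ^ (((1000 : ℕ) : ℝ) * (ek k / 100)) ≤ (X : ℝ) ^ (1 : ℝ) := by
          apply Real.rpow_le_rpow_of_exponent_le hX1
          push_cast
          linarith
      _ = X := Real.rpow_one _
  have hBw : (Bw X : ℝ) ≤ 2 * X := by
    have : Bw X ≤ 2 * X := by unfold Bw; omega
    exact_mod_cast this
  have hBwH : Bw X + H ≤ 3 * X := by
    have h11 : 4 * H ≤ 4 * X := by omega
    have : Bw X ≤ 2 * X := by unfold Bw; omega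
    omega
  have hBH : (Bw X : ℝ) + H ≤ 3 * X := by exact_mod_cast hBwH
  have hlBH : Real.log ((Bw X : ℝ) + H) ≤ t := by
    rw [ht]
    refine le_trans (Real.log_le_log ?_ hBH) hl1
    have : (0 : ℝ) ≤ Bw X := Nat.cast_nonneg _
    linarith
  have hlBH0 : 0 ≤ Real.log ((Bw X : ℝ) + H) := by
    apply Real.log_nonneg
    have : (0 : ℝ) ≤ Bw X := Nat.cast_nonneg _
    linarith
  have hlB0 : 0 ≤ Real.log (Bw X : ℝ) := Real.log_natCast_nonneg _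
  have hlB : Real.log (Bw X : ℝ) ≤ t := by
    rcases Nat.eq_zero_or_pos (Bw X) with h0 | h0
    · rw [h0]
      simp only [Nat.cast_zero, Real.log_zero]
      exact ht0.le
    · rw [ht]
      refine le_trans (Real.log_le_log (by exact_mod_cast h0) ?_) hl1
      linarith
  have hraw := raw3 hP hw hρ (2 * Real.log X) (fun m hm1 hm2 => hdiv m hm1 (by omega))
  have hsa := sq_asym hP hw hρ
  have hSq0 : 0 ≤ Sq (Qk k X) := sum_nonneg fun q hq => by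
    have h1 := hP.hYq q hq
    have h2 := hP.hY
    have h3 : (0 : ℝ) < (q : ℝ) - 1 := by linarith
    positivity
  have hl0 : 0 ≤ Real.log X := Real.log_nonneg hX1
  obtain ⟨M, hMd⟩ : ∃ M, M = mass (Aw X) (Bw X) (ww X) := ⟨_, rfl⟩
  obtain ⟨Θ, hΘd⟩ : ∃ Θ, Θ = theta (Aw X) (Bw X) (ww X) := ⟨_, rfl⟩
  rw [← hMd] at hm1 hm2 hsa
  rw [← hΘd] at hθ1 hθ2 hraw
  have hM0 : 0 < M := by
    have : (0 : ℝ) < X / 3 := by positivity
    linarith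
  have hΘ0 : 0 ≤ Θ := by
    have : (0 : ℝ) < X / 5 := by positivity
    linarith
  have hnum := thi_num (g := g) (t := t) (X := (X : ℝ)) (h := (H : ℝ)) (Lr := (Lk k H : ℝ))
    (cQ := ((Qk k X).card : ℝ)) (sq := Sq (Qk k X)) (s2 := S2 (Qk k X)) (Y := Yk k X)
    (cs := CS (Aw X) (Bw X) (ww X) (Rk X)) (M := M)
    (Θ := Θ) (lBH := Real.log ((Bw X : ℝ) + H))
    (K := 2 * Real.log X) (Br := (Bw X : ℝ)) (lB := Real.log (Bw X : ℝ))
    (by rw [hg]; exact hg60) hgt hXt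
    (by rw [hgpow]; norm_num) (by positivity) (by rw [hg]; exact g2) (Nat.cast_nonneg _)
    (by
      rw [htpow]
      refine hcard.trans (le_of_eq ?_)
      congr 1
      push_cast
      ring) hSq0 hsq hs20
    (by
      have h11 : (X : ℝ) ^ (-(154 / 100 * ek k)) * t ^ 154 = 1 := by
        rw [htpow, ← Real.rpow_add hX0]
        have : -(154 / 100 * ek k) + ((154 : ℕ) : ℝ) * (ek k / 100) = 0 := by
          push_cast
          ring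
        rw [this, Real.rpow_zero]
      calc S2 (Qk k X) * t ^ 154 ≤ (2 * (X : ℝ) ^ (-(154 / 100 * ek k))) * t ^ 154 := by
            have : 0 ≤ t ^ 154 := by positivity
            gcongr
        _ = 2 * ((X : ℝ) ^ (-(154 / 100 * ek k)) * t ^ 154) := by ring
        _ = 2 := by rw [h11, mul_one]
        _ ≤ 2 := le_rfl)
    (by
      rw [htpow]
      unfold Yk
      congr 2
      push_cast
      ring) hcs0
    (by
      refine hcs.trans (le_of_eq ?_)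
      rw [ht, Real.rpow_add hX0, Real.rpow_one])
    hM0.le hm2 hΘ0 hθ2 hlBH0 hlBH (by linarith) (by rw [ht]; exact hl2) (Nat.cast_nonneg _) hBw
    hlB0 hlB
  obtain ⟨G2, hG2⟩ : ∃ G2, G2 = ∑ x ∈ Ioc (Aw X) (Bw X), ww X x *
      gH ρ (Lk k H) (Qk k X) H x ^ 2 := ⟨_, rfl⟩
  have hww : ∀ x ∈ Ioc (Aw X) (Bw X), ww X x = 1 := by
    intro x hx
    unfold ww
    rw [if_pos hx]
  have hsplit : ∑ x ∈ Ioc (Aw X) (Bw X), PH H x * gk k X H ρ x ^ 2 -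
      H * theta (Aw X) (Bw X) (ww X) / mass (Aw X) (Bw X) (ww X) *
        ∑ x ∈ Ioc (Aw X) (Bw X), gk k X H ρ x ^ 2 =
      T3 (Aw X) (Bw X) (ww X) ρ (Lk k H) (Qk k X) H - (H * Θ / M) * G2 := by
    rw [hG2, T3, ← hMd, ← hΘd]
    congr 1
    · refine sum_congr rfl fun x hx => ?_
      rw [hww x hx, one_mul]
      rfl
    · congr 1
      refine sum_congr rfl fun x hx => ?_
      rw [hww x hx, one_mul]
      rfl
  rw [hsplit]
  rw [← hG2] at hsa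
  have hc0 : 0 ≤ (H : ℝ) * Θ / M := by positivity
  have hc1 : (H : ℝ) * Θ / M ≤ H * 3 := by
    rw [div_le_iff₀ hM0]
    have h11 : Θ ≤ 3 * M := by linarith
    calc (H : ℝ) * Θ ≤ H * (3 * M) := by gcongr
      _ = H * 3 * M := by ring
  have hmain : T3 (Aw X) (Bw X) (ww X) ρ (Lk k H) (Qk k X) H - (H * Θ / M) * G2 =
      (T3 (Aw X) (Bw X) (ww X) ρ (Lk k H) (Qk k X) H -
        (H : ℝ) ^ 2 * Sq (Qk k X) * Dl ρ (Lk k H) * Θ) -
      (H * Θ / M) * (G2 - H * Sq (Qk k X) * Dl ρ (Lk k H) * M) := by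
    field_simp
    ring
  rw [hmain]
  refine (abs_sub _ _).trans ?_
  rw [abs_mul, abs_of_nonneg hc0]
  have h11 : (H * Θ / M) * |G2 - H * Sq (Qk k X) * Dl ρ (Lk k H) * M| ≤ H * 3 *
      (36 * (H : ℝ) ^ 2 * (Lk k H : ℝ) ^ 4 * ((Qk k X).card : ℝ) ^ 2 +
      (H : ℝ) ^ 2 * (Lk k H : ℝ) ^ 4 * (3 * S2 (Qk k X) * M + 8 * Sq (Qk k X)) +
      8 * H * (Lk k H : ℝ) ^ 4 * (Qk k X).card) :=
    mul_le_mul hc1 hsa (abs_nonneg _) (by positivity)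
  refine (add_le_add hraw h11).trans (hnum.trans (le_of_eq ?_))
  rw [hgpow]
  norm_num

end Pool.Agent.H2.LP
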