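import Pool.Agent.H2.LP.Crs
import Pool.Agent.H2.LP.Thi
import Pool.Agent.H2.LP.Gmo

/-!
[H2 LP EGG]  The first and second moment of the test function against the error `PH - f`.

`f` is bounded by `X^(7/10)` and of variation `≤ X^(7/10)` on the window; `A = Aw X`, `B = Bw X`,
`M0 = mass = B - A` (`mass_k`), `Θ = theta A B (ww X) ≤ X`, `m = H Θ/M0 ≤ 3H`, `E = PH - f`.
Note `Icc A B ∋ B`, and `Ioo A B ⊆ Ico A B`.
Proof of `eg1`.  `∑ E g = ∑ P g - ∑ f g ≥ H X/200 - 2 X^(14/100 + 7/10) ≥ H X/300` (`cross_k`, `gbv1`).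
Proof of `eg2`.  With `V2` from `gbv`,
`∑ E g^2 - V2 ∑ E = (∑ P g^2 - m ∑ g^2) + m ∑ (g^2 - V2) + V2 (m M0 - ∑ P) - ∑ f (g^2 - V2)`
(`∑_{x ∈ Ioc A B} 1 = B - A = M0`).  The four terms are at most `X H^(149/100)` (`third_k`),
`3H X^(27/100)` (`gbv` with `v = 1`), `C (H/log H) X^(1/5)` (`mean_k`, `m M0 = H Θ`), `2 X^(27/100 + 7/10)` (`gbv` with `v = f`); the last
three are together `≤ X H^(149/100)` for large `X` (`H ≤ X^(1/20)`, `log H ≥ 1`).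
-/

namespace Pool.Agent.H2.LP

open Finset Pool.Agent.H67.VS Pool.Agent.H48.OM

/-- the main term has bounded variation on the window -/
def FV (X : ℕ) (f : ℕ → ℝ) : Prop :=
  (∀ n ∈ Icc (Aw X) (Bw X), |f n| ≤ (X : ℝ) ^ (7 / 10 : ℝ)) ∧
    ∑ n ∈ Ico (Aw X) (Bw X), |f (n + 1) - f n| ≤ (X : ℝ) ^ (7 / 10 : ℝ)

private theorem pw (C a b : ℝ) (hab : a < b) : ∃ X₀ : ℕ, ∀ X : ℕ, X₀ ≤ X →
    C * (X : ℝ) ^ a ≤ (X : ℝ) ^ b := by
  have h1 := (tendsto_rpow_atTop (sub_pos.2 hab)).comp (tendsto_natCast_atTop_atTop (R := ℝ))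
  have h2 : ∀ᶠ X : ℕ in Filter.atTop, C ≤ (X : ℝ) ^ (b - a) := h1.eventually_ge_atTop C
  have h3 : ∀ᶠ X : ℕ in Filter.atTop, 0 < X := Filter.eventually_gt_atTop 0
  obtain ⟨X₀, h4⟩ := Filter.eventually_atTop.1 (h2.and h3)
  refine ⟨X₀, fun X hX => ?_⟩
  obtain ⟨h5, h6⟩ := h4 X hX
  have h7 : (0 : ℝ) < X := by exact_mod_cast h6
  have h8 : (X : ℝ) ^ b = (X : ℝ) ^ (b - a) * (X : ℝ) ^ a := by
    rw [← Real.rpow_add h7]
    congr 1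
    ring
  rw [h8]
  exact mul_le_mul_of_nonneg_right h5 (Real.rpow_nonneg h7.le _)

private theorem AwBw (X : ℕ) : Aw X ≤ Bw X := by
  unfold Aw Bw
  omega

private theorem fv_bd {X : ℕ} {f : ℕ → ℝ} (hf : FV X f) :
    |f (Bw X)| + ∑ n ∈ Ioo (Aw X) (Bw X), |f (n + 1) - f n| ≤ 2 * (X : ℝ) ^ (7 / 10 : ℝ) := by
  have h1 : |f (Bw X)| ≤ (X : ℝ) ^ (7 / 10 : ℝ) := hf.1 _ (Finset.mem_Icc.2 ⟨AwBw X, le_rfl⟩)
  have h2 : ∑ n ∈ Ioo (Aw X) (Bw X), |f (n + 1) - f n| ≤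
      ∑ n ∈ Ico (Aw X) (Bw X), |f (n + 1) - f n| :=
    Finset.sum_le_sum_of_subset_of_nonneg Finset.Ioo_subset_Ico_self
      (fun _ _ _ => abs_nonneg _)
  have h3 := hf.2
  linarith

theorem eg1 (k : ℕ) (hk : 2 ≤ k) : ∃ X₀ : ℕ, ∀ X H : ℕ, Big k X₀ X H → ∀ ρ : ℕ → ℝ,
    SW (Lk k H) ρ → ∀ f : ℕ → ℝ, FV X f →
    (H : ℝ) * X / 300 ≤ ∑ x ∈ Ioc (Aw X) (Bw X), (PH H x - f x) * gk k X H ρ x := by
  obtain ⟨X1, h1⟩ := cross_k k hk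
  obtain ⟨X2, h2⟩ := gbv1 k hk
  obtain ⟨X3, h3⟩ := pw 1200 (84 / 100) 1 (by norm_num)
  refine ⟨max 1 (max X1 (max X2 X3)), ?_⟩
  intro X H hB ρ hρ f hf
  have hH1 : 1 ≤ H := le_trans (le_max_left _ _) hB.1
  have hHX : H ≤ X := hB.le hk (le_max_left _ _)
  have hX0 : (0 : ℝ) < X := by
    have : 0 < X := by omega
    exact_mod_cast this
  have g1 := h1 X H (hB.mono (by simp)) ρ hρ
  have g2 := h2 X H (hB.mono (by simp)) ρ hρ f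
  have g3 := h3 X (le_trans (by simp) (hB.1.trans hHX))
  rw [Real.rpow_one] at g3
  have g4 := fv_bd hf
  have g5 : |∑ x ∈ Ioc (Aw X) (Bw X), f x * gk k X H ρ x| ≤ 2 * (X : ℝ) ^ (84 / 100 : ℝ) := by
    refine g2.trans ?_
    calc (X : ℝ) ^ (14 / 100 : ℝ) * (|f (Bw X)| + ∑ n ∈ Ioo (Aw X) (Bw X), |f (n + 1) - f n|)
        ≤ (X : ℝ) ^ (14 / 100 : ℝ) * (2 * (X : ℝ) ^ (7 / 10 : ℝ)) :=
          mul_le_mul_of_nonneg_left g4 (Real.rpow_nonneg hX0.le _)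
      _ = 2 * ((X : ℝ) ^ (14 / 100 : ℝ) * (X : ℝ) ^ (7 / 10 : ℝ)) := by ring
      _ = 2 * (X : ℝ) ^ (84 / 100 : ℝ) := by
          rw [← Real.rpow_add hX0]
          norm_num
  have g6 : ∑ x ∈ Ioc (Aw X) (Bw X), (PH H x - f x) * gk k X H ρ x =
      ∑ x ∈ Ioc (Aw X) (Bw X), PH H x * gk k X H ρ x -
        ∑ x ∈ Ioc (Aw X) (Bw X), f x * gk k X H ρ x := by
    rw [← Finset.sum_sub_distrib]
    refine Finset.sum_congr rfl fun x _ => ?_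
    ring
  have g7 := (abs_le.1 g5).2
  have g8 : (X : ℝ) ≤ H * X := by
    have : (1 : ℝ) ≤ H := by exact_mod_cast hH1
    nlinarith
  rw [g6]
  linarith

theorem eg2 (k : ℕ) (hk : 2 ≤ k) : ∃ C : ℝ, 0 < C ∧ ∃ X₀ : ℕ, ∀ X H : ℕ, Big k X₀ X H →
    ∀ ρ : ℕ → ℝ, SW (Lk k H) ρ → ∀ f : ℕ → ℝ, FV X f →
    ∃ V2 : ℝ, 0 ≤ V2 ∧ V2 ≤ C * (H / Real.log H) ∧
    |∑ x ∈ Ioc (Aw X) (Bw X), (PH H x - f x) * gk k X H ρ x ^ 2 -
      V2 * ∑ x ∈ Ioc (Aw X) (Bw X), (PH H x - f x)| ≤ 2 * (X * (H : ℝ) ^ (149 / 100 : ℝ)) := by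
  obtain ⟨C, hC, X1, h1⟩ := gbv k hk
  obtain ⟨X2, h2⟩ := third_k k hk
  obtain ⟨X3, h3⟩ := mean_k k hk
  obtain ⟨X4, h4⟩ := theta_k
  obtain ⟨X5, h5⟩ := pw 9 (27 / 100) 1 (by norm_num)
  obtain ⟨X6, h6⟩ := pw (3 * C) (1 / 5) 1 (by norm_num)
  obtain ⟨X7, h7⟩ := pw 6 (97 / 100) 1 (by norm_num)
  refine ⟨C, hC, max 100 (max X1 (max X2 (max X3 (max X4 (max X5 (max X6 X7)))))), ?_⟩
  intro X H hB ρ hρ f hf
  have hH1 : 100 ≤ H := le_trans (le_max_left _ _) hB.1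
  have hHX : H ≤ X := hB.le hk (le_trans (by norm_num) (le_max_left _ _))
  have hX100 : 100 ≤ X := hH1.trans hHX
  have hX0 : (0 : ℝ) < X := by
    have : 0 < X := by omega
    exact_mod_cast this
  have hHr : (100 : ℝ) ≤ H := by exact_mod_cast hH1
  have hlog : 1 ≤ Real.log H := by
    rw [Real.le_log_iff_exp_le (by linarith)]
    have := Real.exp_one_lt_d9
    linarith
  have hX' := hB.1.trans hHX
  obtain ⟨V2, hV0, hV1, hv⟩ := h1 X H (hB.mono (by simp)) ρ hρ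
  have g2 := h2 X H (hB.mono (by simp)) ρ hρ
  have g3 := h3 X H (hB.mono (by simp))
  obtain ⟨g4a, g4b⟩ := h4 X (le_trans (by simp) hX')
  have g5 := h5 X (le_trans (by simp) hX')
  have g6 := h6 X (le_trans (by simp) hX')
  have g7 := h7 X (le_trans (by simp) hX')
  rw [Real.rpow_one] at g5 g6 g7
  obtain ⟨m1, m2, m3⟩ := mass_k X hX100
  have v1 := hv (fun _ => 1)
  have v2 := hv f
  have gf := fv_bd hf
  refine ⟨V2, hV0, hV1, ?_⟩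
  set Θ := theta (Aw X) (Bw X) (ww X) with hΘ
  set M0 := mass (Aw X) (Bw X) (ww X) with hM0
  have hM0p : 0 < M0 := by linarith
  set m := H * Θ / M0 with hm
  have hm0 : 0 ≤ m := by
    have : 0 ≤ Θ := by linarith
    positivity
  have hm3 : m ≤ 3 * H := by
    rw [hm, div_le_iff₀ hM0p]
    have : (H : ℝ) * Θ ≤ H * X := by gcongr
    nlinarith
  have hmM : m * M0 = H * Θ := by
    rw [hm]
    field_simp
  have hone : ∑ x ∈ Ioc (Aw X) (Bw X), (1 : ℝ) = M0 := by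
    rw [m3, Finset.sum_const, Nat.card_Ioc, nsmul_eq_mul, mul_one, Nat.cast_sub (AwBw X)]
  -- names of the sums
  set SP := ∑ x ∈ Ioc (Aw X) (Bw X), PH H x with hSP
  set SPg := ∑ x ∈ Ioc (Aw X) (Bw X), PH H x * gk k X H ρ x ^ 2 with hSPg
  set Sg := ∑ x ∈ Ioc (Aw X) (Bw X), gk k X H ρ x ^ 2 with hSg
  set Sf := ∑ x ∈ Ioc (Aw X) (Bw X), f x with hSf
  set Sfg := ∑ x ∈ Ioc (Aw X) (Bw X), f x * gk k X H ρ x ^ 2 with hSfg
  have s1 : ∑ x ∈ Ioc (Aw X) (Bw X), (PH H x - f x) * gk k X H ρ x ^ 2 = SPg - Sfg := by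
    rw [hSPg, hSfg, ← Finset.sum_sub_distrib]
    exact Finset.sum_congr rfl fun x _ => by ring
  have s2 : ∑ x ∈ Ioc (Aw X) (Bw X), (PH H x - f x) = SP - Sf := by
    rw [hSP, hSf, ← Finset.sum_sub_distrib]
  have s3 : ∑ x ∈ Ioc (Aw X) (Bw X), f x * (gk k X H ρ x ^ 2 - V2) = Sfg - V2 * Sf := by
    rw [hSfg, hSf, Finset.mul_sum, ← Finset.sum_sub_distrib]
    exact Finset.sum_congr rfl fun x _ => by ring
  have s4 : ∑ x ∈ Ioc (Aw X) (Bw X), (1 : ℝ) * (gk k X H ρ x ^ 2 - V2) = Sg - V2 * M0 := by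
    rw [hSg, ← hone, Finset.mul_sum, ← Finset.sum_sub_distrib]
    exact Finset.sum_congr rfl fun x _ => by ring
  have s5 : |(1 : ℝ)| + ∑ n ∈ Ioo (Aw X) (Bw X), |(1 : ℝ) - 1| = 1 := by simp
  rw [s3] at v2
  simp only [s4, s5, mul_one] at v1
  rw [s1, s2]
  have hid : SPg - Sfg - V2 * (SP - Sf) =
      (SPg - m * Sg) + m * (Sg - V2 * M0) - V2 * (SP - H * Θ) - (Sfg - V2 * Sf) := by
    have : V2 * (H * Θ) = V2 * (m * M0) := by rw [hmM]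
    linear_combination -this
  rw [hid]
  -- bounds
  have b1 : |SPg - m * Sg| ≤ X * (H : ℝ) ^ (149 / 100 : ℝ) := g2
  have b2 : |m * (Sg - V2 * M0)| ≤ 3 * H * (X : ℝ) ^ (27 / 100 : ℝ) := by
    rw [abs_mul, abs_of_nonneg hm0]
    exact mul_le_mul hm3 v1 (abs_nonneg _) (by positivity)
  have b3 : |V2 * (SP - H * Θ)| ≤ C * H * (X : ℝ) ^ (1 / 5 : ℝ) := by
    rw [abs_mul, abs_of_nonneg hV0]
    refine mul_le_mul (hV1.trans ?_) g3 (abs_nonneg _) (by positivity)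
    refine mul_le_mul_of_nonneg_left ?_ hC.le
    exact div_le_self (by linarith) hlog
  have b4 : |Sfg - V2 * Sf| ≤ 2 * (X : ℝ) ^ (97 / 100 : ℝ) := by
    refine v2.trans ?_
    calc (X : ℝ) ^ (27 / 100 : ℝ) * (|f (Bw X)| + ∑ n ∈ Ioo (Aw X) (Bw X), |f (n + 1) - f n|)
        ≤ (X : ℝ) ^ (27 / 100 : ℝ) * (2 * (X : ℝ) ^ (7 / 10 : ℝ)) :=
          mul_le_mul_of_nonneg_left gf (Real.rpow_nonneg hX0.le _)
      _ = 2 * ((X : ℝ) ^ (27 / 100 : ℝ) * (X : ℝ) ^ (7 / 10 : ℝ)) := by ring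
      _ = 2 * (X : ℝ) ^ (97 / 100 : ℝ) := by
          rw [← Real.rpow_add hX0]
          norm_num
  have hHp : (H : ℝ) ≤ (H : ℝ) ^ (149 / 100 : ℝ) := by
    calc (H : ℝ) = (H : ℝ) ^ (1 : ℝ) := (Real.rpow_one _).symm
      _ ≤ (H : ℝ) ^ (149 / 100 : ℝ) :=
        Real.rpow_le_rpow_of_exponent_le (by linarith) (by norm_num)
  set P := (H : ℝ) ^ (149 / 100 : ℝ) with hP
  have hP1 : 1 ≤ P := by linarith
  have hP0 : 0 ≤ P := by linarith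
  have c2 : 3 * H * (X : ℝ) ^ (27 / 100 : ℝ) ≤ P * (X / 3) := by
    calc 3 * H * (X : ℝ) ^ (27 / 100 : ℝ) = H * (3 * (X : ℝ) ^ (27 / 100 : ℝ)) := by ring
      _ ≤ P * (X / 3) := mul_le_mul hHp (by linarith) (by positivity) hP0
  have c3 : C * H * (X : ℝ) ^ (1 / 5 : ℝ) ≤ P * (X / 3) := by
    calc C * H * (X : ℝ) ^ (1 / 5 : ℝ) = H * (C * (X : ℝ) ^ (1 / 5 : ℝ)) := by ring
      _ ≤ P * (X / 3) := mul_le_mul hHp (by linarith) (by positivity) hP0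
  have c4 : 2 * (X : ℝ) ^ (97 / 100 : ℝ) ≤ P * (X / 3) := by
    calc 2 * (X : ℝ) ^ (97 / 100 : ℝ) = 1 * (2 * (X : ℝ) ^ (97 / 100 : ℝ)) := by ring
      _ ≤ P * (X / 3) := mul_le_mul hP1 (by linarith) (by positivity) hP0
  have t1 : |(SPg - m * Sg) + m * (Sg - V2 * M0) - V2 * (SP - H * Θ) - (Sfg - V2 * Sf)| ≤
      |SPg - m * Sg| + |m * (Sg - V2 * M0)| + |V2 * (SP - H * Θ)| + |Sfg - V2 * Sf| := by
    refine (abs_sub _ _).trans ?_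
    refine add_le_add ?_ le_rfl
    refine (abs_sub _ _).trans ?_
    refine add_le_add ?_ le_rfl
    exact abs_add_le _ _
  refine t1.trans ?_
  linarith

end Pool.Agent.H2.LP
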