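import Pool.Agent.H2.LP.Mid
import Pool.Agent.H48.OM.DyadL
import Pool.Agent.H67.VS.FinA
import Pool.Agent.H67.VU.Pnt3

/-!
[H2 LP LAN]  Blocks in which the number of primes is on the right side of the expected number.

Proof.  `dyad_loc ε hε hε1 (-σ)` (`Pool/Agent/H48/OM/DyadL.lean`) for the real number `X' = X/4`... : for large `X` there is a real
`y` with `(X/4)^(1 - 51 ε) ≤ y ≤ X/4` and `-σ (θ(2y) - θ(y) - y) ≤ y^(1 - 11 ε/20)`.  Let `Y = ⌊y⌋₊ + 1`, so `y < Y ≤ y + 1`,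
`X^(1-60ε) ≤ Y ≤ X` for large `X`; `|θ(2Y) - θ(2y)| ≤ 2 log(4Y) + ...` (at most two primes more), `|θ(Y) - θ(y)| ≤ log(2Y)`, so
`σ (θ(2Y) - θ(Y) - Y) ≥ -y^(1-11ε/20) - 10 log(4Y)`.
Let `H ≤ Y^ε`, `M n = H/log n`.  For `n ∈ Ioc Y (2Y)`: `log n (pi1 n H - M n) = PH H n + O(H^2/n) - H` (`VS.PH_near`), and
`∑_{n ∈ Ioc Y 2Y} PH H n = ∑_{h ≤ H} ∑_{n ∈ Ioc (Y+h) (2Y+h)} pl n = H (θ(2Y) - θ(Y)) + O(2 H^2 log(3Y))`
(`H67.VU.pnt3_theta`; shifting the interval by `h` changes at most `2h` terms, each `≤ log(3Y)`).  So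
`σ ∑ log n (pi1 n H - M n) ≥ -H y^(1-11ε/20) - 10 H log(4Y) - 3 H^2 log(3Y) - H^2 ≥ -(c/2) Y HL H` for large `Y`, as `HL H ≥ √H`
(`H ≥ 3`) and `√H ≤ Y^(ε/2)`, `Y^(-11ε/20) √H ≤ Y^(-ε/20)`.  Divide by `log(2Y)` (`1/log(2Y) ≤ 1/log Y`).
`Mc Y M`: antitone on `[Y,2Y]` (`log` increasing and positive).
-/

namespace Pool.Agent.H2.LP

open Finset Filter Pool.Agent.H67.VS Pool.Agent.H48.OM

theorem lan_th (a b : ℕ) (hab : a ≤ b) :
    0 ≤ Chebyshev.theta (b : ℝ) - Chebyshev.theta (a : ℝ) ∧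
    Chebyshev.theta (b : ℝ) - Chebyshev.theta (a : ℝ) ≤ ((b : ℝ) - a) * Real.log b := by
  rw [Pool.Agent.H67.VU.pnt3_theta a b hab]
  have h1 : ∀ n ∈ Ioc a b, 0 ≤ pl n ∧ pl n ≤ Real.log b := by
    intro n hn
    rw [mem_Ioc] at hn
    have hn1 : 1 ≤ n := by omega
    have hlog : Real.log n ≤ Real.log b :=
      Real.log_le_log (by exact_mod_cast hn1) (by exact_mod_cast hn.2)
    have hlog0 : 0 ≤ Real.log n := Real.log_natCast_nonneg n
    unfold pl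
    split_ifs
    · exact ⟨hlog0, hlog⟩
    · exact ⟨le_refl _, hlog0.trans hlog⟩
  refine ⟨sum_nonneg fun n hn => (h1 n hn).1, ?_⟩
  have := sum_le_card_nsmul (Ioc a b) pl (Real.log b) (fun n hn => (h1 n hn).2)
  rw [Nat.card_Ioc, nsmul_eq_mul, Nat.cast_sub hab] at this
  exact this

theorem lanA (ε : ℝ) (hε : 0 < ε) (hε1 : ε ≤ 1 / 1000) (σ : ℝ) (hσ : σ = 1 ∨ σ = -1) :
    ∀ᶠ X : ℕ in atTop, ∃ Y : ℕ, (X : ℝ) ^ (1 - 60 * ε) ≤ Y ∧ Y ≤ X ∧
      -(2 * (Y : ℝ) ^ (1 - 11 * ε / 20)) ≤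
        σ * (Chebyshev.theta ((2 * Y : ℕ) : ℝ) - Chebyshev.theta (Y : ℝ) - Y) := by
  have hσ' : -σ = 1 ∨ -σ = -1 := by
    rcases hσ with h | h
    · right; rw [h]
    · left; rw [h]; norm_num
  have h1 := dyad_loc ε hε hε1 (-σ) hσ'
  have h2 : Tendsto (fun X : ℕ => (X : ℝ) / 4) atTop atTop :=
    tendsto_natCast_atTop_atTop.atTop_div_const (by norm_num)
  have h3 := h2.eventually h1
  have h4 : ∀ᶠ X : ℕ in atTop, (4 : ℝ) ≤ (X : ℝ) ^ (9 * ε) :=
    ((tendsto_rpow_atTop (by positivity : 0 < 9 * ε)).comp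
      tendsto_natCast_atTop_atTop).eventually_ge_atTop 4
  have h5 : ∀ᶠ y : ℝ in atTop, 3 * Real.log (2 * y) + 1 ≤ y ^ (1 - 11 * ε / 20) := by
    have hp : 0 < 1 - 11 * ε / 20 := by linarith
    have hl := (isLittleO_log_rpow_atTop hp).bound (show (0 : ℝ) < 1 / 12 by norm_num)
    have ht := (tendsto_rpow_atTop hp).eventually_ge_atTop 12
    filter_upwards [hl, ht, eventually_ge_atTop (2 : ℝ)] with y hy1 hy2 hy3
    have hy0 : 0 < y := by linarith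
    rw [Real.norm_of_nonneg (Real.log_nonneg (by linarith)),
      Real.norm_of_nonneg (Real.rpow_nonneg hy0.le _)] at hy1
    have : Real.log (2 * y) = Real.log 2 + Real.log y := Real.log_mul (by norm_num) hy0.ne'
    have h2 : Real.log 2 ≤ 1 := by linarith [Real.log_two_lt_d9]
    rw [this]
    linarith
  have h6 : Tendsto (fun X : ℕ => (X : ℝ) ^ (1 - 60 * ε)) atTop atTop :=
    (tendsto_rpow_atTop (by linarith)).comp tendsto_natCast_atTop_atTop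
  obtain ⟨y0, hy0⟩ := eventually_atTop.1 h5
  filter_upwards [h3, h4, h6.eventually_ge_atTop (max y0 2), eventually_ge_atTop 4] with
    X hX hX4 hXy hX2
  obtain ⟨y, hy1, hy2, hy3⟩ := hX
  have hXr : (4 : ℝ) ≤ X := by exact_mod_cast hX2
  have hX0 : (0 : ℝ) < X := by linarith
  have hlow : (X : ℝ) ^ (1 - 60 * ε) ≤ y := by
    refine le_trans ?_ hy1
    rw [Real.div_rpow hX0.le (by norm_num), le_div_iff₀ (by positivity)]
    have e1 : (4 : ℝ) ^ (1 - 51 * ε) ≤ 4 ^ (1 : ℝ) :=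
      Real.rpow_le_rpow_of_exponent_le (by norm_num) (by linarith)
    rw [Real.rpow_one] at e1
    calc (X : ℝ) ^ (1 - 60 * ε) * 4 ^ (1 - 51 * ε)
        ≤ (X : ℝ) ^ (1 - 60 * ε) * (X : ℝ) ^ (9 * ε) := by
          apply mul_le_mul_of_nonneg_left (e1.trans hX4) (by positivity)
      _ = (X : ℝ) ^ (1 - 51 * ε) := by
          rw [← Real.rpow_add hX0]; congr 1; ring
  have hy2' : 2 ≤ y := (le_max_right _ _).trans (hXy.trans hlow)
  have hyy : y0 ≤ y := (le_max_left _ _).trans (hXy.trans hlow)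
  have hypos : 0 < y := by linarith
  have hf1 := Nat.floor_le hypos.le
  have hf2 := Nat.lt_floor_add_one y
  set m := ⌊y⌋₊ with hm
  have hm2 : 2 ≤ m := Nat.le_floor (by exact_mod_cast hy2')
  refine ⟨m + 1, ?_, ?_, ?_⟩
  · push_cast
    linarith
  · have : ((m + 1 : ℕ) : ℝ) ≤ X := by
      push_cast
      linarith
    exact_mod_cast this
  · have hYr : ((m + 1 : ℕ) : ℝ) = (m : ℝ) + 1 := by push_cast; ring
    have a1 : Chebyshev.theta y ≤ Chebyshev.theta ((m + 1 : ℕ) : ℝ) :=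
      Chebyshev.theta_mono (by rw [hYr]; exact hf2.le)
    have a2 : Chebyshev.theta (m : ℝ) ≤ Chebyshev.theta y := Chebyshev.theta_mono hf1
    have a3 : Chebyshev.theta (2 * y) ≤ Chebyshev.theta ((2 * (m + 1) : ℕ) : ℝ) :=
      Chebyshev.theta_mono (by push_cast; linarith)
    have a4 : Chebyshev.theta ((2 * m : ℕ) : ℝ) ≤ Chebyshev.theta (2 * y) :=
      Chebyshev.theta_mono (by push_cast; linarith)
    have b1 := (lan_th m (m + 1) (by omega)).2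
    have b2 := (lan_th (2 * m) (2 * (m + 1)) (by omega)).2
    have hL : Real.log ((m + 1 : ℕ) : ℝ) ≤ Real.log ((2 * (m + 1) : ℕ) : ℝ) :=
      Real.log_le_log (by positivity) (by push_cast; linarith)
    have hc := hy0 ((m + 1 : ℕ) : ℝ) (by rw [hYr]; linarith)
    have hc' : 3 * Real.log ((2 * (m + 1) : ℕ) : ℝ) + 1 ≤
        ((m + 1 : ℕ) : ℝ) ^ (1 - 11 * ε / 20) := by
      have : ((2 * (m + 1) : ℕ) : ℝ) = 2 * ((m + 1 : ℕ) : ℝ) := by push_cast; ring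
      rw [this]; exact hc
    have hd : y ^ (1 - 11 * ε / 20) ≤ ((m + 1 : ℕ) : ℝ) ^ (1 - 11 * ε / 20) :=
      Real.rpow_le_rpow hypos.le (by rw [hYr]; linarith) (by linarith)
    have b1' : Chebyshev.theta ((m + 1 : ℕ) : ℝ) - Chebyshev.theta (m : ℝ) ≤
        Real.log ((2 * (m + 1) : ℕ) : ℝ) := by
      refine b1.trans (le_trans (le_of_eq ?_) hL)
      push_cast; ring
    have b2' : Chebyshev.theta ((2 * (m + 1) : ℕ) : ℝ) - Chebyshev.theta ((2 * m : ℕ) : ℝ) ≤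
        2 * Real.log ((2 * (m + 1) : ℕ) : ℝ) := by
      refine b2.trans (le_of_eq ?_)
      push_cast; ring
    rcases hσ with h | h
    · rw [h] at hy3 ⊢
      rw [hYr] at hc' hd ⊢
      rw [hYr] at a1 b1'
      linarith
    · rw [h] at hy3 ⊢
      rw [hYr] at hc' hd ⊢
      rw [hYr] at a1 b1'
      linarith

theorem lanB (Y H : ℕ) (hY : 1 ≤ Y) (hH : H ≤ Y) :
    |∑ n ∈ Ioc Y (2 * Y), PH H n -
      H * (Chebyshev.theta ((2 * Y : ℕ) : ℝ) - Chebyshev.theta (Y : ℝ))| ≤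
      2 * (H : ℝ) ^ 2 * Real.log (3 * Y) := by
  have hYr : (1 : ℝ) ≤ Y := by exact_mod_cast hY
  have hlog : 0 ≤ Real.log (3 * (Y : ℝ)) := Real.log_nonneg (by linarith)
  have h1 : ∑ n ∈ Ioc Y (2 * Y), PH H n =
      ∑ h ∈ Icc 1 H, (Chebyshev.theta ((2 * Y + h : ℕ) : ℝ) - Chebyshev.theta ((Y + h : ℕ) : ℝ)) := by
    unfold PH
    rw [sum_comm]
    refine sum_congr rfl fun h _ => ?_
    rw [Pool.Agent.H67.VU.pnt3_theta (Y + h) (2 * Y + h) (by omega)]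
    rw [← Finset.map_add_right_Ioc Y (2 * Y) h, sum_map]
    rfl
  have h2 : (H : ℝ) * (Chebyshev.theta ((2 * Y : ℕ) : ℝ) - Chebyshev.theta (Y : ℝ)) =
      ∑ h ∈ Icc 1 H, (Chebyshev.theta ((2 * Y : ℕ) : ℝ) - Chebyshev.theta (Y : ℝ)) := by
    rw [sum_const, Nat.card_Icc, nsmul_eq_mul, Nat.add_sub_cancel]
  rw [h1, h2, ← sum_sub_distrib]
  refine (abs_sum_le_sum_abs _ _).trans ?_
  have h3 : ∀ h ∈ Icc 1 H, |Chebyshev.theta ((2 * Y + h : ℕ) : ℝ) -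
      Chebyshev.theta ((Y + h : ℕ) : ℝ) -
      (Chebyshev.theta ((2 * Y : ℕ) : ℝ) - Chebyshev.theta (Y : ℝ))| ≤
      2 * H * Real.log (3 * Y) := by
    intro h hh
    rw [mem_Icc] at hh
    have hhr : (h : ℝ) ≤ H := by exact_mod_cast hh.2
    have hhY : (h : ℝ) ≤ Y := by exact_mod_cast hh.2.trans hH
    have hh0 : (0 : ℝ) ≤ h := by positivity
    have c1 := lan_th (2 * Y) (2 * Y + h) (by omega)
    have c2 := lan_th Y (Y + h) (by omega)
    have l1 : Real.log ((2 * Y + h : ℕ) : ℝ) ≤ Real.log (3 * Y) :=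
      Real.log_le_log (by positivity) (by push_cast; linarith)
    have l2 : Real.log ((Y + h : ℕ) : ℝ) ≤ Real.log (3 * Y) :=
      Real.log_le_log (by positivity) (by push_cast; linarith)
    have d1 : Chebyshev.theta ((2 * Y + h : ℕ) : ℝ) - Chebyshev.theta ((2 * Y : ℕ) : ℝ) ≤
        H * Real.log (3 * Y) := by
      refine c1.2.trans ?_
      have : ((2 * Y + h : ℕ) : ℝ) - ((2 * Y : ℕ) : ℝ) = h := by push_cast; ring
      rw [this]
      calc (h : ℝ) * Real.log ((2 * Y + h : ℕ) : ℝ) ≤ h * Real.log (3 * Y) :=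
            mul_le_mul_of_nonneg_left l1 hh0
        _ ≤ H * Real.log (3 * Y) := mul_le_mul_of_nonneg_right hhr hlog
    have d2 : Chebyshev.theta ((Y + h : ℕ) : ℝ) - Chebyshev.theta (Y : ℝ) ≤
        H * Real.log (3 * Y) := by
      refine c2.2.trans ?_
      have : ((Y + h : ℕ) : ℝ) - (Y : ℝ) = h := by push_cast; ring
      rw [this]
      calc (h : ℝ) * Real.log ((Y + h : ℕ) : ℝ) ≤ h * Real.log (3 * Y) :=
            mul_le_mul_of_nonneg_left l2 hh0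
        _ ≤ H * Real.log (3 * Y) := mul_le_mul_of_nonneg_right hhr hlog
    have hnn : 0 ≤ (H : ℝ) * Real.log (3 * Y) := by positivity
    rw [abs_le]
    constructor
    · linarith [c1.1, c2.1]
    · linarith [c1.1, c2.1]
  refine (sum_le_card_nsmul _ _ _ h3).trans (le_of_eq ?_)
  rw [Nat.card_Icc, nsmul_eq_mul, Nat.add_sub_cancel]
  ring

theorem lanC (Y H : ℕ) (hY : 2 ≤ Y) (hH : H ≤ Y) (σ : ℝ) (hσ : σ = 1 ∨ σ = -1) :
    σ * (H * (Chebyshev.theta ((2 * Y : ℕ) : ℝ) - Chebyshev.theta (Y : ℝ) - Y)) -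
      3 * (H : ℝ) ^ 2 * Real.log (3 * Y) ≤
    σ * ∑ n ∈ Ioc Y (2 * Y), (Real.log n * pi1 n H - H) := by
  have hYr : (2 : ℝ) ≤ Y := by exact_mod_cast hY
  have hY0 : (0 : ℝ) < Y := by linarith
  have h1 := lanB Y H (by omega) hH
  have h2 : |∑ n ∈ Ioc Y (2 * Y), PH H n - ∑ n ∈ Ioc Y (2 * Y), Real.log n * pi1 n H| ≤
      (H : ℝ) ^ 2 := by
    rw [← sum_sub_distrib]
    refine (abs_sum_le_sum_abs _ _).trans ?_
    have h3 : ∀ n ∈ Ioc Y (2 * Y), |PH H n - Real.log n * pi1 n H| ≤ (H : ℝ) ^ 2 / Y := by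
      intro n hn
      rw [mem_Ioc] at hn
      refine (PH_near H n (by omega)).trans ?_
      apply div_le_div_of_nonneg_left (by positivity) hY0
      exact_mod_cast hn.1.le
    refine (sum_le_card_nsmul _ _ _ h3).trans (le_of_eq ?_)
    rw [Nat.card_Ioc, nsmul_eq_mul, show 2 * Y - Y = Y by omega]
    field_simp
  have h4 : ∑ n ∈ Ioc Y (2 * Y), (Real.log n * pi1 n H - H) =
      ∑ n ∈ Ioc Y (2 * Y), Real.log n * pi1 n H - H * Y := by
    rw [sum_sub_distrib, sum_const, Nat.card_Ioc, nsmul_eq_mul, show 2 * Y - Y = Y by omega]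
    ring
  have h5 : (1 : ℝ) ≤ Real.log (3 * Y) := by
    rw [Real.le_log_iff_exp_le (by positivity)]
    have := Real.exp_one_lt_d9
    linarith
  have h6 : (H : ℝ) ^ 2 ≤ (H : ℝ) ^ 2 * Real.log (3 * Y) :=
    le_mul_of_one_le_right (by positivity) h5
  rw [h4]
  rw [abs_le] at h1 h2
  rcases hσ with h | h
  · rw [h]; linarith [h1.1, h1.2, h2.1, h2.2]
  · rw [h]; linarith [h1.1, h1.2, h2.1, h2.2]

theorem lanD (ε c : ℝ) (hε : 0 < ε) (hε1 : ε ≤ 1 / 1000) (hc : 0 < c) :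
    ∀ᶠ y : ℝ in atTop, ∀ h : ℝ, 0 ≤ h → h ≤ y ^ ε →
      2 * h * y ^ (1 - 11 * ε / 20) + 3 * h ^ 2 * Real.log (3 * y) ≤ c * y * Real.sqrt h := by
  have h1 := (tendsto_rpow_atTop (show 0 < ε / 20 by positivity)).eventually_ge_atTop (4 / c)
  have h2 := (isLittleO_log_rpow_atTop (show (0 : ℝ) < 1 / 4 by norm_num)).bound
    (show (0 : ℝ) < 1 by norm_num)
  have h3 := (tendsto_rpow_atTop (show (0 : ℝ) < 1 / 2 by norm_num)).eventually_ge_atTop (12 / c)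
  filter_upwards [h1, h2, h3, eventually_ge_atTop (16 : ℝ)] with y hy1 hy2 hy3 hy4 h hh0 hh
  have hy0 : 0 < y := by linarith
  rw [Real.norm_of_nonneg (Real.log_nonneg (by linarith)),
    Real.norm_of_nonneg (Real.rpow_nonneg hy0.le _), one_mul] at hy2
  have hsq : Real.sqrt h * Real.sqrt h = h := Real.mul_self_sqrt hh0
  have hs : Real.sqrt h ≤ y ^ (ε / 2) := by
    rw [Real.sqrt_eq_rpow]
    calc h ^ (1 / 2 : ℝ) ≤ (y ^ ε) ^ (1 / 2 : ℝ) := Real.rpow_le_rpow hh0 hh (by norm_num)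
      _ = y ^ (ε / 2) := by rw [← Real.rpow_mul hy0.le]; congr 1; ring
  have hs0 := Real.sqrt_nonneg h
  have hlog3 : Real.log (3 * y) ≤ 2 * Real.log y := by
    rw [Real.log_mul (by norm_num) hy0.ne']
    have : Real.log 3 ≤ Real.log y := Real.log_le_log (by norm_num) (by linarith)
    linarith
  have e1 : 2 * h * y ^ (1 - 11 * ε / 20) ≤ c / 2 * y * Real.sqrt h := by
    have a1 : y ^ (ε / 2) * y ^ (1 - 11 * ε / 20) = y ^ (1 - ε / 20) := by
      rw [← Real.rpow_add hy0]; congr 1; ring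
    have a2 : y ^ (ε / 20) * y ^ (1 - ε / 20) = y := by
      rw [← Real.rpow_add hy0]
      rw [show ε / 20 + (1 - ε / 20) = 1 by ring, Real.rpow_one]
    have a3 : 4 * y ^ (1 - ε / 20) ≤ c * y := by
      have := mul_le_mul_of_nonneg_right hy1 (Real.rpow_nonneg hy0.le (1 - ε / 20))
      rw [a2] at this
      have h4 : 4 / c * y ^ (1 - ε / 20) = 4 * y ^ (1 - ε / 20) / c := by ring
      rw [h4, div_le_iff₀ hc] at this
      linarith
    calc 2 * h * y ^ (1 - 11 * ε / 20)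
        = 2 * (Real.sqrt h * Real.sqrt h) * y ^ (1 - 11 * ε / 20) := by rw [hsq]
      _ ≤ 2 * (Real.sqrt h * y ^ (ε / 2)) * y ^ (1 - 11 * ε / 20) := by gcongr
      _ = 2 * Real.sqrt h * y ^ (1 - ε / 20) := by rw [← a1]; ring
      _ ≤ c / 2 * y * Real.sqrt h := by
          have := mul_le_mul_of_nonneg_left a3 hs0
          linarith
  have e2 : 3 * h ^ 2 * Real.log (3 * y) ≤ c / 2 * y * Real.sqrt h := by
    have b0 : Real.sqrt h ^ 3 ≤ y ^ (1 / 4 : ℝ) := by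
      calc Real.sqrt h ^ 3 ≤ (y ^ (ε / 2)) ^ 3 := by gcongr
        _ = y ^ (3 * ε / 2) := by
            rw [← Real.rpow_natCast, ← Real.rpow_mul hy0.le]; congr 1; push_cast; ring
        _ ≤ y ^ (1 / 4 : ℝ) := Real.rpow_le_rpow_of_exponent_le (by linarith) (by linarith)
    have b1 : h ^ 2 = Real.sqrt h * Real.sqrt h ^ 3 := by
      calc h ^ 2 = (Real.sqrt h * Real.sqrt h) ^ 2 := by rw [hsq]
        _ = _ := by ring
    have b2 : y ^ (1 / 4 : ℝ) * y ^ (1 / 4 : ℝ) = y ^ (1 / 2 : ℝ) := by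
      rw [← Real.rpow_add hy0]; norm_num
    have b3 : y ^ (1 / 2 : ℝ) * y ^ (1 / 2 : ℝ) = y := by
      rw [← Real.rpow_add hy0]; norm_num
    have b4 : 12 * y ^ (1 / 2 : ℝ) ≤ c * y := by
      have := mul_le_mul_of_nonneg_right hy3 (Real.rpow_nonneg hy0.le (1 / 2 : ℝ))
      rw [b3] at this
      have h4 : 12 / c * y ^ (1 / 2 : ℝ) = 12 * y ^ (1 / 2 : ℝ) / c := by ring
      rw [h4, div_le_iff₀ hc] at this
      linarith
    have b5 : Real.log (3 * y) ≤ 2 * y ^ (1 / 4 : ℝ) := by linarith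
    have b6 : 0 ≤ Real.log (3 * y) := Real.log_nonneg (by linarith)
    calc 3 * h ^ 2 * Real.log (3 * y)
        = 3 * (Real.sqrt h * Real.sqrt h ^ 3) * Real.log (3 * y) := by rw [b1]
      _ ≤ 3 * (Real.sqrt h * y ^ (1 / 4 : ℝ)) * (2 * y ^ (1 / 4 : ℝ)) := by gcongr
      _ = 6 * Real.sqrt h * y ^ (1 / 2 : ℝ) := by rw [← b2]; ring
      _ ≤ c / 2 * y * Real.sqrt h := by
          have := mul_le_mul_of_nonneg_left b4 hs0
          linarith
  linarith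

theorem lan_Mc (Y H : ℕ) (hY : 2 ≤ Y) : Mc Y (fun n => H / Real.log n) := by
  right; left
  intro a ha b hb hab
  have ha1 : 2 ≤ a := hY.trans ha.1
  apply div_le_div_of_nonneg_left (Nat.cast_nonneg H)
  · exact Real.log_pos (by exact_mod_cast ha1)
  · exact Real.log_le_log (by exact_mod_cast (by omega : 0 < a)) (by exact_mod_cast hab)

theorem lan (ε c : ℝ) (hε : 0 < ε) (hε1 : ε ≤ 1 / 1000) (hc : 0 < c) (σ : ℝ)
    (hσ : σ = 1 ∨ σ = -1) : ∃ X₀ : ℕ, ∀ X : ℕ, X₀ ≤ X → ∃ Y : ℕ,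
    (X : ℝ) ^ (1 - 60 * ε) ≤ Y ∧ Y ≤ X ∧ ∀ H : ℕ, 3 ≤ H → (H : ℝ) ≤ (Y : ℝ) ^ ε →
    Mc Y (fun n => H / Real.log n) ∧
    -(c * Y * (HL H / Real.log Y)) ≤ σ * ∑ n ∈ Ioc Y (2 * Y),
      Real.log n / Real.log (2 * Y) * (pi1 n H - H / Real.log n) := by
  obtain ⟨y0, hy0⟩ := eventually_atTop.1 (lanD ε c hε hε1 hc)
  have h6 : Tendsto (fun X : ℕ => (X : ℝ) ^ (1 - 60 * ε)) atTop atTop :=
    (tendsto_rpow_atTop (by linarith)).comp tendsto_natCast_atTop_atTop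
  obtain ⟨X₀, hX₀⟩ := eventually_atTop.1
    ((lanA ε hε hε1 σ hσ).and (h6.eventually_ge_atTop (max y0 2)))
  refine ⟨X₀, fun X hX => ?_⟩
  obtain ⟨⟨Y, hY1, hY2, hY3⟩, hX6⟩ := hX₀ X hX
  refine ⟨Y, hY1, hY2, fun H hH3 hHY => ?_⟩
  have hYr : (2 : ℝ) ≤ Y := (le_max_right _ _).trans (hX6.trans hY1)
  have hYy : y0 ≤ (Y : ℝ) := (le_max_left _ _).trans (hX6.trans hY1)
  have hYn : 2 ≤ Y := by exact_mod_cast hYr
  have hY0 : (0 : ℝ) < Y := by linarith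
  have hHY' : H ≤ Y := by
    have : (Y : ℝ) ^ ε ≤ (Y : ℝ) ^ (1 : ℝ) :=
      Real.rpow_le_rpow_of_exponent_le (by linarith) (by linarith)
    rw [Real.rpow_one] at this
    exact_mod_cast hHY.trans this
  refine ⟨lan_Mc Y H hYn, ?_⟩
  have hH0 : (0 : ℝ) ≤ H := Nat.cast_nonneg H
  have hD := hy0 (Y : ℝ) hYy (H : ℝ) hH0 hHY
  have hC := lanC Y H hYn hHY' σ hσ
  have hlY : 0 < Real.log Y := Real.log_pos (by linarith)
  have hl2 : Real.log Y ≤ Real.log (2 * Y) := Real.log_le_log hY0 (by linarith)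
  have hl2' : 0 < Real.log (2 * (Y : ℝ)) := hlY.trans_le hl2
  have hsum : ∑ n ∈ Ioc Y (2 * Y), Real.log n / Real.log (2 * Y) * (pi1 n H - H / Real.log n) =
      (∑ n ∈ Ioc Y (2 * Y), (Real.log n * pi1 n H - H)) / Real.log (2 * Y) := by
    rw [sum_div]
    refine sum_congr rfl fun n hn => ?_
    rw [mem_Ioc] at hn
    have hn1 : 0 < Real.log n := Real.log_pos (by exact_mod_cast (by omega : 1 < n))
    field_simp
  have hHL : Real.sqrt H ≤ HL H := by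
    unfold HL
    apply Real.sqrt_le_sqrt
    have : 1 ≤ Real.log (H : ℝ) := by
      rw [Real.le_log_iff_exp_le (by exact_mod_cast (by omega : 0 < H))]
      have h3 : (3 : ℝ) ≤ H := by exact_mod_cast hH3
      have := Real.exp_one_lt_d9
      linarith
    exact le_mul_of_one_le_right hH0 this
  have hmain : -(c * Y * HL H) ≤ σ * ∑ n ∈ Ioc Y (2 * Y), (Real.log n * pi1 n H - H) := by
    refine le_trans ?_ hC
    have e1 : -(H * (2 * (Y : ℝ) ^ (1 - 11 * ε / 20))) ≤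
        H * (σ * (Chebyshev.theta ((2 * Y : ℕ) : ℝ) - Chebyshev.theta (Y : ℝ) - Y)) := by
      have := mul_le_mul_of_nonneg_left hY3 hH0
      linarith
    have e2 : c * Y * Real.sqrt H ≤ c * Y * HL H :=
      mul_le_mul_of_nonneg_left hHL (by positivity)
    have e3 : σ * (H * (Chebyshev.theta ((2 * Y : ℕ) : ℝ) - Chebyshev.theta (Y : ℝ) - Y)) =
      H * (σ * (Chebyshev.theta ((2 * Y : ℕ) : ℝ) - Chebyshev.theta (Y : ℝ) - Y)) := by ring
    rw [e3]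
    linarith
  have hnn : 0 ≤ c * Y * HL H := by
    have : 0 ≤ HL H := Real.sqrt_nonneg _
    positivity
  rw [hsum]
  calc -(c * Y * (HL H / Real.log Y)) = -(c * Y * HL H) / Real.log Y := by ring
    _ ≤ -(c * Y * HL H) / Real.log (2 * Y) := by
        rw [neg_div, neg_div, neg_le_neg_iff]
        exact div_le_div_of_nonneg_left hnn hlY hl2
    _ ≤ (σ * ∑ n ∈ Ioc Y (2 * Y), (Real.log n * pi1 n H - H)) / Real.log (2 * Y) :=
        div_le_div_of_nonneg_right hmain hl2'.le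
    _ = _ := by rw [mul_div_assoc]

end Pool.Agent.H2.LP
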