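import Pool.Agent.H2.LP.Blk
import Pool.Agent.H2.LP.Lan

/-!
[H2 LP FIN]  The theorem for all real exponents `p > 1`.

Proof.  `k = 2` if `p ≥ 2`, otherwise `k = ⌈p/(p-1)⌉ ≥ 3`; then `p0 k = k/(k-1) ≤ p` (`k ≥ p/(p-1)`), and
`(min p 2 - 1)/20 ≤ ek k`: for `k = 2` both are `1/20`; for `k ≥ 3` `k - 1 < p/(p-1)`, so `p - 1 < 1/(k-2)` and
`(p-1)/20 ≤ 1/(20 (k-2))`, `(p-1)/20 ≤ 1/20`, `1/(20(k-2)) ≤ 1/(6k)` as `6k ≤ 20k - 40`.
`block k` and `pmean2` (`r = p0 k`, `s = c^(1/p0) S`, `#Ioc X (2X) = X`): constant `c^(p/p0)`, and the smaller of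
the two constants in the hypothesis.
-/

namespace Pool.Agent.H2.LP

open Finset Pool.Agent.H67.VS Pool.Agent.H48.OM

theorem choice (p : ℝ) (hp : 1 < p) : ∃ k : ℕ, 2 ≤ k ∧ p0 k ≤ p ∧ (min p 2 - 1) / 20 ≤ ek k := by
  rcases le_or_gt 2 p with h2 | h2
  · refine ⟨2, le_rfl, ?_, ?_⟩
    · unfold p0
      norm_num
      exact h2
    · rw [min_eq_right h2]
      unfold ek
      norm_num
  · have hp1 : 0 < p - 1 := by linarith
    obtain ⟨k, hk⟩ : ∃ k : ℕ, k = ⌈p / (p - 1)⌉₊ := ⟨_, rfl⟩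
    have h3 : p / (p - 1) ≤ k := by
      rw [hk]
      exact Nat.le_ceil _
    have h4 : (k : ℝ) < p / (p - 1) + 1 := by
      rw [hk]
      exact Nat.ceil_lt_add_one (by positivity)
    have h5 : 2 < p / (p - 1) := by
      rw [lt_div_iff₀ hp1]
      linarith
    have h6 : (2 : ℝ) < k := lt_of_lt_of_le h5 h3
    have hk2 : 2 ≤ k := by
      have : 2 < k := by exact_mod_cast h6
      omega
    have h7 : p ≤ k * (p - 1) := by
      rwa [div_le_iff₀ hp1] at h3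
    have h8 : ((k : ℝ) - 1) * (p - 1) < p := by
      have h9 : (k : ℝ) - 1 < p / (p - 1) := by linarith
      rwa [lt_div_iff₀ hp1] at h9
    refine ⟨k, hk2, ?_, ?_⟩
    · unfold p0
      rw [div_le_iff₀ (by linarith)]
      nlinarith
    · rw [min_eq_left h2.le]
      unfold ek
      apply le_min
      · linarith
      · rw [div_le_div_iff₀ (by norm_num) (by linarith)]
        nlinarith

theorem block_p (p : ℝ) (hp : 1 < p) : ∃ c : ℝ, 0 < c ∧ ∃ X₀ : ℕ, ∀ X H : ℕ, X₀ ≤ H →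
    (H : ℝ) ≤ (X : ℝ) ^ ((min p 2 - 1) / 20) → ∀ M : ℕ → ℝ, Mc X M → ∀ σ : ℝ, σ = 1 ∨ σ = -1 →
    ∀ u : ℕ → ℝ, (∀ n ∈ Ioc X (2 * X), Real.log n / Real.log (2 * X) ≤ u n ∧ u n ≤ 1) →
    -(c * X * (HL H / Real.log X)) ≤ σ * ∑ n ∈ Ioc X (2 * X), u n * (pi1 n H - M n) →
    c * X * (HL H / Real.log X) ^ p ≤
      ∑ n ∈ Ioc X (2 * X), (max 0 (σ * (pi1 n H - M n))) ^ p := by
  obtain ⟨k, hk, hkp, hke⟩ := choice p hp
  obtain ⟨c, hc, X₀, hb⟩ := block k hk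
  have hk1 : (0 : ℝ) < (k : ℝ) - 1 := by
    have : (2 : ℝ) ≤ k := by exact_mod_cast hk
    linarith
  have hp0 : 0 < p0 k := by
    unfold p0
    have : (2 : ℝ) ≤ k := by exact_mod_cast hk
    positivity
  refine ⟨min c (c ^ (p / p0 k)), lt_min hc (Real.rpow_pos_of_pos hc _), max X₀ 1, ?_⟩
  intro X H hH hHX M hM σ hσ u hu h
  have hH1 : 1 ≤ H := (le_max_right _ _).trans hH
  have hHr : (1 : ℝ) ≤ H := by exact_mod_cast hH1
  have hmin : 0 < (min p 2 - 1) / 20 := by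
    have : 1 < min p 2 := lt_min hp (by norm_num)
    linarith
  have hX1 : 1 ≤ X := by
    by_contra hX
    have hX0 : X = 0 := by omega
    rw [hX0, Nat.cast_zero, Real.zero_rpow hmin.ne'] at hHX
    linarith
  have hXr : (1 : ℝ) ≤ X := by exact_mod_cast hX1
  have hBig : Big k X₀ X H :=
    ⟨(le_max_left _ _).trans hH, hHX.trans (Real.rpow_le_rpow_of_exponent_le hXr hke)⟩
  have hS : 0 ≤ HL H / Real.log X :=
    div_nonneg (Real.sqrt_nonneg _) (Real.log_nonneg hXr)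
  have h1 : -(c * X * (HL H / Real.log X)) ≤ σ * ∑ n ∈ Ioc X (2 * X), u n * (pi1 n H - M n) := by
    refine le_trans ?_ h
    apply neg_le_neg
    apply mul_le_mul_of_nonneg_right _ hS
    exact mul_le_mul_of_nonneg_right (min_le_left _ _) (by linarith)
  have h2 := hb X H hBig M hM σ hσ u hu h1
  have hcard : ((Ioc X (2 * X)).card : ℝ) = X := by
    rw [Nat.card_Ioc]
    congr 1
    omega
  have h3 := pmean2 (p0 k) p (c ^ (1 / p0 k) * (HL H / Real.log X)) hp0 hkp (Ioc X (2 * X))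
    (fun n => max 0 (σ * (pi1 n H - M n))) (fun n _ => le_max_left _ _)
    (mul_nonneg (Real.rpow_nonneg hc.le _) hS) (by
      rw [hcard, Real.mul_rpow (Real.rpow_nonneg hc.le _) hS, ← Real.rpow_mul hc.le,
        one_div_mul_cancel hp0.ne', Real.rpow_one]
      refine le_trans (le_of_eq ?_) h2
      ring)
  rw [hcard, Real.mul_rpow (Real.rpow_nonneg hc.le _) hS, ← Real.rpow_mul hc.le] at h3
  refine le_trans ?_ h3
  have h4 : c ^ (1 / p0 k * p) * (HL H / Real.log X) ^ p * X =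
      c ^ (p / p0 k) * X * (HL H / Real.log X) ^ p := by
    rw [one_div_mul_eq_div]
    ring
  rw [h4]
  apply mul_le_mul_of_nonneg_right _ (Real.rpow_nonneg hS _)
  exact mul_le_mul_of_nonneg_right (min_le_right _ _) (by linarith)

/-- the final theorem -/
theorem final (p : ℝ) (hp : 1 < p) : ∃ c : ℝ, 0 < c ∧ ∃ X₀ : ℕ, ∀ σ : ℝ, σ = 1 ∨ σ = -1 →
    (∀ X H : ℕ, X₀ ≤ H → (H : ℝ) ≤ (X : ℝ) ^ ((min p 2 - 1) / 20) → ∀ M : ℕ → ℝ,
      (MonotoneOn M (Set.Icc X (2 * X)) ∨ AntitoneOn M (Set.Icc X (2 * X)) ∨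
        ∑ n ∈ Ico X (2 * X), |M (n + 1) - M n| ≤ (X : ℝ) ^ (2 / 3 : ℝ)) →
      0 ≤ σ * ∑ n ∈ Ioc X (2 * X), ((((Ioc n (n + H)).filter Nat.Prime).card : ℝ) - M n) →
      c * X * (Real.sqrt (H * Real.log H) / Real.log X) ^ p ≤ ∑ n ∈ Ioc X (2 * X),
        (max 0 (σ * ((((Ioc n (n + H)).filter Nat.Prime).card : ℝ) - M n))) ^ p) ∧
    (∀ ε : ℝ, 0 < ε → ε ≤ 1 / 1000 → ε ≤ (min p 2 - 1) / 20 → ∃ X₁ : ℕ, ∀ X : ℕ, X₁ ≤ X →
      ∃ Y : ℕ, (X : ℝ) ^ (1 - 60 * ε) ≤ Y ∧ Y ≤ X ∧ ∀ H : ℕ, X₀ ≤ H → (H : ℝ) ≤ (Y : ℝ) ^ ε →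
        c * Y * (Real.sqrt (H * Real.log H) / Real.log Y) ^ p ≤ ∑ n ∈ Ioc Y (2 * Y),
          (max 0 (σ * ((((Ioc n (n + H)).filter Nat.Prime).card : ℝ) - H / Real.log n))) ^ p) := by
  obtain ⟨c, hc, X₀, hb⟩ := block_p p hp
  have hmin : 0 < (min p 2 - 1) / 20 := by
    have : 1 < min p 2 := lt_min hp (by norm_num)
    linarith
  have hpos : ∀ (a : ℝ) (X H : ℕ), 0 < a → 3 ≤ H → (H : ℝ) ≤ (X : ℝ) ^ a → 1 ≤ X := by
    intro a X H ha hH hHX
    by_contra hX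
    have hX0 : X = 0 := by omega
    rw [hX0, Nat.cast_zero, Real.zero_rpow ha.ne'] at hHX
    have : (3 : ℝ) ≤ H := by exact_mod_cast hH
    linarith
  have hlogle : ∀ X : ℕ, 1 ≤ X → ∀ n ∈ Ioc X (2 * X), Real.log n / Real.log (2 * X) ≤ 1 := by
    intro X hX n hn
    rw [mem_Ioc] at hn
    have hX1 : (1 : ℝ) ≤ X := by exact_mod_cast hX
    have h1 : 0 < Real.log (2 * X) := Real.log_pos (by linarith)
    rw [div_le_one h1]
    apply Real.log_le_log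
    · exact_mod_cast (by omega : 0 < n)
    · exact_mod_cast hn.2
  refine ⟨c, hc, max X₀ 3, fun σ hσ => ⟨?_, ?_⟩⟩
  · intro X H hH hHX M hM h
    have hH3 : 3 ≤ H := (le_max_right _ _).trans hH
    have hX1 := hpos _ X H hmin hH3 hHX
    have hXr : (1 : ℝ) ≤ X := by exact_mod_cast hX1
    have hneg : -(c * X * (HL H / Real.log X)) ≤ 0 := by
      have : 0 ≤ HL H / Real.log X := div_nonneg (Real.sqrt_nonneg _) (Real.log_nonneg hXr)
      have : 0 ≤ c * X * (HL H / Real.log X) := by positivity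
      linarith
    exact hb X H ((le_max_left _ _).trans hH) hHX M hM σ hσ (fun _ => 1)
      (fun n hn => ⟨hlogle X hX1 n hn, le_rfl⟩) (by
        refine hneg.trans (h.trans (le_of_eq ?_))
        simp only [one_mul]
        rfl)
  · intro ε hε hε1 hε2
    obtain ⟨X₁, h₁⟩ := lan ε c hε hε1 hc σ hσ
    refine ⟨X₁, fun X hX => ?_⟩
    obtain ⟨Y, hY1, hY2, hY3⟩ := h₁ X hX
    refine ⟨Y, hY1, hY2, fun H hH hHY => ?_⟩
    have hH3 : 3 ≤ H := (le_max_right _ _).trans hH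
    obtain ⟨hM, h3⟩ := hY3 H hH3 hHY
    have hYpos := hpos _ Y H hε hH3 hHY
    have hYr : (1 : ℝ) ≤ Y := by exact_mod_cast hYpos
    exact hb Y H ((le_max_left _ _).trans hH)
      (hHY.trans (Real.rpow_le_rpow_of_exponent_le hYr hε2)) _ hM σ hσ _
      (fun n hn => ⟨le_rfl, hlogle Y hYpos n hn⟩) h3

end Pool.Agent.H2.LP
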