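import Pool.Agent.H2.LP.Defs
import Pool.Agent.H48.OM.ParA

/-!
[H2 LP PAR]  The parameters.

Notation: `e = ek k`, `0 < e ≤ 1/20`, `e ≤ 1/(6k)`, `k ≥ 2` (`ek_pos, ek_le`); `X ≥ H ≥ X₀` (`Big.le`), and
`X ^ e ≥ H ≥ X₀` makes every fixed power `X ^ (c e)`, `c > 0`, as large as we like.
Proofs (for comparison: `Pool/Agent/H48/OM/ParA.lean`, the same facts at other exponents).
* `lk_k`: `H^(1/(200k)) ≥ 3` for large `H`, so `L ≥ 2` and `L ≥ H^(1/(200k)) - 1 ≥ H^(1/(400k))`;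
  `L^4 ≤ H^(4/(200k)) ≤ H^(1/100)` (`k ≥ 2`), `H^(1/100) ≤ X^(e/100)`.
* `par_k`: `A = X + X/4 ≥ X ≥ H`, `q > ⌊X^(1.54 e)⌋`, so `q > X^(1.54 e)` (`Nat.lt_of_floor_lt`),
  `H ≤ X^e < q`, `L^2 ≤ L^4 ≤ X^(e/100) < q`, `q - 1 ≥ X^(1.54 e)/2 = Yk ≥ 1`;
  `q q' L^2 ≤ X^(3.2 e + e/100) ≤ X^(321/2000) ≤ X^(33/200) - 1 < Rk X + 0` (large `X`), and
  `≤ X ≤ A`.
* `card_k`: `|Q| ≤ ⌊X^(1.6 e)⌋`.
* `div_k`: the product of the primes of `Q` dividing `m` divides `m ≤ 3X`, and is `≥ 2^card`: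
  `card ≤ log(3X)/log 2 ≤ 2 log X` (see `div_le` in `ParA.lean`).
* `ww_wt`: values `0, 1`; the variation of an indicator function of an interval is at most `2`
  (only `k = A` and `k = B` give a non-zero difference).
* `mass_k`: `mass = B - A = 2 (X/4)` (natural division), between `X/3` and `X` for `X ≥ 100`.
-/

namespace Pool.Agent.H2.LP

open Finset Pool.Agent.H67.VS Pool.Agent.H48.OM

theorem par_ge (a C : ℝ) (ha : 0 < a) : ∃ X₀ : ℕ, ∀ X : ℕ, X₀ ≤ X → C ≤ (X : ℝ) ^ a := by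
  have h := tendsto_natCast_atTop_atTop.eventually (parA_ge a C ha)
  exact Filter.eventually_atTop.1 h

theorem lk_k (k : ℕ) (hk : 2 ≤ k) : ∃ X₀ : ℕ, ∀ X H : ℕ, Big k X₀ X H →
    2 ≤ Lk k H ∧ (Lk k H : ℝ) ^ 4 ≤ (H : ℝ) ^ (1 / 100 : ℝ) ∧
    (Lk k H : ℝ) ^ 4 ≤ (X : ℝ) ^ (ek k / 100) ∧
    Real.log H / (400 * k) ≤ Real.log (Lk k H) ∧ Real.log (Lk k H) ≤ Real.log H := by
  have hk0 : (0 : ℝ) < k := by exact_mod_cast (by omega : 0 < k)
  have hk2 : (2 : ℝ) ≤ k := by exact_mod_cast hk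
  obtain ⟨N, hN⟩ := par_ge (1 / (400 * k)) 2 (by positivity)
  refine ⟨N + 1, fun X H hB => ?_⟩
  have hH1 : 1 ≤ H := le_trans (by omega) hB.1
  have hHr : (1 : ℝ) ≤ H := by exact_mod_cast hH1
  have hH0 : (0 : ℝ) < H := by linarith
  have ht := hN H (le_trans (by omega) hB.1)
  have hsq : (H : ℝ) ^ (1 / (200 * k) : ℝ) = (H : ℝ) ^ (1 / (400 * k) : ℝ) *
      (H : ℝ) ^ (1 / (400 * k) : ℝ) := by
    rw [← Real.rpow_add hH0]
    congr 1
    field_simp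
    norm_num
  have hfl := Nat.lt_floor_add_one ((H : ℝ) ^ (1 / (200 * k) : ℝ))
  have hfl' : (Lk k H : ℝ) ≤ (H : ℝ) ^ (1 / (200 * k) : ℝ) := Nat.floor_le (by positivity)
  have hL4 : (Lk k H : ℝ) ^ 4 ≤ (H : ℝ) ^ (1 / 100 : ℝ) := by
    calc (Lk k H : ℝ) ^ 4 ≤ ((H : ℝ) ^ (1 / (200 * k) : ℝ)) ^ 4 := by gcongr
      _ = (H : ℝ) ^ (1 / (200 * k) * 4 : ℝ) := by
          rw [Real.rpow_mul hH0.le, ← Real.rpow_natCast]
          rfl
      _ ≤ _ := by
          refine Real.rpow_le_rpow_of_exponent_le hHr ?_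
          rw [div_mul_eq_mul_div, div_le_div_iff₀ (by positivity) (by norm_num)]
          linarith
  have hge : (H : ℝ) ^ (1 / (400 * k) : ℝ) ≤ Lk k H := by
    unfold Lk
    nlinarith
  refine ⟨?_, hL4, ?_, ?_, ?_⟩
  · have : (2 : ℝ) ≤ Lk k H := ht.trans hge
    exact_mod_cast this
  · refine hL4.trans ?_
    calc (H : ℝ) ^ (1 / 100 : ℝ) ≤ ((X : ℝ) ^ ek k) ^ (1 / 100 : ℝ) :=
          Real.rpow_le_rpow hH0.le hB.2 (by norm_num)
      _ = (X : ℝ) ^ (ek k / 100) := by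
          rw [← Real.rpow_mul (Nat.cast_nonneg _)]
          congr 1
          ring
  · have h5 := Real.log_le_log (by positivity) hge
    rw [Real.log_rpow hH0] at h5
    calc Real.log H / (400 * k) = 1 / (400 * k) * Real.log H := by ring
      _ ≤ _ := h5
  · refine Real.log_le_log (lt_of_lt_of_le (by positivity) hge) ?_
    refine hfl'.trans ?_
    calc (H : ℝ) ^ (1 / (200 * k) : ℝ) ≤ (H : ℝ) ^ (1 : ℝ) := by
          refine Real.rpow_le_rpow_of_exponent_le hHr ?_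
          rw [div_le_one (by positivity)]
          linarith
      _ = H := Real.rpow_one _

theorem par_mem {k X q : ℕ} (hq : q ∈ Qk k X) :
    q.Prime ∧ (X : ℝ) ^ (154 / 100 * ek k) < q ∧ (q : ℝ) ≤ (X : ℝ) ^ (160 / 100 * ek k) := by
  rw [Qk, Finset.mem_filter, Finset.mem_Ioc] at hq
  refine ⟨hq.2, Nat.lt_of_floor_lt hq.1.1, ?_⟩
  exact (Nat.le_floor_iff (by positivity)).1 hq.1.2

theorem par_k (k : ℕ) (hk : 2 ≤ k) : ∃ X₀ : ℕ, ∀ X H : ℕ, Big k X₀ X H →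
    Par (Aw X) (Bw X) (Lk k H) H (Rk X) (Qk k X) (Yk k X) := by
  obtain ⟨N, hN⟩ := lk_k k hk
  refine ⟨N + 2, fun X H hB => ?_⟩
  have he := ek_pos hk
  have he2 := ek_le k
  have hH2 : 2 ≤ H := le_trans (by omega) hB.1
  have hHX : H ≤ X := hB.le hk (by omega)
  have hX1 : (1 : ℝ) ≤ X := by exact_mod_cast (by omega : 1 ≤ X)
  have hX0 : (0 : ℝ) < X := by linarith
  obtain ⟨hL, -, hL4, -, -⟩ := hN X H (hB.mono (by omega))
  have mono : ∀ {a b : ℝ}, a ≤ b → (X : ℝ) ^ a ≤ (X : ℝ) ^ b := fun h =>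
    Real.rpow_le_rpow_of_exponent_le hX1 h
  have hLr : (2 : ℝ) ≤ Lk k H := by exact_mod_cast hL
  have hL2 : ((Lk k H : ℝ)) ^ 2 ≤ (X : ℝ) ^ (ek k / 100) := by
    refine le_trans ?_ hL4
    exact pow_le_pow_right₀ (by linarith) (by norm_num)
  have h2 : (2 : ℝ) ≤ (X : ℝ) ^ (154 / 100 * ek k) := by
    refine le_trans ?_ (hB.2.trans (mono (by linarith)))
    exact_mod_cast hH2
  have hHX' : (H : ℝ) ≤ (X : ℝ) ^ (154 / 100 * ek k) := hB.2.trans (mono (by linarith))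
  have hqq : ∀ q ∈ Qk k X, ∀ q' ∈ Qk k X,
      ((q * q' * (Lk k H) ^ 2 : ℕ) : ℝ) ≤ (X : ℝ) ^ (33 / 200 : ℝ) := by
    intro q hq q' hq'
    obtain ⟨-, -, h5⟩ := par_mem hq
    obtain ⟨-, -, h6⟩ := par_mem hq'
    have h7 : (X : ℝ) ^ (160 / 100 * ek k) * (X : ℝ) ^ (160 / 100 * ek k) *
        (X : ℝ) ^ (ek k / 100) ≤ (X : ℝ) ^ (33 / 200 : ℝ) := by
      rw [← Real.rpow_add hX0, ← Real.rpow_add hX0]
      exact mono (by linarith)
    push_cast
    refine le_trans ?_ h7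
    gcongr
  have hXA : (X : ℝ) ≤ (Aw X : ℝ) := by
    have : X ≤ Aw X := by unfold Aw; omega
    exact_mod_cast this
  refine ⟨?_, hL, by omega, ?_, ?_, ?_, ?_, ?_, ?_, ?_, ?_⟩
  · unfold Aw Bw
    omega
  · unfold Aw
    omega
  · unfold Yk
    linarith
  · exact fun q hq => (par_mem hq).1
  · intro q hq
    have h5 := (par_mem hq).2.1
    have h6 : ((Lk k H : ℝ)) ^ 2 < q := lt_of_le_of_lt (hL2.trans (mono (by linarith))) h5
    exact_mod_cast h6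
  · intro q hq
    have h5 := (par_mem hq).2.1
    have h6 : (H : ℝ) < q := lt_of_le_of_lt hHX' h5
    exact_mod_cast h6
  · intro q hq
    have h5 := (par_mem hq).2.1
    unfold Yk
    linarith
  · exact fun q hq q' hq' => Nat.le_floor (hqq q hq q' hq')
  · intro q hq q' hq'
    have h5 : ((q * q' * (Lk k H) ^ 2 : ℕ) : ℝ) ≤ (Aw X : ℝ) := by
      refine (hqq q hq q' hq').trans (le_trans ?_ hXA)
      calc (X : ℝ) ^ (33 / 200 : ℝ) ≤ (X : ℝ) ^ (1 : ℝ) := mono (by norm_num)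
        _ = X := Real.rpow_one _
    exact_mod_cast h5

theorem card_k (k : ℕ) (hk : 2 ≤ k) : ∃ X₀ : ℕ, ∀ X : ℕ, X₀ ≤ X →
    ((Qk k X).card : ℝ) ≤ (X : ℝ) ^ (160 / 100 * ek k) := by
  have _ := hk
  refine ⟨1, fun X _ => ?_⟩
  have h1 : (Qk k X).card ≤ ⌊(X : ℝ) ^ (160 / 100 * ek k)⌋₊ := by
    refine (Finset.card_filter_le _ _).trans ?_
    rw [Nat.card_Ioc]
    exact Nat.sub_le _ _
  calc ((Qk k X).card : ℝ) ≤ (⌊(X : ℝ) ^ (160 / 100 * ek k)⌋₊ : ℝ) := by exact_mod_cast h1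
    _ ≤ _ := Nat.floor_le (by positivity)

theorem div_k (k : ℕ) (hk : 2 ≤ k) : ∃ X₀ : ℕ, ∀ X : ℕ, X₀ ≤ X → ∀ m : ℕ, 1 ≤ m → m ≤ 3 * X →
    (((Qk k X).filter (fun q => q ∣ m)).card : ℝ) ≤ 2 * Real.log X := by
  have _ := hk
  refine ⟨⌈Real.exp 10⌉₊, fun X hX m hm hmX => ?_⟩
  have hX' : Real.exp 10 ≤ X := (Nat.le_ceil _).trans (by exact_mod_cast hX)
  have hX0 : (0 : ℝ) < X := lt_of_lt_of_le (Real.exp_pos _) hX'
  have hL : 10 ≤ Real.log X := by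
    rw [Real.le_log_iff_exp_le hX0]
    exact hX'
  set s := (Qk k X).filter (fun q => q ∣ m) with hs
  have h1 : ∏ p ∈ s, p ∣ m := by
    refine Finset.prod_primes_dvd m (fun p hp => ?_) (fun p hp => ?_)
    · rw [hs, Finset.mem_filter, Qk, Finset.mem_filter] at hp
      exact hp.1.2.prime
    · rw [hs, Finset.mem_filter] at hp
      exact hp.2
  have h2 : 2 ^ s.card ≤ ∏ p ∈ s, p := by
    refine Finset.pow_card_le_prod s (fun p => p) 2 fun p hp => ?_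
    rw [hs, Finset.mem_filter, Qk, Finset.mem_filter] at hp
    exact hp.1.2.two_le
  have h3 : 2 ^ s.card ≤ m := h2.trans (Nat.le_of_dvd hm h1)
  have h4 : ((2 : ℝ)) ^ s.card ≤ 3 * X := by
    exact_mod_cast h3.trans hmX
  have h5 := Real.log_le_log (by positivity) h4
  rw [Real.log_pow, Real.log_mul (by norm_num) hX0.ne'] at h5
  have h6 := Real.log_two_gt_d9
  have h7 : Real.log 3 ≤ 2 * Real.log 2 := by
    have h8 : (2 : ℝ) * Real.log 2 = Real.log (2 ^ 2) := by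
      rw [Real.log_pow]
      norm_num
    rw [h8]
    exact Real.log_le_log (by norm_num) (by norm_num)
  have h9 := Real.log_two_lt_d9
  have h10 : (0 : ℝ) ≤ s.card := Nat.cast_nonneg _
  nlinarith

theorem ww_wt (X : ℕ) : Wt (Aw X) (Bw X) (ww X) := by
  refine ⟨?_, ?_, ?_, ?_⟩
  · intro n
    unfold ww
    split_ifs <;> norm_num
  · intro n
    unfold ww
    split_ifs <;> norm_num
  · intro n hn
    unfold ww
    rw [if_neg hn]
  · intro m n
    have h1 : ∀ k ∈ Ico m n, |ww X (k + 1) - ww X k| ≤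
        (if k = Aw X then (1 : ℝ) else 0) + (if k = Bw X then (1 : ℝ) else 0) := by
      intro k _
      unfold ww
      simp only [Finset.mem_Ioc]
      by_cases ha : k = Aw X
      · rw [if_pos ha]
        have : (0 : ℝ) ≤ (if k = Bw X then (1 : ℝ) else 0) := by split_ifs <;> norm_num
        split_ifs <;> norm_num at *
      · by_cases hb : k = Bw X
        · rw [if_neg ha, if_pos hb]
          split_ifs <;> norm_num
        · rw [if_neg ha, if_neg hb]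
          have h2 : (Aw X < k + 1 ∧ k + 1 ≤ Bw X) ↔ (Aw X < k ∧ k ≤ Bw X) := by
            constructor
            · rintro ⟨h, h'⟩
              omega
            · rintro ⟨h, h'⟩
              omega
          simp only [h2]
          norm_num
    refine (Finset.sum_le_sum h1).trans ?_
    rw [Finset.sum_add_distrib, Finset.sum_ite_eq', Finset.sum_ite_eq']
    split_ifs <;> norm_num

theorem mass_k (X : ℕ) (hX : 100 ≤ X) :
    (X : ℝ) / 3 ≤ mass (Aw X) (Bw X) (ww X) ∧ mass (Aw X) (Bw X) (ww X) ≤ X ∧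
    mass (Aw X) (Bw X) (ww X) = (Bw X : ℝ) - Aw X := by
  have hAB : Aw X ≤ Bw X := by
    unfold Aw Bw
    omega
  have h1 : mass (Aw X) (Bw X) (ww X) = (Bw X : ℝ) - Aw X := by
    unfold mass
    rw [Finset.sum_congr rfl (fun n hn => by unfold ww; rw [if_pos hn] : ∀ n ∈ Ioc (Aw X) (Bw X),
      ww X n = 1), Finset.sum_const, Nat.card_Ioc, nsmul_eq_mul, mul_one, Nat.cast_sub hAB]
  have h2 : (Bw X : ℝ) - Aw X = 2 * ((X / 4 : ℕ) : ℝ) := by
    unfold Aw Bw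
    push_cast
    ring
  have h3 : X < 4 * (X / 4) + 4 := by omega
  have h4 : 4 * (X / 4) ≤ X := by omega
  have h3' : (X : ℝ) < 4 * ((X / 4 : ℕ) : ℝ) + 4 := by exact_mod_cast h3
  have h4' : 4 * ((X / 4 : ℕ) : ℝ) ≤ X := by exact_mod_cast h4
  have h5 : (100 : ℝ) ≤ X := by exact_mod_cast hX
  refine ⟨?_, ?_, h1⟩
  · rw [h1, h2]
    linarith
  · rw [h1, h2]
    linarith

end Pool.Agent.H2.LP
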